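import Pool.Agent.Lib.MP_00fb6a_lc.Pos.Ideal

/-!
The interface between the combinatorial core and the construction of the model.
-/

set_option autoImplicit false

namespace Pool.Agent.Lib.MP_00fb6a_lc.Pos

open Set MeasureTheory

/-- Cantor space. -/
abbrev Ca : Type := ℕ → Bool

/-- A symmetric and transitive relation with countable sections. -/
structure Per {X : Type} (r : X → X → Prop) : Prop where
  symm : ∀ {x y}, r x y → r y x
  trans : ∀ {x y z}, r x y → r y z → r x z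
  cnt : ∀ x, {y | r x y}.Countable

theorem Per.left {X : Type} {r : X → X → Prop} (h : Per r) {x y : X} (a : r x y) : r x x :=
  h.trans a (h.symm a)

theorem Per.right {X : Type} {r : X → X → Prop} (h : Per r) {x y : X} (a : r x y) : r y y :=
  h.trans (h.symm a) a

theorem Per.iff {X : Type} {r : X → X → Prop} (h : Per r) {x y x' y' : X} (a : r x x')
    (b : r y y') : r x y ↔ r x' y' :=
  ⟨fun k => h.trans (h.trans (h.symm a) k) b, fun k => h.trans (h.trans a k) (h.symm b)⟩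

/-- On `p` the fibres of `E` are countable equivalence relations on their domains. -/
def Fib {Ω : Type} (p : Set Ω) (E : Set (Ω × Ca × Ca)) : Prop :=
  ∀ ω ∈ p, Per fun x y => (ω, x, y) ∈ E

/-- `R f g q` is read as: the condition `q` forces that the class of `f` is sent to the class
of `g` by a fixed name for a quotient Borel isomorphism from `F` to `E`. -/
structure Match {Ω : Type} [MeasurableSpace Ω] (J : Set Ω → Prop) (p : Set Ω)
    (F E : Set (Ω × Ca × Ca)) (R : (Ω → Ca) → (Ω → Ca) → Set Ω → Prop) : Prop where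
  tot : ∀ f : Ω → Ca, Measurable f → ∀ q, MeasurableSet q → q ⊆ p → ¬ J q →
    (∀ ω ∈ q, (ω, f ω, f ω) ∈ F) → ∃ g q', Measurable g ∧ MeasurableSet q' ∧ q' ⊆ q ∧ ¬ J q' ∧ R f g q'
  sur : ∀ g : Ω → Ca, Measurable g → ∀ q, MeasurableSet q → q ⊆ p → ¬ J q →
    (∀ ω ∈ q, (ω, g ω, g ω) ∈ E) → ∃ f q', Measurable f ∧ MeasurableSet q' ∧ q' ⊆ q ∧ ¬ J q' ∧ R f g q'
  coh : ∀ f g q f' g' q', R f g q → R f' g' q' →
    J {ω | ω ∈ p ∧ ω ∈ q ∧ ω ∈ q' ∧ ¬ ((ω, f ω, f' ω) ∈ F ↔ (ω, g ω, g' ω) ∈ E)}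
  bor : ∀ A : Set (Ω × Ca), MeasurableSet A →
    (∀ ω ∈ p, ∀ y y', (ω, y, y') ∈ F → (ω, y) ∈ A → (ω, y') ∈ A) →
    ∀ q, MeasurableSet q → q ⊆ p → ¬ J q →
      ∃ q', MeasurableSet q' ∧ q' ⊆ q ∧ ¬ J q' ∧ ∃ B : Set (Ω × Ca), MeasurableSet B ∧
        ∀ f g q'', R f g q'' → J {ω | ω ∈ q' ∧ ω ∈ q'' ∧ ¬ ((ω, f ω) ∈ A ↔ (ω, g ω) ∈ B)}

/-- Every matching is lifted by a measurable fibrewise reduction, off a set of the ideal. -/
def Core {Ω : Type} [MeasurableSpace Ω] (J : Set Ω → Prop) : Prop :=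
  ∀ (p : Set Ω) (F E : Set (Ω × Ca × Ca)) (R : (Ω → Ca) → (Ω → Ca) → Set Ω → Prop),
    MeasurableSet p → MeasurableSet F → MeasurableSet E → Fib p F → Fib p E → Match J p F E R →
    ∃ h : Ω × Ca → Ca, Measurable h ∧
      J {ω | ω ∈ p ∧ ∃ y y', (ω, y, y) ∈ F ∧ (ω, y', y') ∈ F ∧
        ¬ ((ω, y, y') ∈ F ↔ (ω, h (ω, y), h (ω, y')) ∈ E)}

/-- Fibrewise reductions in both directions give fibrewise homomorphisms that are inverse to each
other on the quotients. -/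
def Core2 (Ω : Type) [MeasurableSpace Ω] : Prop :=
  ∀ (p : Set Ω) (E F : Set (Ω × Ca × Ca)) (h h' : Ω × Ca → Ca),
    MeasurableSet p → MeasurableSet E → MeasurableSet F → Fib p E → Fib p F →
    Measurable h → Measurable h' →
    (∀ ω ∈ p, ∀ x x', (ω, x, x) ∈ E → (ω, x', x') ∈ E →
      ((ω, x, x') ∈ E ↔ (ω, h (ω, x), h (ω, x')) ∈ F)) →
    (∀ ω ∈ p, ∀ y y', (ω, y, y) ∈ F → (ω, y', y') ∈ F →
      ((ω, y, y') ∈ F ↔ (ω, h' (ω, y), h' (ω, y')) ∈ E)) →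
    ∃ k k' : Ω × Ca → Ca, Measurable k ∧ Measurable k' ∧ ∀ ω ∈ p,
      (∀ x x', (ω, x, x') ∈ E → (ω, k (ω, x), k (ω, x')) ∈ F) ∧
      (∀ y y', (ω, y, y') ∈ F → (ω, k' (ω, y), k' (ω, y')) ∈ E) ∧
      (∀ x, (ω, x, x) ∈ E → (ω, k' (ω, k (ω, x)), x) ∈ E) ∧
      ∀ y, (ω, y, y) ∈ F → (ω, k (ω, k' (ω, y)), y) ∈ F

end Pool.Agent.Lib.MP_00fb6a_lc.Pos
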