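import Mathlib
import Pool.Agent.Shared.Forcing
import Pool.Agent.Lib.MP_00fb6a_lc.Pos.Iface

/-!
Forcing with the positive measurable sets of a sigma-ideal with the countable chain condition.
The filter of sufficiently closed countable sets of names with a generic point.
-/

set_option autoImplicit false
set_option linter.unusedSectionVars false

namespace Pool.Agent.Lib.MP_00fb6a_lc.Pos

open Set Filter MeasureTheory Classical Pool.Agent.Lib.MP_053343_lc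
  Pool.Agent.Lib.MP_053343_lc.Name Pool.Agent.Shared.Forcing

universe u v w

section chk

variable {P : Type} [Preorder P] [OrderTop P]

/-- A code for an element of an arbitrary type. -/
noncomputable def chk {A : Type} : A → Name P :=
  (IsWellFounded.wf (r := (WellOrderingRel : A → A → Prop))).fix fun a f =>
    setN fun b : {b // WellOrderingRel b a} => f b.1 b.2

theorem chk_eq {A : Type} (a : A) :
    (chk a : Name P) = setN fun b : {b // WellOrderingRel b a} => chk b.1 :=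
  WellFounded.fix_eq _ _ _

theorem feq_chk {A : Type} {a : A} : ∀ {b : A} {p : P}, FEq (chk a) (chk b) p → a = b := by
  induction a using (IsWellFounded.wf (r := (WellOrderingRel : A → A → Prop))).induction with
  | h a ih =>
    intro b p h
    rw [chk_eq a, chk_eq b, feq_iff] at h
    rcases trichotomous_of WellOrderingRel a b with hl | hl | hl
    · obtain ⟨r, _, i, _, h'⟩ := h.2 ⟨a, hl⟩ p le_rfl le_top
      have := ih _ i.2 h'
      exact (irrefl_of WellOrderingRel a (by simpa [this] using i.2)).elim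
    · exact hl
    · obtain ⟨r, _, i, _, h'⟩ := h.1 ⟨b, hl⟩ p le_rfl le_top
      have := ih _ hl h'
      exact (irrefl_of WellOrderingRel b (by simpa [← this] using i.2)).elim

theorem chk_inj {A : Type} : Function.Injective (chk : A → Name P) := fun a _ h =>
  feq_chk (p := (⊤ : P)) (h ▸ FEq.refl (chk a) _)

theorem setN_inj {α : Type} {A B : α → Name P} (h : setN A = setN B) : A = B := by
  unfold setN at h
  injection h

end chk

/-- A proper sigma-ideal with the countable chain condition. -/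
class Amb (Ω : Type) [m : MeasurableSpace Ω] where
  J : Set Ω → Prop
  ccc : Ccc m J
  top : ¬ J univ

open Amb

variable (Ω : Type) [MeasurableSpace Ω] [Amb Ω]

/-- The conditions. -/
structure PP where
  s : Set Ω
  m : MeasurableSet s
  p : ¬ J s

instance : Preorder (PP Ω) := Preorder.lift PP.s

instance : OrderTop (PP Ω) where
  top := ⟨univ, MeasurableSet.univ, Amb.top⟩
  le_top _ := subset_univ _

/-- The names. -/
abbrev Nm : Type 1 := Name (PP Ω)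

/-- A countable model with a generic point. -/
structure CC where
  C : Pool.Agent.Shared.Forcing.Ctx (P := PP Ω) (ι := Empty) (κ := Empty)
    (fun i => i.elim) fun i => i.elim
  ω : Ω
  h1 : ∀ p ∈ C.G, ω ∈ p.s
  h2 : ∀ q, cN q ∈ C.N → ω ∈ q.s → q ∈ C.G
  h3 : ∀ B : Set Ω, chk B ∈ C.N → J B → ω ∉ B

/-- Objects coded as names. -/
class Cd (T : Type u) where
  c : T → Nm Ω
  inj : Function.Injective c

noncomputable instance (priority := low) {T : Type} : Cd Ω T := ⟨chk, chk_inj⟩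
instance : Cd Ω (Nm Ω) := ⟨id, fun _ _ h => h⟩
instance : Cd Ω (PP Ω) := ⟨cN, fun _ _ h => cN_inj h⟩
instance {T : Type u} {S : Type v} [Cd Ω T] [Cd Ω S] : Cd Ω (T × S) :=
  ⟨fun x => pairN (Cd.c x.1) (Cd.c x.2), fun _ _ h => by
    have h1 := setN_inj (congrFun (setN_inj h) false)
    exact Prod.ext (Cd.inj (congrFun h1 true)) (Cd.inj (congrFun h1 false))⟩

variable {Ω}

theorem PP.le_def {p q : PP Ω} : p ≤ q ↔ p.s ⊆ q.s := Iff.rfl

theorem exists_pre (S : Set (PP Ω)) : ∃ d : ℕ → PP Ω, (∀ n, d n ∈ S ∨ ∀ q ≤ d n, q ∉ S) ∧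
    J (⋃ n, (d n).s)ᶜ := by
  obtain ⟨D, d1, d2, d3⟩ := (ccc (Ω := Ω)).ccc (PP.s '' {p | p ∈ S ∨ ∀ q ≤ p, q ∉ S})
    fun _ ⟨p, _, e⟩ => e ▸ p.m
  have h1 : J (⋃₀ D)ᶜ := by
    by_contra hc
    let p : PP Ω := ⟨_, (MeasurableSet.sUnion d2 fun _ h => by
      obtain ⟨p, -, rfl⟩ := d1 h
      exact p.m).compl, hc⟩
    obtain ⟨r, r1, r2⟩ : ∃ r ≤ p, r ∈ S ∨ ∀ q ≤ r, q ∉ S := by
      by_cases hp : ∃ q ≤ p, q ∈ S
      · exact hp.imp fun q h => ⟨h.1, Or.inl h.2⟩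
      · exact ⟨p, le_rfl, Or.inr fun q a b => hp ⟨q, a, b⟩⟩
    exact r.p (ccc.mono (d3 _ ⟨r, r2, rfl⟩) fun ω a => ⟨a, r1 a⟩)
  obtain ⟨u, rfl⟩ := d2.exists_eq_range (nonempty_iff_ne_empty.2 fun e =>
    Amb.top (Ω := Ω) (by simpa [e] using h1))
  choose d a1 a2 using fun n => d1 (mem_range_self n)
  exact ⟨d, a1, by simpa [a2] using h1⟩

/-- Closure under witnesses. -/
def CC.Cl (X : CC Ω) (R : List (Nm Ω) → Nm Ω → Prop) : Prop :=
  ∀ l, (∀ x ∈ l, x ∈ X.C.N) → (∃ x, R l x) → ∃ x ∈ X.C.N, R l x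

theorem exists_cc {ι : Type} [Countable ι] (R : ι → List (Nm Ω) → Nm Ω → Prop) :
    ∃ X : CC Ω, ∀ i, X.Cl (R i) := by
  choose d d1 d2 using exists_pre (Ω := Ω)
  let op : (BR ⊕ ι) ⊕ (BD × Option ℕ) ⊕ Bool → List (Nm Ω) → Nm Ω := fun o l =>
    match o with
    | .inl i => if h : ∃ x, Sum.elim BR.ev R i l x then h.choose else empty
    | .inr (.inl (k, some n)) => cN (d (k.ev l) n)
    | .inr (.inl (k, none)) => chk (⋃ n, (d (k.ev l) n).s)ᶜ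
    | .inr (.inr true) => chk ((dC (l.getD 0 empty)).s ∩ (dC (l.getD 1 empty)).s)
    | .inr (.inr false) => if h : J ((dC (l.getD 0 empty)).s ∩ (dC (l.getD 1 empty)).s) then empty
        else cN ⟨_, (dC (l.getD 0 empty)).m.inter (dC (l.getD 1 empty)).m, h⟩
  obtain ⟨N, hc, -, hcl⟩ := exists_closure op (fun _ => True) fun _ _ _ => trivial
  have hw : ∀ i l, (∀ x ∈ l, x ∈ N) → (∃ x, Sum.elim BR.ev R i l x) →
      ∃ x ∈ N, Sum.elim BR.ev R i l x := fun i l hl h => ⟨_, hcl (.inl i) l hl, by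
    simp only [op, dif_pos h]
    exact h.choose_spec⟩
  have : Countable {B : Set Ω // (chk B : Nm Ω) ∈ N ∧ J B} :=
    ((hc.preimage chk_inj).mono fun _ h => h.1).to_subtype
  obtain ⟨ω, -, hω⟩ := ccc.exists_pt (Amb.top (Ω := Ω))
    (ccc.cnt fun B : {B : Set Ω // (chk B : Nm Ω) ∈ N ∧ J B} => B.2.2)
  have h3 : ∀ B : Set Ω, chk B ∈ N → J B → ω ∉ B := fun B a b c => hω (mem_iUnion.2 ⟨⟨B, a, b⟩, c⟩)
  refine ⟨⟨{ N := N, G := {p | ∃ q, cN q ∈ N ∧ ω ∈ q.s ∧ q ≤ p}, cnt := hc, wit := ?_, dec := ?_,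
             top := ?_, up := ?_, dir := ?_, cof := ?_ }, ω, ?_, ?_, h3⟩, fun i => hw (.inr i)⟩
  · rintro (i | i)
    exacts [hw (.inl i), i.elim]
  · rintro (k | k) l hl
    · obtain ⟨n, hn⟩ := mem_iUnion.1 (not_not.1 (h3 _ (hcl (.inr (.inl (k, none))) l hl) (d2 _)))
      exact ⟨_, ⟨_, hcl (.inr (.inl (k, some n))) l hl, hn, le_rfl⟩, d1 _ n⟩
    · exact k.elim
  · obtain ⟨_, a, rfl⟩ := hw (.inl .top) [] (by simp) ⟨_, rfl⟩
    exact ⟨⊤, a, trivial, le_rfl⟩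
  · exact fun p ⟨q, a, b, c⟩ r h => ⟨q, a, b, c.trans h⟩
  · rintro p ⟨p', a1, a2, a3⟩ q ⟨q', b1, b2, b3⟩
    have hl : ∀ x ∈ [cN p', cN q'], x ∈ N := by simp [a1, b1]
    have c1 := hcl (.inr (.inr true)) _ hl
    have c2 := hcl (.inr (.inr false)) _ hl
    simp only [op, List.getD_cons_zero, List.getD_cons_succ, dC_cN] at c1 c2
    have c3 : ¬ J (p'.s ∩ q'.s) := fun e => h3 _ c1 e ⟨a2, b2⟩
    rw [dif_neg c3] at c2
    exact ⟨_, ⟨_, c2, ⟨a2, b2⟩, le_rfl⟩, inter_subset_left.trans a3, inter_subset_right.trans b3⟩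
  · exact fun p ⟨q, a, b, c⟩ => ⟨q, ⟨q, a, b, le_rfl⟩, c, a⟩
  · exact fun p ⟨q, _, b, c⟩ => c b
  · exact fun q a b => ⟨q, a, b, le_rfl⟩

variable (Ω) in
/-- The filter of sufficiently closed models. -/
def club : Filter (CC Ω) := countableGenerate (range fun R => {X | X.Cl R})

instance : CountableInterFilter (club Ω) := by
  unfold club
  infer_instance

instance : (club Ω).NeBot := by
  refine forall_mem_nonempty_iff_neBot.1 fun s hs => ?_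
  obtain ⟨S, h1, h2, h3⟩ := mem_countableGenerate_iff.1 hs
  obtain ⟨u, hu⟩ := (h2.insert {X | X.Cl fun _ _ => False}).exists_eq_range (insert_nonempty _ _)
  have h4 : ∀ n, ∃ R, {X : CC Ω | X.Cl R} = u n := fun n => by
    rcases (hu ▸ mem_range_self n : u n ∈ insert _ S) with e | e
    exacts [⟨_, e.symm⟩, h1 e]
  choose R hR using h4
  obtain ⟨X, hX⟩ := exists_cc R
  refine ⟨X, h3 fun t ht => ?_⟩
  obtain ⟨n, rfl⟩ : t ∈ range u := hu ▸ mem_insert_of_mem _ ht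
  rw [← hR]
  exact hX n

/-- The object `t` is known to the model. -/
def CC.K (X : CC Ω) {T : Type u} [Cd Ω T] (t : T) : Prop := Cd.c t ∈ X.C.N

variable {T : Type u} {S : Type v} {U : Type w} [Cd Ω T] [Cd Ω S] [Cd Ω U]

theorem CC.K.pair {X : CC Ω} {t : T} {s : S} (h : X.K t) (h' : X.K s) : X.K (t, s) :=
  X.C.pair_memN h h'

theorem CC.K.fst {X : CC Ω} {t : T × S} (h : X.K t) : X.K t.1 := X.C.pairN_left h

theorem CC.K.snd {X : CC Ω} {t : T × S} (h : X.K t) : X.K t.2 := X.C.pairN_right h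

theorem wit (R : T → S → Prop) :
    ∀ᶠ X in club Ω, ∀ t, X.K t → (∃ s, R t s) → ∃ s, X.K s ∧ R t s := by
  have h : {X : CC Ω | X.Cl fun l x => ∃ t s, l = [Cd.c t] ∧ x = Cd.c s ∧ R t s} ∈ club Ω :=
    CountableGenerateSets.basic ⟨_, rfl⟩
  filter_upwards [h] with X h t ht ⟨s, hs⟩
  obtain ⟨_, a, t', s', b, rfl, c⟩ := h _ (X.C.one ht) ⟨_, t, s, rfl, rfl, hs⟩
  obtain rfl : t = t' := Cd.inj (List.head_eq_of_cons_eq b)
  exact ⟨s', a, c⟩

theorem fn (f : T → S) : ∀ᶠ X in club Ω, ∀ t, X.K t → X.K (f t) := by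
  filter_upwards [wit (Ω := Ω) fun t s => s = f t] with X h t ht
  obtain ⟨_, a, rfl⟩ := h t ht ⟨_, rfl⟩
  exact a

theorem cst (s : S) : ∀ᶠ X in club Ω, X.K s := by
  filter_upwards [fn (Ω := Ω) fun _ : Nm Ω => s] with X h using h _ X.C.emp

theorem fnn {ι : Type} [Countable ι] (f : ι → T → S) :
    ∀ᶠ X in club Ω, ∀ i t, X.K t → X.K (f i t) := eventually_countable_forall.2 fun i => fn (f i)

theorem nul (A : T → Set Ω) : ∀ᶠ X in club Ω, ∀ t, X.K t → J (A t) → X.ω ∉ A t := by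
  filter_upwards [fn (Ω := Ω) A] with X h t ht using X.h3 _ (h t ht)

theorem pos (A : T → Set Ω) : ∀ᶠ X in club Ω, ∀ t, X.K t → MeasurableSet (A t) → X.ω ∈ A t →
    ∃ p ∈ X.C.G, X.K p ∧ p.s = A t := by
  filter_upwards [nul A, wit fun t (p : PP Ω) => p.s = A t] with X h1 h2 t ht hm h
  obtain ⟨p, a, b⟩ := h2 t ht ⟨⟨_, hm, fun e => h1 t ht e h⟩, rfl⟩
  exact ⟨p, X.h2 p a (b ▸ h), a, b⟩

theorem dich (Φ : T → S → PP Ω → Prop) : ∀ᶠ X in club Ω, ∀ t, X.K t →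
    (∃ p ∈ X.C.G, ∃ s, X.K s ∧ Φ t s p) ∨ ∃ p ∈ X.C.G, ∀ q ≤ p, ∀ s, ¬ Φ t s q := by
  choose d d1 d2 using fun t => exists_pre {p : PP Ω | ∃ s, Φ t s p}
  filter_upwards [nul fun t => (⋃ n, (d t n).s)ᶜ, fnn fun n t => d t n,
    wit fun (t : T × PP Ω) s => Φ t.1 s t.2] with X h1 h2 h3 t ht
  obtain ⟨n, hn⟩ := mem_iUnion.1 (not_not.1 (h1 t ht (d2 t)))
  have h4 := X.h2 _ (h2 n t ht) hn
  exact (d1 t n).imp (fun a => ⟨_, h4, h3 (t, d t n) (ht.pair (h2 n t ht)) a⟩)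
    fun a => ⟨_, h4, fun q b s c => a q b ⟨s, c⟩⟩

/-- A null part of a condition in the filter does not contain the generic point. -/
theorem nulG (A : T → Set Ω) :
    ∀ᶠ X in club Ω, ∀ t, X.K t → ∀ p ∈ X.C.G, J (p.s ∩ A t) → X.ω ∉ A t := by
  filter_upwards [nul fun t : T × PP Ω => t.2.s ∩ A t.1] with X h t ht p hp e a
  obtain ⟨q, q1, q2, q3⟩ := X.C.cof p hp
  exact h (t, q) (ht.pair q3) (ccc.mono e (inter_subset_inter_left _ q2)) ⟨X.h1 q q1, a⟩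

/-- Countably many witnesses suffice. -/
theorem seq [Nonempty S] (Φ : T → S → PP Ω → Prop) :
    ∃ (s : T → ℕ → S) (q : T → ℕ → Set Ω), (∀ t k, MeasurableSet (q t k)) ∧
      (∀ t k, (q t k).Nonempty → ∃ p, Φ t (s t k) p) ∧ ∀ᶠ X in club Ω, ∀ t, X.K t →
        (∀ k, X.ω ∈ q t k → X.K (s t k) ∧ ∃ p ∈ X.C.G, Φ t (s t k) p) ∧
        ∀ p ∈ X.C.G, ∀ s', Φ t s' p → ∃ k, X.ω ∈ q t k := by
  have h : ∀ t, ∃ (s : ℕ → S) (q : ℕ → Set Ω), (∀ k, q k = ∅ ∨ ∃ p, p.s = q k ∧ Φ t (s k) p) ∧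
      ∀ p s', Φ t s' p → J (p.s ∩ (⋃ k, q k)ᶜ) := by
    intro t
    obtain ⟨D, d1, d2, d3⟩ := (ccc (Ω := Ω)).ccc (PP.s '' {p | ∃ s, Φ t s p})
      fun _ ⟨p, _, e⟩ => e ▸ p.m
    obtain ⟨u, hu⟩ := (d2.insert ∅).exists_eq_range (insert_nonempty _ _)
    have h1 : ∀ k, ∃ s, u k = ∅ ∨ ∃ p, p.s = u k ∧ Φ t s p := fun k => by
      rcases (hu ▸ mem_range_self k : u k ∈ insert _ D) with e | e
      · exact ⟨Classical.arbitrary S, Or.inl e⟩
      · obtain ⟨p, ⟨s, a⟩, b⟩ := d1 e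
        exact ⟨s, Or.inr ⟨p, b, a⟩⟩
    choose s hs using h1
    refine ⟨s, u, hs, fun p s' a => ccc.mono (d3 _ ⟨p, ⟨s', a⟩, rfl⟩) fun ω b =>
      ⟨b.1, fun ⟨B, b1, b2⟩ => b.2 ?_⟩⟩
    obtain ⟨n, rfl⟩ : B ∈ range u := hu ▸ mem_insert_of_mem _ b1
    exact mem_iUnion.2 ⟨n, b2⟩
  choose s q h1 h2 using h
  refine ⟨s, q, fun t k => (h1 t k).elim (fun e => e ▸ MeasurableSet.empty)
    fun ⟨p, a, _⟩ => a ▸ p.m, fun t k a => ((h1 t k).resolve_left a.ne_empty).imp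
      fun _ h => h.2, ?_⟩
  filter_upwards [fnn fun k t => s t k, nulG fun t => (⋃ k, q t k)ᶜ, eventually_countable_forall.2
    fun k => wit fun t (p : PP Ω) => p.s = q t k ∧ Φ t (s t k) p] with X a1 a2 a3 t ht
  refine ⟨fun k b => ⟨a1 k t ht, ?_⟩, fun p hp s' b =>
    mem_iUnion.1 (not_not.1 (a2 t ht p hp (h2 t p s' b)))⟩
  obtain ⟨p, b1, b2, b3⟩ := a3 k t ht ((h1 t k).resolve_left (nonempty_of_mem b).ne_empty)
  exact ⟨p, X.h2 p b1 (b2 ▸ b), b3⟩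

section

variable {Y : Type} [MeasurableSpace Y]

variable (Y) in
/-- The points of `Y` known to the model. -/
def CC.Pt (X : CC Ω) : Set Y := {y | ∃ f : Ω → Y, X.K f ∧ Measurable f ∧ f X.ω = y}

/-- Analytic statements are absolute, locally uniformly. -/
theorem abs [StandardBorelSpace Y] [Nonempty Y] (R : T → Set (Ω × Y)) :
    ∀ᶠ X in club Ω, ∀ t, X.K t → MeasurableSet (R t) → (∀ y ∈ X.Pt Y, (X.ω, y) ∉ R t) →
      ∃ p ∈ X.C.G, ∀ ω ∈ p.s, ∀ y, (ω, y) ∉ R t := by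
  filter_upwards [wit fun t (z : (Ω → Y) × Set Ω) => Measurable z.1 ∧ MeasurableSet z.2 ∧ J z.2 ∧
    ∀ ω y, (ω, y) ∈ R t → ω ∉ z.2 → (ω, z.1 ω) ∈ R t, nul fun B : Set Ω => B,
    pos fun z : T × (Ω → Y) × Set Ω => {ω | (ω, z.2.1 ω) ∈ R z.1}ᶜ ∩ z.2.2ᶜ]
    with X h1 h2 h3 t ht hm h
  obtain ⟨z, z1, z2, z3, z4, z5⟩ := h1 t ht (by
    obtain ⟨g, g1, g2⟩ := ccc.unif hm
    obtain ⟨B, b1, b2, b3⟩ := ccc.cover g2
    exact ⟨(g, B), g1, b1, b3, fun ω y a b => not_not.1 fun e => b (b2 ⟨⟨y, a⟩, e⟩)⟩)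
  obtain ⟨p, p1, -, p2⟩ := h3 (t, z) (ht.pair z1)
    (((measurable_id.prodMk z2) hm).compl.inter z3.compl)
    ⟨h _ ⟨z.1, z1.fst, z2, rfl⟩, h2 _ z1.snd z4⟩
  exact ⟨p, p1, fun ω a y b => (p2 ▸ a).1 (z5 ω y b (p2 ▸ a).2)⟩

theorem pt_prod {Y' : Type} [MeasurableSpace Y'] : ∀ᶠ X in club Ω, ∀ z : Y × Y',
    z ∈ X.Pt (Y × Y') ↔ z.1 ∈ X.Pt Y ∧ z.2 ∈ X.Pt Y' := by
  filter_upwards [fn fun (f : Ω → Y × Y') ω => (f ω).1, fn fun (f : Ω → Y × Y') ω => (f ω).2,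
    fn fun (f : (Ω → Y) × (Ω → Y')) ω => (f.1 ω, f.2 ω)] with X h1 h2 h3 z
  constructor
  · rintro ⟨f, a, b, rfl⟩
    exact ⟨⟨_, h1 f a, b.fst, rfl⟩, _, h2 f a, b.snd, rfl⟩
  · rintro ⟨⟨f, a, b, c⟩, g, a', b', c'⟩
    exact ⟨_, h3 (f, g) (a.pair a'), b.prodMk b', Prod.ext c c'⟩

theorem pt_app {Y' : Type} [MeasurableSpace Y'] : ∀ᶠ X in club Ω, ∀ h : Ω × Y → Y', X.K h →
    Measurable h → ∀ y ∈ X.Pt Y, h (X.ω, y) ∈ X.Pt Y' := by
  filter_upwards [fn fun (z : (Ω × Y → Y') × (Ω → Y)) ω => z.1 (ω, z.2 ω)] with X h1 h a b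
  rintro _ ⟨f, a', b', rfl⟩
  exact ⟨_, h1 (h, f) (a.pair a'), b.comp (measurable_id.prodMk b'), rfl⟩

end

end Pool.Agent.Lib.MP_00fb6a_lc.Pos
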