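import Mathlib

/-!
Sigma-ideals with the countable chain condition: measurable hulls and measurable uniformisation.
The meagre ideal of a system of basic sets indexed by a preorder.
-/

set_option autoImplicit false

namespace Pool.Agent.Lib.MP_00fb6a_lc.Pos

open Set MeasureTheory Classical

/-- A sigma-ideal generated by measurable sets, with the countable chain condition. -/
structure Ccc {Ω : Type} (m : MeasurableSpace Ω) (J : Set Ω → Prop) : Prop where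
  mono : ∀ {A B : Set Ω}, J B → A ⊆ B → J A
  empty : J ∅
  iUnion : ∀ {A : ℕ → Set Ω}, (∀ n, J (A n)) → J (⋃ n, A n)
  cover : ∀ {A : Set Ω}, J A → ∃ B, MeasurableSet[m] B ∧ A ⊆ B ∧ J B
  ccc : ∀ D : Set (Set Ω), (∀ B ∈ D, MeasurableSet[m] B) →
    ∃ D' ⊆ D, D'.Countable ∧ ∀ B ∈ D, J (B \ ⋃₀ D')

instance polishC : PolishSpace (ℕ → Bool) :=
  have : TopologicalSpace.IsCompletelyMetrizableSpace (ℕ → Bool) := inferInstance
  inferInstance

theorem exists_std {Ω Y : Type} [m : MeasurableSpace Ω] [mY : MeasurableSpace Y] {R : Set (Ω × Y)}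
    (hR : MeasurableSet R) : ∃ (f : Ω → ℕ → Bool) (R' : Set ((ℕ → Bool) × Y)),
      Measurable f ∧ MeasurableSet R' ∧ R = Prod.map f id ⁻¹' R' := by
  let M : MeasurableSpace (Ω × Y) :=
    { MeasurableSet' := fun R => ∃ (f : Ω → ℕ → Bool) (R' : Set ((ℕ → Bool) × Y)),
        Measurable f ∧ MeasurableSet R' ∧ R = Prod.map f id ⁻¹' R'
      measurableSet_empty := ⟨fun _ _ => false, ∅, measurable_const, MeasurableSet.empty, rfl⟩
      measurableSet_compl := by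
        rintro _ ⟨f, R', h1, h2, rfl⟩
        exact ⟨f, R'ᶜ, h1, h2.compl, rfl⟩
      measurableSet_iUnion := by
        intro R hR
        choose f R' h1 h2 h3 using hR
        refine ⟨fun ω k => f k.unpair.1 ω k.unpair.2,
          ⋃ n, Prod.map (fun ξ i => ξ (Nat.pair n i)) id ⁻¹' R' n,
          measurable_pi_lambda _ fun k => (measurable_pi_apply _).comp (h1 _),
          MeasurableSet.iUnion fun n => Measurable.prodMap
            (measurable_pi_lambda _ fun i => measurable_pi_apply _) measurable_id (h2 n), ?_⟩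
        ext z
        simp only [mem_iUnion, mem_preimage, h3]
        refine exists_congr fun n => ?_
        simp [Prod.map] }
  have h : (Prod.instMeasurableSpace : MeasurableSpace (Ω × Y)) ≤ M := by
    refine sup_le ?_ ?_
    · rintro _ ⟨A, hA, rfl⟩
      refine ⟨fun ω _ => decide (ω ∈ A), {z | z.1 0 = true},
        measurable_pi_lambda _ fun _ => measurable_to_bool ?_, ?_, ?_⟩
      · convert hA using 1
        ext ω
        simp
      · have h : Measurable fun z : (ℕ → Bool) × Y => z.1 0 := by fun_prop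
        exact h (measurableSet_singleton true)
      · ext z
        simp
    · rintro _ ⟨B, hB, rfl⟩
      exact ⟨fun _ _ => false, Prod.snd ⁻¹' B, measurable_const, measurable_snd hB, rfl⟩
  exact h R hR

theorem measurable_sInf_nat {Ω : Type} [MeasurableSpace Ω] {p : ℕ → Set Ω}
    (hp : ∀ k, MeasurableSet (p k)) : Measurable fun ω => sInf {k | ω ∈ p k} := by
  refine measurable_to_countable' fun k => ?_
  have e : (fun ω => sInf {k | ω ∈ p k}) ⁻¹' {k} =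
      (p k ∩ ⋂ j, ⋂ _ : j < k, (p j)ᶜ) ∪ ({_ω | k = 0} ∩ ⋂ j, (p j)ᶜ) := by
    ext ω
    simp only [mem_preimage, mem_singleton_iff, mem_union, mem_inter_iff, mem_iInter,
      mem_compl_iff, mem_ofPred]
    by_cases h : {k | ω ∈ p k}.Nonempty
    · constructor
      · rintro rfl
        exact Or.inl ⟨Nat.sInf_mem h, fun j hj => Nat.notMem_of_lt_sInf hj⟩
      · rintro (⟨h1, h2⟩ | ⟨-, h2⟩)
        · exact le_antisymm (Nat.sInf_le h1) (not_lt.1 fun h3 => h2 _ h3 (Nat.sInf_mem h))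
        · exact (h2 _ h.some_mem).elim
    · rw [not_nonempty_iff_eq_empty] at h
      have h1 : ∀ j, ω ∉ p j := fun j hj => by
        have : j ∈ {k | ω ∈ p k} := hj
        simp [h] at this
      rw [h, Nat.sInf_empty]
      exact ⟨fun e => Or.inr ⟨e.symm, h1⟩, fun e => e.elim (fun e => (h1 _ e.1).elim)
        fun e => e.1.symm⟩
  rw [e]
  exact ((hp k).inter (MeasurableSet.iInter fun j => MeasurableSet.iInter fun _ =>
    (hp j).compl)).union ((MeasurableSet.const _).inter (MeasurableSet.iInter fun j => (hp j).compl))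

namespace Ccc

variable {Ω : Type} {m : MeasurableSpace Ω} {J : Set Ω → Prop} (hJ : Ccc m J)

include hJ

theorem cnt {ι : Sort*} [Countable ι] {A : ι → Set Ω} (h : ∀ i, J (A i)) : J (⋃ i, A i) := by
  rcases isEmpty_or_nonempty ι with _ | _
  · simpa using hJ.empty
  · obtain ⟨e, he⟩ := exists_surjective_nat ι
    rw [← he.iUnion_comp]
    exact hJ.iUnion fun n => h _

theorem union {A B : Set Ω} (hA : J A) (hB : J B) : J (A ∪ B) := by
  rw [union_eq_iUnion]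
  exact hJ.cnt fun b => by cases b; exacts [hB, hA]

theorem of_cover {ι : Sort*} [Countable ι] {A : Set Ω} {B : ι → Set Ω} (h : ∀ i, J (B i))
    (hA : ∀ ω ∈ A, ∃ i, ω ∈ B i) : J A :=
  hJ.mono (hJ.cnt h) fun ω hω => mem_iUnion.2 (hA ω hω)

theorem of_two {A B B' : Set Ω} (h : J B) (h' : J B') (hA : ∀ ω ∈ A, ω ∉ B → ω ∈ B') : J A :=
  hJ.mono (hJ.union h h') fun ω hω => (Classical.em (ω ∈ B)).imp id (hA ω hω)

/-- A positive set has a point outside a null set. -/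
theorem exists_pt {A N : Set Ω} (hA : ¬ J A) (hN : J N) : ∃ ω ∈ A, ω ∉ N := by
  by_contra h
  push Not at h
  exact hA (hJ.mono hN h)

theorem exists_pos {ι : Sort*} [Countable ι] {A : Set Ω} {B : ι → Set Ω} (hA : ¬ J A)
    (h : ∀ ω ∈ A, ∃ i, ω ∈ B i) : ∃ i, ¬ J (A ∩ B i) := by
  by_contra hc
  push Not at hc
  exact hA (hJ.of_cover hc fun ω hω => (h ω hω).imp fun _ h' => ⟨hω, h'⟩)

theorem hull (A : Set Ω) : ∃ H, MeasurableSet[m] H ∧ A ⊆ H ∧
    ∀ B, MeasurableSet[m] B → A ⊆ B → J (H \ B) := by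
  obtain ⟨D, d1, d2, d3⟩ := hJ.ccc {B | MeasurableSet[m] B ∧ Disjoint B A} fun B h => h.1
  refine ⟨(⋃₀ D)ᶜ, (MeasurableSet.sUnion d2 fun B h => (d1 h).1).compl, ?_, fun B hB hA => ?_⟩
  · rintro ω hω ⟨B, h1, h2⟩
    exact disjoint_left.1 (d1 h1).2 h2 hω
  · refine hJ.mono (d3 Bᶜ ⟨hB.compl, disjoint_left.2 fun ω h1 h2 => h1 (hA h2)⟩) ?_
    exact fun ω hω => ⟨hω.2, hω.1⟩

/-- Measurable uniformisation up to a null set. -/
theorem unif {Y : Type} [MeasurableSpace Y] [StandardBorelSpace Y] [Nonempty Y] {R : Set (Ω × Y)}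
    (hR : MeasurableSet[m.prod inferInstance] R) :
    ∃ h : Ω → Y, Measurable[m] h ∧ J {ω | (∃ y, (ω, y) ∈ R) ∧ (ω, h ω) ∉ R} := by
  obtain ⟨f, R', hf, hR', rfl⟩ := exists_std hR
  obtain ⟨τ, hb, hp⟩ := StandardBorelSpace.polish (α := Y)
  have hA : AnalyticSet R' := hR'.analyticSet
  rw [AnalyticSet] at hA
  rcases hA with rfl | ⟨c, hc, rfl⟩
  · exact ⟨fun _ => Classical.arbitrary Y, measurable_const, by simpa using hJ.empty⟩
  let A : List ℕ → Set Ω := fun s => {ω | ∃ x, PiNat.res x s.length = s ∧ (c x).1 = f ω}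
  let T : List ℕ → Set Ω := fun s =>
    ⋂ i, ⋂ b, {ω | (∀ x, PiNat.res x s.length = s → (c x).1 i = b) → f ω i = b}
  have hT : ∀ s, MeasurableSet (T s) := fun s =>
    MeasurableSet.iInter fun i => MeasurableSet.iInter fun b => by
      by_cases h : ∀ x, PiNat.res x s.length = s → (c x).1 i = b
      · simp only [eq_true h, forall_const]
        exact ((measurable_pi_apply i).comp hf) (measurableSet_singleton b)
      · simp only [eq_false h, false_imp_iff]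
        exact MeasurableSet.univ
  choose H0 a1 a2 a3 using fun s => hJ.hull (A s)
  let H : List ℕ → Set Ω := fun s => H0 s ∩ T s
  have b1 : ∀ s, MeasurableSet (H s) := fun s => (a1 s).inter (hT s)
  have b2 : ∀ s, A s ⊆ H s := by
    rintro s ω ⟨x, h1, h2⟩
    refine ⟨a2 s ⟨x, h1, h2⟩, mem_iInter₂.2 fun i b h => ?_⟩
    rw [← h2, h x h1]
  have b3 : ∀ s, J (H s \ ⋃ k, H (k :: s)) := by
    intro s
    refine hJ.mono (a3 s _ (MeasurableSet.iUnion fun k => b1 (k :: s)) ?_)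
      fun ω hω => ⟨hω.1.1, hω.2⟩
    rintro ω ⟨x, h1, h2⟩
    exact mem_iUnion.2 ⟨x s.length, b2 _ ⟨x, by simp [h1], h2⟩⟩
  let : MeasurableSpace (List ℕ) := ⊤
  let K : List ℕ → Ω → ℕ := fun s ω => sInf {k | ω ∈ H (k :: s)}
  let st : ℕ → Ω → List ℕ := fun n => Nat.rec (fun _ => []) (fun _ g ω => K (g ω) ω :: g ω) n
  have hs : ∀ n ω, st (n + 1) ω = K (st n ω) ω :: st n ω := fun _ _ => rfl
  have hK : Measurable fun z : List ℕ × Ω => K z.1 z.2 :=
    measurable_from_prod_countable_right fun s => measurable_sInf_nat fun k => b1 (k :: s)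
  have hst : ∀ n, Measurable (st n) := by
    intro n
    induction n with
    | zero => exact measurable_const
    | succ n ih =>
      have h1 : Measurable fun z : ℕ × List ℕ => z.1 :: z.2 := measurable_of_countable _
      exact h1.comp ((hK.comp (ih.prodMk measurable_id)).prodMk ih)
  let x : Ω → ℕ → ℕ := fun ω n => K (st n ω) ω
  have hx : Measurable x := measurable_pi_lambda _ fun n => hK.comp ((hst n).prodMk measurable_id)
  have hres : ∀ ω n, PiNat.res (x ω) n = st n ω := by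
    intro ω n
    induction n with
    | zero => rfl
    | succ n ih => rw [PiNat.res_succ, ih, hs]
  refine ⟨fun ω => (c (x ω)).2, (hc.snd.measurable).comp hx, hJ.of_cover b3 ?_⟩
  rintro ω ⟨⟨y, z, hz⟩, h2⟩
  by_contra hN
  push Not at hN
  have h3 : ∀ n, ω ∈ H (st n ω) := by
    intro n
    induction n with
    | zero => exact b2 _ ⟨z, rfl, by rw [hz]; rfl⟩
    | succ n ih =>
      have h4 : ω ∈ ⋃ k, H (k :: st n ω) := by
        by_contra h5
        exact hN _ ⟨ih, h5⟩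
      exact Nat.sInf_mem (s := {k | ω ∈ H (k :: st n ω)}) (mem_iUnion.1 h4)
  refine h2 ⟨x ω, Prod.ext (funext fun i => ?_) rfl⟩
  have h4 : {y | (c y).1 i = (c (x ω)).1 i} ∈ nhds (x ω) :=
    ((continuous_apply i).comp hc.fst).continuousAt.preimage_mem_nhds
      ((isOpen_discrete {(c (x ω)).1 i}).mem_nhds rfl)
  obtain ⟨_, ⟨w, n, rfl⟩, h5, h6⟩ := (PiNat.isTopologicalBasis_cylinders _).mem_nhds_iff.1 h4
  have h7 := mem_iInter₂.1 (h3 n).2 i ((c (x ω)).1 i) fun y hy => by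
    refine h6 ?_
    rw [← hres, PiNat.res_length] at hy
    rw [← PiNat.mem_cylinder_iff_eq.1 h5, PiNat.cylinder_eq_res]
    exact hy
  exact h7.symm

/-- A positive projection contains a positive measurable set with a measurable section. -/
theorem unif_pos {Y : Type} [MeasurableSpace Y] [StandardBorelSpace Y] [Nonempty Y]
    {R : Set (Ω × Y)} (hR : MeasurableSet[m.prod inferInstance] R)
    (hp : ¬ J {ω | ∃ y, (ω, y) ∈ R}) :
    ∃ h : Ω → Y, Measurable[m] h ∧ MeasurableSet[m] {ω | (ω, h ω) ∈ R} ∧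
      ¬ J {ω | (ω, h ω) ∈ R} := by
  obtain ⟨h, h1, h2⟩ := hJ.unif hR
  exact ⟨h, h1, (measurable_id.prodMk h1) hR, fun h3 => hp (hJ.of_two h3 h2 fun ω a b => ⟨a, b⟩)⟩

end Ccc

section sys

variable {P Ω : Type} [Preorder P]

/-- `D` is dense in `V`. -/
def Dns (V D : Set P) : Prop := D ⊆ V ∧ ∀ p ∈ V, ∃ q ∈ D, q ≤ p

/-- The meagre ideal of a system of basic sets. -/
def Null (V : Set P) (S : P → Set Ω) (A : Set Ω) : Prop :=
  ∃ D : ℕ → Set P, (∀ k, Dns V (D k)) ∧ ∀ ω ∈ A, ∃ k, ∀ q ∈ D k, ω ∉ S q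

variable {V : Set P} {S : P → Set Ω}

theorem Null.mono {A B : Set Ω} (h : Null V S B) (hA : A ⊆ B) : Null V S A :=
  h.imp fun _ h => ⟨h.1, fun ω hω => h.2 ω (hA hω)⟩

theorem Dns.null {D : Set P} (h : Dns V D) {A : Set Ω} (hA : ∀ q ∈ D, ∀ ω ∈ S q, ω ∉ A) :
    Null V S A := ⟨fun _ => D, fun _ => h, fun ω hω => ⟨0, fun q hq h' => hA q hq ω h' hω⟩⟩

theorem null_empty : Null V S ∅ :=
  Dns.null (D := V) ⟨subset_rfl, fun p hp => ⟨p, hp, le_rfl⟩⟩ fun _ _ _ _ h => h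

theorem null_of_dense {A : Set Ω} (h : ∀ p ∈ V, ∃ q ∈ V, q ≤ p ∧ ∀ ω ∈ S q, ω ∉ A) :
    Null V S A :=
  Dns.null (D := {q | q ∈ V ∧ ∀ ω ∈ S q, ω ∉ A}) ⟨fun _ h => h.1, fun p hp => by
    obtain ⟨q, h1, h2, h3⟩ := h p hp
    exact ⟨q, ⟨h1, h3⟩, h2⟩⟩ fun _ hq => hq.2

theorem Null.iUnion {A : ℕ → Set Ω} (h : ∀ n, Null V S (A n)) : Null V S (⋃ n, A n) := by
  choose D h1 h2 using h
  refine ⟨fun k => D k.unpair.1 k.unpair.2, fun k => h1 _ _, fun ω hω => ?_⟩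
  obtain ⟨n, hn⟩ := mem_iUnion.1 hω
  obtain ⟨k, hk⟩ := h2 n ω hn
  exact ⟨Nat.pair n k, by simpa using hk⟩

theorem Null.cnt {ι : Sort*} [Countable ι] {A : ι → Set Ω} (h : ∀ i, Null V S (A i)) :
    Null V S (⋃ i, A i) := by
  rcases isEmpty_or_nonempty ι with _ | _
  · simpa using null_empty
  · obtain ⟨e, he⟩ := exists_surjective_nat ι
    rw [← he.iUnion_comp]
    exact Null.iUnion fun n => h _

theorem Null.of_cover {ι : Sort*} [Countable ι] {A : Set Ω} {B : ι → Set Ω}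
    (h : ∀ i, Null V S (B i)) (hA : ∀ ω ∈ A, ∃ i, ω ∈ B i) : Null V S A :=
  (Null.cnt h).mono fun ω hω => mem_iUnion.2 (hA ω hω)

theorem Null.of_two {A B B' : Set Ω} (h : Null V S B) (h' : Null V S B')
    (hA : ∀ ω ∈ A, ω ∉ B → ω ∈ B') : Null V S A :=
  Null.of_cover (B := fun b : Bool => cond b B B') (fun b => by cases b; exacts [h', h])
    fun ω hω => (Classical.em (ω ∈ B)).elim (fun h => ⟨true, h⟩) fun h => ⟨false, hA ω hω h⟩

/-- The properties of a system of basic sets that make its meagre ideal well behaved. -/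
structure Sys (m : MeasurableSpace Ω) (V : Set P) (S : P → Set Ω) : Prop where
  top : ∃ t ∈ V, S t = univ ∧ ∀ p ∈ V, p ≤ t
  mono : ∀ p q, q ≤ p → S q ⊆ S p
  meas : ∀ p ∈ V, MeasurableSet[m] (S p)
  baire : ∀ p ∈ V, ¬ Null V S (S p)
  sep : ∀ p ∈ V, ∀ q ∈ V, (∃ r ∈ V, r ≤ p ∧ r ≤ q) ∨ ∃ r ∈ V, r ≤ p ∧ Disjoint (S r) (S q)
  ccc : ∀ D ⊆ V, ∃ D' ⊆ D, D'.Countable ∧ ∀ p ∈ D, ∃ d ∈ D', ∃ r ∈ V, r ≤ p ∧ r ≤ d
  gen : ∃ G : Set (Set Ω), m ≤ MeasurableSpace.generateFrom G ∧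
    ∀ B ∈ G, ∀ p ∈ V, ∃ q ∈ V, q ≤ p ∧ (S q ⊆ B ∨ Disjoint (S q) B)

namespace Sys

variable {m : MeasurableSpace Ω} (h : Sys m V S)

include h

theorem loc {p : P} (hp : p ∈ V) {A : Set Ω}
    (hA : ∀ q ∈ V, q ≤ p → ∃ r ∈ V, r ≤ q ∧ Null V S (S r ∩ A)) : Null V S (S p ∩ A) := by
  obtain ⟨D, d1, d2, d3⟩ := h.ccc {r | r ∈ V ∧ Null V S (S r ∩ A)} fun _ h => h.1
  have := d2.to_subtype
  have h1 : Null V S (S p \ ⋃ d : D, S d) := by
    refine null_of_dense fun r hr => ?_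
    rcases h.sep r hr p hp with ⟨u, u1, u2, u3⟩ | ⟨u, u1, u2, u3⟩
    · obtain ⟨v, v1, v2, v3⟩ := hA u u1 u3
      obtain ⟨d, e1, w, w1, w2, w3⟩ := d3 v ⟨v1, v3⟩
      exact ⟨w, w1, w2.trans (v2.trans u2), fun ω hω h' =>
        h'.2 (mem_iUnion.2 ⟨⟨d, e1⟩, h.mono _ _ w3 hω⟩)⟩
    · exact ⟨u, u1, u2, fun ω hω h' => disjoint_left.1 u3 hω h'.1⟩
  refine h1.of_two (Null.cnt fun d : D => (d1 d.2).2) fun ω hω h' => ?_
  obtain ⟨d, hd⟩ := mem_iUnion.1 (not_not.1 fun h'' => h' ⟨hω.1, h''⟩)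
  exact mem_iUnion.2 ⟨d, hd, hω.2⟩

theorem dec {B : Set Ω} (hB : MeasurableSet[m] B) :
    ∀ p ∈ V, ∃ q ∈ V, q ≤ p ∧ (Null V S (S q \ B) ∨ Null V S (S q ∩ B)) := by
  obtain ⟨G, hG, hg⟩ := h.gen
  refine MeasurableSpace.generateFrom_induction G (fun B _ => ∀ p ∈ V, ∃ q ∈ V, q ≤ p ∧
    (Null V S (S q \ B) ∨ Null V S (S q ∩ B))) ?_ ?_ ?_ ?_ B (hG B hB)
  · intro B hB _ p hp
    obtain ⟨q, h1, h2, h3⟩ := hg B hB p hp
    refine ⟨q, h1, h2, h3.imp (fun h3 => ?_) fun h3 => ?_⟩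
    · rw [sdiff_eq_empty.2 h3]
      exact null_empty
    · rw [h3.inter_eq]
      exact null_empty
  · exact fun p hp => ⟨p, hp, le_rfl, Or.inr (by simpa using null_empty)⟩
  · intro B _ ih p hp
    obtain ⟨q, h1, h2, h3⟩ := ih p hp
    exact ⟨q, h1, h2, h3.symm.imp (fun h => by rwa [sdiff_compl]) fun h => h⟩
  · intro B _ ih p hp
    by_cases hc : ∃ n, ∃ q ∈ V, q ≤ p ∧ Null V S (S q \ B n)
    · obtain ⟨n, q, h1, h2, h3⟩ := hc
      exact ⟨q, h1, h2, Or.inl (h3.mono (sdiff_subset_sdiff_right (subset_iUnion B n)))⟩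
    · push Not at hc
      refine ⟨p, hp, le_rfl, Or.inr ?_⟩
      rw [inter_iUnion]
      refine Null.iUnion fun n => h.loc hp fun q hq hqp => ?_
      obtain ⟨r, r1, r2, r3⟩ := ih n q hq
      exact ⟨r, r1, r2, r3.resolve_left (hc n r r1 (r2.trans hqp))⟩

theorem pos {B : Set Ω} (hB : MeasurableSet[m] B) {p : P} (hp : p ∈ V)
    (hn : ¬ Null V S (S p ∩ B)) : ∃ q ∈ V, q ≤ p ∧ Null V S (S q \ B) := by
  by_contra hc
  push Not at hc
  refine hn (h.loc hp fun q hq hqp => ?_)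
  obtain ⟨r, r1, r2, r3⟩ := h.dec hB q hq
  exact ⟨r, r1, r2, r3.resolve_left (hc r r1 (r2.trans hqp))⟩

theorem pos' {B : Set Ω} (hB : MeasurableSet[m] B) (hn : ¬ Null V S B) :
    ∃ q ∈ V, Null V S (S q \ B) := by
  obtain ⟨t, t1, t2, -⟩ := h.top
  obtain ⟨q, h1, -, h3⟩ := h.pos hB t1 (by rwa [t2, univ_inter])
  exact ⟨q, h1, h3⟩

theorem compat {p q : P} (hp : p ∈ V) (hq : q ∈ V) (hn : ¬ Null V S (S p ∩ S q)) :
    ∃ r ∈ V, r ≤ p ∧ r ≤ q := by
  by_contra hc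
  refine hn (h.loc hp fun u u1 u2 => ?_)
  rcases h.sep u u1 q hq with ⟨r, r1, r2, r3⟩ | ⟨r, r1, r2, r3⟩
  · exact (hc ⟨r, r1, r2.trans u2, r3⟩).elim
  · exact ⟨r, r1, r2, by rw [r3.inter_eq]; exact null_empty⟩

theorem predense {D : Set P} (hD : Dns V D) :
    ∃ D' ⊆ V, D' ⊆ D ∧ D'.Countable ∧ ∀ p ∈ V, ∃ d ∈ D', ∃ r ∈ V, r ≤ p ∧ r ≤ d := by
  obtain ⟨D', d1, d2, d3⟩ := h.ccc D hD.1
  refine ⟨D', d1.trans hD.1, d1, d2, fun p hp => ?_⟩
  obtain ⟨q, q1, q2⟩ := hD.2 p hp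
  obtain ⟨d, e1, r, r1, r2, r3⟩ := d3 q q1
  exact ⟨d, e1, r, r1, r2.trans q2, r3⟩

theorem null_compl {D : Set P} (hD : ∀ p ∈ V, ∃ d ∈ D, ∃ r ∈ V, r ≤ p ∧ r ≤ d) :
    Null V S (⋃ d ∈ D, S d)ᶜ := by
  refine null_of_dense fun p hp => ?_
  obtain ⟨d, e1, r, r1, r2, r3⟩ := hD p hp
  exact ⟨r, r1, r2, fun ω hω h' => h' (mem_biUnion e1 (h.mono _ _ r3 hω))⟩

theorem ideal : Ccc m (Null V S) where
  mono := Null.mono
  empty := null_empty
  iUnion := Null.iUnion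
  cover := by
    rintro A ⟨D, h1, h2⟩
    choose E e1 e2 e3 e4 using fun k => h.predense (h1 k)
    refine ⟨⋃ k, (⋃ d ∈ E k, S d)ᶜ, MeasurableSet.iUnion fun k =>
      (MeasurableSet.biUnion (e3 k) fun d hd => h.meas d (e1 k hd)).compl, fun ω hω => ?_,
      Null.iUnion fun k => h.null_compl (e4 k)⟩
    obtain ⟨k, hk⟩ := h2 ω hω
    refine mem_iUnion.2 ⟨k, fun h' => ?_⟩
    obtain ⟨d, d1, d2⟩ := mem_iUnion₂.1 h'
    exact hk d (e2 k d1) d2
  ccc := by
    intro D hD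
    obtain ⟨E, e1, e2, e3⟩ := h.ccc {p | p ∈ V ∧ ∃ B ∈ D, Null V S (S p \ B)} fun _ h => h.1
    have := e2.to_subtype
    choose B b1 b2 using fun p : E => (e1 p.2).2
    refine ⟨range B, range_subset_iff.2 b1, countable_range B, fun A hA => ?_⟩
    by_contra hn
    obtain ⟨q, q1, q2⟩ := h.pos' ((hD A hA).diff (MeasurableSet.sUnion (countable_range B)
      fun _ ⟨p, hp⟩ => hp ▸ hD _ (b1 p))) hn
    obtain ⟨d, d1, r, r1, r2, r3⟩ := e3 q ⟨q1, A, hA, q2.mono fun ω hω =>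
      ⟨hω.1, fun h' => hω.2 h'.1⟩⟩
    refine h.baire r r1 (q2.of_two (b2 ⟨d, d1⟩) fun ω hω h' => ⟨h.mono _ _ r3 hω, fun h'' => ?_⟩)
    exact h' ⟨h.mono _ _ r2 hω, fun h3 => h3.2 ⟨_, mem_range_self _, h''⟩⟩

end Sys

/-- A decreasing sequence meeting requirements that are generated along the way. -/
theorem exists_seq (E : P → ℕ → Set P) (hE : ∀ p ∈ V, ∀ j, ∀ q ∈ V, q ≤ p → ∃ r ∈ V, r ≤ q ∧ r ∈ E p j)
    {p0 : P} (h0 : p0 ∈ V) : ∃ s : ℕ → P, s 0 = p0 ∧ (∀ k, s k ∈ V) ∧ Antitone s ∧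
      ∀ k j, ∃ n, s n ∈ E (s k) j := by
  choose! nx h1 h2 h3 using hE
  let t : ℕ → ℕ → P := fun n => Nat.rec (fun _ => p0)
    (fun n g => Function.update g (n + 1) (nx (g n.unpair.1) n.unpair.2 (g n))) n
  have ht : ∀ n, t (n + 1) =
      Function.update (t n) (n + 1) (nx (t n n.unpair.1) n.unpair.2 (t n n)) := fun _ => rfl
  have h4 : ∀ n k, k ≤ n → t n k = t k k := by
    intro n k hk
    induction n, hk using Nat.le_induction with
    | base => rfl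
    | succ n hk ih => rw [ht, Function.update_of_ne (by omega), ih]
  let s : ℕ → P := fun n => t n n
  have hs : ∀ n, s (n + 1) = nx (s n.unpair.1) n.unpair.2 (s n) := fun n => by
    change t (n + 1) (n + 1) = _
    rw [ht, Function.update_self, h4 n _ (Nat.unpair_left_le n)]
  have h5 : ∀ n, (∀ k ≤ n, s k ∈ V) ∧ ∀ k ≤ n, s n ≤ s k := by
    intro n
    induction n with
    | zero => exact ⟨fun k hk => by rwa [Nat.le_zero.1 hk], fun k hk => by rw [Nat.le_zero.1 hk]⟩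
    | succ n ih =>
      have a1 := ih.1 _ (Nat.unpair_left_le n)
      have a2 := ih.1 n le_rfl
      have a3 := ih.2 _ (Nat.unpair_left_le n)
      refine ⟨fun k hk => ?_, fun k hk => ?_⟩
      · rcases Nat.le_succ_iff.1 hk with h | rfl
        · exact ih.1 k h
        · rw [hs]
          exact h1 _ a1 _ _ a2 a3
      · rcases Nat.le_succ_iff.1 hk with h | rfl
        · rw [hs]
          exact (h2 _ a1 _ _ a2 a3).trans (ih.2 k h)
        · exact le_rfl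
  refine ⟨s, rfl, fun k => (h5 k).1 k le_rfl, fun k n hk => (h5 n).2 k hk, fun k j => ?_⟩
  refine ⟨Nat.pair k j + 1, ?_⟩
  rw [hs, Nat.unpair_pair]
  exact h3 _ ((h5 k).1 k le_rfl) _ _ ((h5 _).1 _ le_rfl) ((h5 _).2 k (Nat.left_le_pair k j))

end sys

end Pool.Agent.Lib.MP_00fb6a_lc.Pos
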