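import Mathlib
import Pool.Agent.Lib.MP_00fb6a_lc.Pos.Ideal

/-!
One step of the iteration: almost disjoint coding of a set that meets each class of a countable
Borel equivalence relation in exactly one point.
-/

set_option autoImplicit false
set_option linter.unusedSectionVars false

namespace Pool.Agent.Lib.MP_00fb6a_lc.Pos

open Set MeasureTheory Classical

/-- A Borel almost disjoint family indexed by `Z` and an equivalence relation on `Z` with
infinite classes; `δ i z` lists the class of `z` without `z`. -/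
class Par (Z : Type) [MeasurableSpace Z] where
  A : Z → Set ℕ
  δ : ℕ → Z → Z
  inf : ∀ z, (A z).Infinite
  ad : ∀ z z', z ≠ z' → (A z ∩ A z').Finite
  ne : ∀ i z, δ i z ≠ z
  symm : ∀ i z, ∃ j, δ j (δ i z) = z
  trans : ∀ i j z, δ j (δ i z) = z ∨ ∃ k, δ k z = δ j (δ i z)
  infc : ∀ z, (range fun i => δ i z).Infinite
  measA : ∀ k, Measurable fun z => k ∈ A z
  measδ : ∀ i, Measurable (δ i)

open Par

/-- The space of generic objects. -/
abbrev W : Type := ℕ → Bool

/-- A stem, a list of points to be avoided and a list of points to be selected. -/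
@[ext] structure Raw (X : Type) where
  n : ℕ
  v : Finset ℕ
  b : List X
  t : List X

namespace Raw

variable {X Y : Type}

def map (f : X → Y) (r : Raw X) : Raw Y := ⟨r.n, r.v, r.b.map f, r.t.map f⟩

def triv : Raw X := ⟨0, ∅, [], []⟩

def meet (r r' : Raw X) : Raw X :=
  ⟨max r.n r'.n, if r.n ≤ r'.n then r'.v else r.v, r.b ++ r'.b, r.t ++ r'.t⟩

def grow (dl : ℕ → X → X) (r : Raw X) (n : ℕ) (v : Finset ℕ) : Raw X :=
  ⟨n, v, r.b ++ (List.range (r.n + 1)).flatMap fun i => r.t.map (dl i), r.t⟩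

theorem map_meet (f : X → Y) (r r' : Raw X) : (r.meet r').map f = (r.map f).meet (r'.map f) := by
  simp only [map, meet, List.map_append]

theorem map_triv (f : X → Y) : (triv : Raw X).map f = triv := rfl

theorem map_map {X' : Type} (f : X → Y) (g : Y → X') (r : Raw X) :
    (r.map f).map g = r.map (g ∘ f) := by
  simp [map]

theorem map_congr {f g : X → Y} {r : Raw X} (h1 : ∀ x ∈ r.b, f x = g x) (h2 : ∀ x ∈ r.t, f x = g x) :
    r.map f = r.map g := by
  simp only [map, List.map_congr_left h1, List.map_congr_left h2]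

theorem map_grow (f : X → Y) {dl : ℕ → X → X} {dl' : ℕ → Y → Y}
    (h : ∀ i x, f (dl i x) = dl' i (f x)) (r : Raw X) (n : ℕ) (v : Finset ℕ) :
    (r.grow dl n v).map f = (r.map f).grow dl' n v := by
  simp [map, grow, List.map_flatMap, Function.comp_def, h]

end Raw

variable {Z : Type} [MeasurableSpace Z] [StandardBorelSpace Z] [Par Z]

/-- The enumeration of the whole class. -/
def ε : ℕ → Z → Z
  | 0, z => z
  | i + 1, z => δ i z

/-- The equivalence relation. -/
def Rel (z z' : Z) : Prop := ∃ i, ε i z = z'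

theorem Rel.refl (z : Z) : Rel z z := ⟨0, rfl⟩

theorem rel_iff {z z' : Z} : Rel z z' ↔ z = z' ∨ ∃ i, δ i z = z' := by
  constructor
  · rintro ⟨i, rfl⟩
    cases i with
    | zero => exact Or.inl rfl
    | succ i => exact Or.inr ⟨i, rfl⟩
  · rintro (rfl | ⟨i, rfl⟩)
    exacts [⟨0, rfl⟩, ⟨i + 1, rfl⟩]

theorem Rel.symm {z z' : Z} (h : Rel z z') : Rel z' z := by
  rcases rel_iff.1 h with rfl | ⟨i, rfl⟩
  · exact Rel.refl _
  · exact rel_iff.2 (Or.inr (Par.symm i z))

theorem Rel.trans {z z' z'' : Z} (h : Rel z z') (h' : Rel z' z'') : Rel z z'' := by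
  rcases rel_iff.1 h with rfl | ⟨i, rfl⟩
  · exact h'
  · rcases rel_iff.1 h' with rfl | ⟨j, rfl⟩
    · exact h
    · exact rel_iff.2 ((Par.trans i j z).imp Eq.symm id)

theorem measε (i : ℕ) : Measurable (ε i : Z → Z) := by
  cases i with
  | zero => exact measurable_id
  | succ i => exact measδ i

/-- `w` meets `A z` infinitely often. -/
def InG (w : W) (z : Z) : Prop := ∀ N, ∃ k, N ≤ k ∧ k ∈ A z ∧ w k = true

/-- `z` is the only point of its class selected by `w`. -/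
def Top (w : W) (z : Z) : Prop := InG w z ∧ ∀ i, ¬ InG w (δ i z)

theorem Top.unique {w : W} {z z' : Z} (h : Top w z) (h' : Top w z') (hr : Rel z z') : z = z' := by
  rcases rel_iff.1 hr with rfl | ⟨i, rfl⟩
  · rfl
  · exact (h.2 i h'.1).elim

namespace Raw

def set (r : Raw Z) : Set W :=
  {w | (∀ k < r.n, w k = true ↔ k ∈ r.v) ∧ (∀ z ∈ r.b, ∀ k, r.n ≤ k → k ∈ A z → w k ≠ true) ∧
    ∀ z ∈ r.t, Top w z}

def valid (r : Raw Z) : Prop := (∀ z ∈ r.t, z ∉ r.b) ∧ ∀ z ∈ r.t, ∀ i, δ i z ∉ r.t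

instance : Preorder (Raw Z) where
  le r' r := r.n ≤ r'.n ∧ (∀ k < r.n, k ∈ r'.v ↔ k ∈ r.v) ∧
    (∀ z ∈ r.b, ∀ k, r.n ≤ k → k < r'.n → k ∈ A z → k ∉ r'.v) ∧ (∀ z ∈ r.b, z ∈ r'.b) ∧
    ∀ z ∈ r.t, z ∈ r'.t
  le_refl _ := ⟨le_rfl, fun _ _ => Iff.rfl, fun _ _ _ h h' => absurd h' (not_lt.2 h),
    fun _ h => h, fun _ h => h⟩
  le_trans r'' r' r h' h := by
    refine ⟨h.1.trans h'.1, fun k hk => (h'.2.1 k (hk.trans_le h.1)).trans (h.2.1 k hk),
      fun z hz k h1 h2 h3 => ?_, fun z hz => h'.2.2.2.1 z (h.2.2.2.1 z hz),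
      fun z hz => h'.2.2.2.2 z (h.2.2.2.2 z hz)⟩
    rcases lt_or_ge k r'.n with h4 | h4
    · rw [h'.2.1 k h4]
      exact h.2.2.1 z hz k h1 h4 h3
    · exact h'.2.2.1 z (h.2.2.2.1 z hz) k h4 h2 h3

theorem le_def {r' r : Raw Z} : r' ≤ r ↔ r.n ≤ r'.n ∧ (∀ k < r.n, k ∈ r'.v ↔ k ∈ r.v) ∧
    (∀ z ∈ r.b, ∀ k, r.n ≤ k → k < r'.n → k ∈ A z → k ∉ r'.v) ∧ (∀ z ∈ r.b, z ∈ r'.b) ∧
    ∀ z ∈ r.t, z ∈ r'.t := Iff.rfl

theorem set_mono {r' r : Raw Z} (h : r' ≤ r) : r'.set ⊆ r.set := by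
  rintro w ⟨h1, h2, h3⟩
  refine ⟨fun k hk => (h1 k (hk.trans_le h.1)).trans (h.2.1 k hk), fun z hz k a1 a2 => ?_,
    fun z hz => h3 z (h.2.2.2.2 z hz)⟩
  rcases lt_or_ge k r'.n with h4 | h4
  · exact fun h5 => h.2.2.1 z hz k a1 h4 a2 ((h1 k h4).1 h5)
  · exact h2 z (h.2.2.2.1 z hz) k h4 a2

theorem valid_of_mem {r : Raw Z} {w : W} (h : w ∈ r.set) : r.valid := by
  refine ⟨fun z hz hb => ?_, fun z hz i hi => (h.2.2 z hz).2 i (h.2.2 _ hi).1⟩
  obtain ⟨k, h1, h2, h3⟩ := (h.2.2 z hz).1 r.n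
  exact h.2.1 z hb k h1 h2 h3

theorem set_triv : (triv : Raw Z).set = univ := by
  ext w
  simp [set, triv]

theorem valid_triv : (triv : Raw Z).valid := by simp [valid, triv]

theorem le_triv (r : Raw Z) : r ≤ triv := by simp [le_def, triv]

/-- Explicit compatibility. -/
def Compat (r r' : Raw Z) : Prop := (r.meet r').valid ∧ r.meet r' ≤ r ∧ r.meet r' ≤ r'

theorem compat_of_mem {r r' : Raw Z} {w : W} (h : w ∈ r.set) (h' : w ∈ r'.set) : Compat r r' := by
  have h1 : ∀ k < (r.meet r').n, w k = true ↔ k ∈ (r.meet r').v := by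
    intro k hk
    simp only [meet] at hk ⊢
    split_ifs with e
    · exact h'.1 k (by omega)
    · exact h.1 k (by omega)
  refine ⟨valid_of_mem (w := w) ⟨h1, fun z hz k hk => ?_, fun z hz => ?_⟩,
    ⟨le_max_left _ _, fun k hk => (h1 k (hk.trans_le (le_max_left _ _))).symm.trans (h.1 k hk),
      fun z hz k a1 a2 a3 a4 => h.2.1 z hz k a1 a3 ((h1 k a2).2 a4),
      fun z hz => List.mem_append_left _ hz, fun z hz => List.mem_append_left _ hz⟩,
    ⟨le_max_right _ _, fun k hk => (h1 k (hk.trans_le (le_max_right _ _))).symm.trans (h'.1 k hk),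
      fun z hz k a1 a2 a3 a4 => h'.2.1 z hz k a1 a3 ((h1 k a2).2 a4),
      fun z hz => List.mem_append_right _ hz, fun z hz => List.mem_append_right _ hz⟩⟩
  · rcases List.mem_append.1 hz with hz | hz
    · exact h.2.1 z hz k ((le_max_left _ _).trans hk)
    · exact h'.2.1 z hz k ((le_max_right _ _).trans hk)
  · rcases List.mem_append.1 hz with hz | hz
    exacts [h.2.2 z hz, h'.2.2 z hz]

theorem meet_le_of_eq {r r' : Raw Z} (h1 : r.n = r'.n) (h2 : r.v = r'.v) :
    r.meet r' ≤ r ∧ r.meet r' ≤ r' := by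
  refine ⟨⟨le_max_left _ _, fun k _ => by simp [meet, h2], fun z _ k a1 a2 => ?_,
    fun z hz => List.mem_append_left _ hz, fun z hz => List.mem_append_left _ hz⟩,
    ⟨le_max_right _ _, fun k _ => by simp [meet, h2], fun z _ k a1 a2 => ?_,
    fun z hz => List.mem_append_right _ hz, fun z hz => List.mem_append_right _ hz⟩⟩ <;>
  simp only [meet] at a2 <;> omega

/-- `r'` makes progress on the promises of `r`. -/
def Imp (r r' : Raw Z) : Prop := r.n < r'.n ∧
  (∀ z ∈ r.t, ∃ k, r.n ≤ k ∧ k < r'.n ∧ k ∈ A z ∧ k ∈ r'.v) ∧ ∀ z ∈ r.t, ∀ i ≤ r.n, δ i z ∈ r'.b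

theorem Imp.left {r0 r r' : Raw Z} (h : Imp r r') (h0 : r ≤ r0) : Imp r0 r' := by
  refine ⟨h0.1.trans_lt h.1, fun z hz => ?_, fun z hz i hi =>
    h.2.2 z (h0.2.2.2.2 z hz) i (hi.trans h0.1)⟩
  obtain ⟨k, h1, h2⟩ := h.2.1 z (h0.2.2.2.2 z hz)
  exact ⟨k, h0.1.trans h1, h2⟩

theorem exists_grow {r : Raw Z} (h : r.valid) : ∃ n v, (r.grow δ n v).valid ∧ r.grow δ n v ≤ r ∧
    Imp r (r.grow δ n v) := by
  have h1 : ∀ z ∈ r.t, ∃ k, r.n ≤ k ∧ k ∈ A z ∧ ∀ z' ∈ r.b, k ∉ A z' := by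
    intro z hz
    have h2 : (⋃ z' ∈ {z' | z' ∈ r.b}, A z ∩ A z').Finite :=
      (List.finite_toSet r.b).biUnion fun z' hz' => ad z z' fun e => h.1 z hz (e ▸ hz')
    obtain ⟨k, k1, k2⟩ := ((inf z).sdiff h2).exists_gt r.n
    exact ⟨k, k2.le, k1.1, fun z' hz' h3 => k1.2 (mem_biUnion hz' ⟨k1.1, h3⟩)⟩
  choose! k k1 k2 k3 using h1
  obtain ⟨N, hN⟩ := ((List.finite_toSet r.t).image k).bddAbove
  refine ⟨max N r.n + 1, r.v.filter (· < r.n) ∪ (r.t.map k).toFinset, ⟨fun z hz hb => ?_, h.2⟩,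
    ⟨by simp only [grow]; omega, fun j hj => ?_, fun z hz j a1 _ a3 a4 => ?_,
      fun z hz => List.mem_append_left _ hz, fun z hz => hz⟩,
    by simp only [grow]; omega, fun z hz => ⟨k z, k1 z hz, ?_, k2 z hz, ?_⟩, fun z hz i hi => ?_⟩
  · rcases List.mem_append.1 hb with hb | hb
    · exact h.1 z hz hb
    · obtain ⟨i, -, hi⟩ := List.mem_flatMap.1 hb
      obtain ⟨y, hy, rfl⟩ := List.mem_map.1 hi
      exact h.2 y hy i hz
  · simp only [grow, Finset.mem_union, Finset.mem_filter, List.mem_toFinset, List.mem_map]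
    refine ⟨fun a => a.elim (fun a => a.1) ?_, fun a => Or.inl ⟨a, hj⟩⟩
    rintro ⟨y, hy, rfl⟩
    exact absurd hj (not_lt.2 (k1 y hy))
  · simp only [grow, Finset.mem_union, Finset.mem_filter, List.mem_toFinset, List.mem_map] at a4
    rcases a4 with a | ⟨y, hy, rfl⟩
    · exact absurd a.2 (not_lt.2 a1)
    · exact k3 y hy z hz a3
  · have := hN ⟨z, hz, rfl⟩
    simp only [grow]
    omega
  · exact Finset.mem_union_right _ (List.mem_toFinset.2 (List.mem_map_of_mem hz))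
  · exact List.mem_append_right _ (List.mem_flatMap.2
      ⟨i, List.mem_range.2 (by omega), List.mem_map_of_mem hz⟩)

theorem cauchy {r : ℕ → Raw Z} (h : Antitone r) (hi : ∀ k, ∃ m, Imp (r k) (r m)) :
    ∃ w, ∀ k, w ∈ (r k).set := by
  have h0 : ∀ k m, Imp (r k) (r m) → k ≤ m := fun k m e =>
    not_lt.1 fun h1 => absurd e.1 (not_lt.2 (h h1.le).1)
  have h1 : ∀ N k, ∃ m, k ≤ m ∧ N ≤ (r m).n := by
    intro N k
    induction N with
    | zero => exact ⟨k, le_rfl, Nat.zero_le _⟩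
    | succ N ih =>
      obtain ⟨m, a1, a2⟩ := ih
      obtain ⟨m', a3⟩ := hi m
      exact ⟨m', a1.trans (h0 _ _ a3), a2.trans_lt a3.1⟩
  let w : W := fun j => decide (∃ m, j < (r m).n ∧ j ∈ (r m).v)
  have h2 : ∀ m, ∀ j < (r m).n, w j = true ↔ j ∈ (r m).v := by
    intro m j hj
    simp only [w, decide_eq_true_eq]
    refine ⟨?_, fun a => ⟨m, hj, a⟩⟩
    rintro ⟨m', a1, a2⟩
    rcases le_total m m' with e | e
    · exact ((h e).2.1 j hj).1 a2
    · exact ((h e).2.1 j a1).2 a2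
  have h3 : ∀ k, ∀ z ∈ (r k).b, ∀ j, (r k).n ≤ j → j ∈ A z → w j ≠ true := by
    intro k z hz j a1 a2 a3
    obtain ⟨m, b1, b2⟩ := h1 (j + 1) k
    exact (h b1).2.2.1 z hz j a1 b2 a2 ((h2 m j b2).1 a3)
  refine ⟨w, fun k => ⟨h2 k, h3 k, fun z hz => ⟨fun N => ?_, fun i hG => ?_⟩⟩⟩
  · obtain ⟨m, b1, b2⟩ := h1 N k
    obtain ⟨m', b3⟩ := hi m
    obtain ⟨j, c1, c2, c3, c4⟩ := b3.2.1 z ((h b1).2.2.2.2 z hz)
    exact ⟨j, b2.trans c1, c3, (h2 m' j c2).2 c4⟩
  · obtain ⟨m, b1, b2⟩ := h1 i k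
    obtain ⟨m', b3⟩ := hi m
    obtain ⟨j, c1, c2, c3⟩ := hG (r m').n
    exact h3 m' _ (b3.2.2 z ((h b1).2.2.2.2 z hz) i b2) j c1 c2 c3

end Raw

variable (Z) in
/-- The meagre ideal of one step. -/
def Null1 (B : Set W) : Prop := Null {r : Raw Z | r.valid} Raw.set B

theorem baire1 {r : Raw Z} (h : r.valid) : ¬ Null1 Z r.set := by
  rintro ⟨D, h1, h2⟩
  obtain ⟨s, s0, -, s2, s3⟩ := exists_seq (V := {r : Raw Z | r.valid})
    (fun p j => {q | Raw.Imp p q ∧ ∃ d ∈ D j, q ≤ d}) (fun p _ j q hq hqp => by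
      obtain ⟨d, d1, d2⟩ := (h1 j).2 q hq
      obtain ⟨n, v, a1, a2, a3⟩ := Raw.exists_grow ((h1 j).1 d1)
      exact ⟨_, a1, a2.trans d2, a3.left (d2.trans hqp), d, d1, a2⟩) h
  obtain ⟨w, hw⟩ := Raw.cauchy s2 fun k => (s3 k 0).imp fun _ h => h.1
  obtain ⟨k, hk⟩ := h2 w (s0 ▸ hw 0)
  obtain ⟨n, -, d, d1, d2⟩ := s3 0 k
  exact hk d d1 (Raw.set_mono d2 (hw n))

section meas

variable {Θ : Type} [MeasurableSpace Θ]

theorem meas_ball {X : Type} (l : List X) {p : X → Θ → Prop} (h : ∀ f ∈ l, Measurable (p f)) :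
    Measurable fun θ => ∀ f ∈ l, p f θ := by
  induction l with
  | nil => simp
  | cons a l ih =>
    simp only [List.forall_mem_cons]
    exact (h a (List.mem_cons_self ..)).and (ih fun f hf => h f (List.mem_cons_of_mem _ hf))

theorem meas_bex {X : Type} (l : List X) {p : X → Θ → Prop} (h : ∀ f ∈ l, Measurable (p f)) :
    Measurable fun θ => ∃ f ∈ l, p f θ := by
  have := (meas_ball l fun f hf => (h f hf).not).not
  simpa using this

theorem meas_inG {g : Θ → W} {f : Θ → Z} (hg : Measurable g) (hf : Measurable f) :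
    Measurable fun θ => InG (g θ) (f θ) :=
  Measurable.forall fun _ => Measurable.exists fun k => measurable_const.and
    (((measA k).comp hf).and (((measurable_pi_apply k).comp hg).eq measurable_const))

theorem meas_top {g : Θ → W} {f : Θ → Z} (hg : Measurable g) (hf : Measurable f) :
    Measurable fun θ => Top (g θ) (f θ) :=
  (meas_inG hg hf).and (Measurable.forall fun i => (meas_inG hg ((measδ i).comp hf)).not)

theorem meas_rel {g f : Θ → Z} (hg : Measurable g) (hf : Measurable f) :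
    Measurable fun θ => Rel (g θ) (f θ) :=
  Measurable.exists fun i => ((measε i).comp hg).eq hf

/-- All entries are measurable. -/
def Raw.Meas (r : Raw (Θ → Z)) : Prop := (∀ f ∈ r.b, Measurable f) ∧ ∀ f ∈ r.t, Measurable f

/-- Evaluation at a point. -/
def Raw.ev (r : Raw (Θ → Z)) (θ : Θ) : Raw Z := r.map fun f => f θ

theorem Raw.Meas.meet {r r' : Raw (Θ → Z)} (h : r.Meas) (h' : r'.Meas) : (r.meet r').Meas :=
  ⟨fun f hf => (List.mem_append.1 hf).elim (h.1 f) (h'.1 f),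
    fun f hf => (List.mem_append.1 hf).elim (h.2 f) (h'.2 f)⟩

theorem Raw.Meas.comp {Θ' : Type} [MeasurableSpace Θ'] {r : Raw (Θ → Z)} (h : r.Meas)
    {g : Θ' → Θ} (hg : Measurable g) : (r.map fun f => f ∘ g).Meas := by
  constructor <;> intro f hf <;> obtain ⟨f', h1, rfl⟩ := List.mem_map.1 hf
  exacts [(h.1 f' h1).comp hg, (h.2 f' h1).comp hg]

theorem Raw.Meas.grow {r : Raw (Θ → Z)} (h : r.Meas) (n : ℕ) (v : Finset ℕ) :
    (r.grow (fun i f => δ i ∘ f) n v).Meas := by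
  refine ⟨fun f hf => (List.mem_append.1 hf).elim (h.1 f) fun hf => ?_, h.2⟩
  obtain ⟨i, -, hi⟩ := List.mem_flatMap.1 hf
  obtain ⟨y, hy, rfl⟩ := List.mem_map.1 hi
  exact (measδ i).comp (h.2 y hy)

theorem meas_valid {r : Raw (Θ → Z)} (h : r.Meas) : Measurable fun θ => (r.ev θ).valid := by
  simp only [Raw.valid, Raw.ev, Raw.map, List.forall_mem_map]
  simp only [List.mem_map]
  exact (meas_ball _ fun f hf => (meas_bex _ fun g hg => (h.1 g hg).eq (h.2 f hf)).not).and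
    (meas_ball _ fun f hf => Measurable.forall fun i =>
      (meas_bex _ fun g hg => (h.2 g hg).eq ((measδ i).comp (h.2 f hf))).not)

theorem meas_le {r r' : Raw (Θ → Z)} (h : r.Meas) (h' : r'.Meas) :
    Measurable fun θ => r'.ev θ ≤ r.ev θ := by
  simp only [Raw.le_def, Raw.ev, Raw.map, List.forall_mem_map]
  simp only [List.mem_map]
  exact measurable_const.and (measurable_const.and ((meas_ball _ fun f hf =>
    Measurable.forall fun k => measurable_const.imp (measurable_const.imp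
      (((measA k).comp (h.1 f hf)).imp measurable_const))).and
    ((meas_ball _ fun f hf => meas_bex _ fun g hg => (h'.1 g hg).eq (h.1 f hf)).and
      (meas_ball _ fun f hf => meas_bex _ fun g hg => (h'.2 g hg).eq (h.2 f hf)))))

theorem meas_imp {r r' : Raw (Θ → Z)} (h : r.Meas) (h' : r'.Meas) :
    Measurable fun θ => (r.ev θ).Imp (r'.ev θ) := by
  simp only [Raw.Imp, Raw.ev, Raw.map, List.forall_mem_map]
  simp only [List.mem_map]
  exact measurable_const.and ((meas_ball _ fun f hf => Measurable.exists fun k =>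
    measurable_const.and (measurable_const.and (((measA k).comp (h.2 f hf)).and
      measurable_const))).and (meas_ball _ fun f hf => Measurable.forall fun i =>
        measurable_const.imp (meas_bex _ fun g hg => (h'.1 g hg).eq ((measδ i).comp (h.2 f hf)))))

theorem meas_compat {r r' : Raw (Θ → Z)} (h : r.Meas) (h' : r'.Meas) :
    Measurable fun θ => (r.ev θ).Compat (r'.ev θ) := by
  simp only [Raw.Compat, Raw.ev, ← Raw.map_meet]
  exact (meas_valid (h.meet h')).and ((meas_le h (h.meet h')).and (meas_le h' (h.meet h')))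

theorem meas_set {r : Raw (Θ → Z)} (h : r.Meas) {g : Θ → W} (hg : Measurable g) :
    Measurable fun θ => g θ ∈ (r.ev θ).set := by
  simp only [Raw.set, Raw.ev, Raw.map, List.forall_mem_map, mem_ofPred]
  have h1 : ∀ k, Measurable fun θ => g θ k = true := fun k =>
    ((measurable_pi_apply k).comp hg).eq measurable_const
  exact (Measurable.forall fun k => measurable_const.imp ((h1 k).iff measurable_const)).and
    ((meas_ball _ fun f hf => Measurable.forall fun k => measurable_const.imp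
      (((measA k).comp (h.1 f hf)).imp (h1 k).not)).and
      (meas_ball _ fun f hf => meas_top hg (h.2 f hf)))

end meas

end Pool.Agent.Lib.MP_00fb6a_lc.Pos
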