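import Mathlib
import Pool.Agent.Lib.MP_00fb6a_lc.Pos.Step

/-!
The finite support iteration along a well-order `I`, presented by measurable sets of points of
`I → W`.
-/

set_option autoImplicit false
set_option linter.unusedSectionVars false

namespace Pool.Agent.Lib.MP_00fb6a_lc.Pos

open Set MeasureTheory Classical

/-- The sigma-algebra generated by the coordinates in `L`. -/
abbrev mL {I : Type} (L : Set I) : MeasurableSpace (I → W) := cylinderEvents (X := fun _ => W) L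

theorem det_set {I : Type} {L : Set I} {B : Set (I → W)} (hB : MeasurableSet[mL L] B)
    {ω ω' : I → W} (h : ∀ c ∈ L, ω c = ω' c) : ω ∈ B ↔ ω' ∈ B := by
  let M : MeasurableSpace (I → W) :=
    { MeasurableSet' := fun B => ω ∈ B ↔ ω' ∈ B
      measurableSet_empty := Iff.rfl
      measurableSet_compl := fun _ h => not_congr h
      measurableSet_iUnion := fun _ h => by simp only [mem_iUnion, h] }
  have h1 : mL L ≤ M := iSup₂_le fun c hc => by
    rintro _ ⟨A, -, rfl⟩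
    change ω c ∈ A ↔ ω' c ∈ A
    rw [h c hc]
  exact h1 B hB

theorem det_fun {I Y : Type} [MeasurableSpace Y] [MeasurableSingletonClass Y] {L : Set I}
    {f : (I → W) → Y} (hf : Measurable[mL L] f) {ω ω' : I → W} (h : ∀ c ∈ L, ω c = ω' c) :
    f ω = f ω' :=
  (det_set (hf (measurableSet_singleton (f ω'))) h).2 rfl

/-- The data of a condition at one coordinate. -/
structure Dat (Z I : Type) where
  r : Raw ((I → W) → Z)
  D : Set (I → W)

/-- The trivial data. -/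
def Dat.triv {Z I : Type} : Dat Z I := ⟨Raw.triv, univ⟩

/-- Finitely supported families of data. -/
structure Pre (Z I : Type) where
  F : Finset I
  d : I → Dat Z I
  out : ∀ c, c ∉ F → d c = Dat.triv

variable {Z : Type} [MeasurableSpace Z] [StandardBorelSpace Z] [Par Z]
  {I : Type} [LinearOrder I] [WellFoundedLT I]

def Dat.good (d : Dat Z I) : Set (I → W) := {ω | ω ∈ d.D ∧ (d.r.ev ω).valid}

def Dat.Ok (d : Dat Z I) (ω : I → W) (w : W) : Prop := ω ∈ d.D ∧ w ∈ (d.r.ev ω).set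

def Dat.Le (d' d : Dat Z I) (ω : I → W) : Prop := ω ∈ d'.D → ω ∈ d.D ∧ d'.r.ev ω ≤ d.r.ev ω

def Adm (c : I) (d : Dat Z I) : Prop :=
  @Raw.Meas _ _ _ (mL (Iio c)) d.r ∧ MeasurableSet[mL (Iio c)] d.D

theorem Dat.Le.rfl {d : Dat Z I} {ω : I → W} : d.Le d ω := fun h => ⟨h, le_rfl⟩

theorem Dat.Le.ok {d' d : Dat Z I} {ω : I → W} (h : d'.Le d ω) {w : W} (h' : d'.Ok ω w) :
    d.Ok ω w := ⟨(h h'.1).1, Raw.set_mono (h h'.1).2 h'.2⟩

theorem Dat.le_triv (d : Dat Z I) (ω : I → W) : d.Le Dat.triv ω :=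
  fun _ => ⟨trivial, Raw.le_triv _⟩

theorem Dat.ok_triv (ω : I → W) (w : W) : (Dat.triv : Dat Z I).Ok ω w :=
  ⟨trivial, by
    change w ∈ (Raw.triv : Raw Z).set
    rw [Raw.set_triv]
    trivial⟩

theorem Dat.good_triv : (Dat.triv : Dat Z I).good = univ :=
  eq_univ_of_forall fun _ => ⟨trivial, Raw.valid_triv⟩

theorem Dat.Ok.good {d : Dat Z I} {ω : I → W} {w : W} (h : d.Ok ω w) : ω ∈ d.good :=
  ⟨h.1, Raw.valid_of_mem h.2⟩

theorem adm_triv (c : I) : Adm c (Dat.triv : Dat Z I) :=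
  ⟨⟨fun _ h => by simp [Dat.triv, Raw.triv] at h, fun _ h => by simp [Dat.triv, Raw.triv] at h⟩,
    MeasurableSet.univ⟩

theorem Adm.good {c : I} {d : Dat Z I} (h : Adm c d) : MeasurableSet[mL (Iio c)] d.good :=
  h.2.inter (@Measurable.setOf _ (mL (Iio c)) _ (@meas_valid _ _ _ _ _ (mL (Iio c)) _ h.1))

theorem Adm.meas {c : I} {d : Dat Z I} (h : Adm c d) {L : Set I} (hL : Iio c ⊆ L) :
    @Raw.Meas _ _ _ (mL L) d.r :=
  ⟨fun f hf => (h.1.1 f hf).mono (cylinderEvents_mono hL) le_rfl,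
    fun f hf => (h.1.2 f hf).mono (cylinderEvents_mono hL) le_rfl⟩

theorem Adm.ok {c : I} {d : Dat Z I} (h : Adm c d) {L : Set I} (hL : Iic c ⊆ L) :
    MeasurableSet[mL L] {ω | d.Ok ω (ω c)} :=
  (cylinderEvents_mono (Iio_subset_Iic_self.trans hL) _ h.2).inter
    (@Measurable.setOf _ (mL L) _ (@meas_set _ _ _ _ _ (mL L) _
      (h.meas (Iio_subset_Iic_self.trans hL)) _ (measurable_cylinderEvent_apply (hL self_mem_Iic))))

theorem Adm.ev_congr {c : I} {d : Dat Z I} (h : Adm c d) {ω ω' : I → W}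
    (e : ∀ b < c, ω b = ω' b) : (ω ∈ d.D ↔ ω' ∈ d.D) ∧ d.r.ev ω = d.r.ev ω' :=
  ⟨det_set h.2 e, Raw.map_congr (fun f hf => det_fun (h.1.1 f hf) e)
    fun f hf => det_fun (h.1.2 f hf) e⟩

namespace Pre

/-- The points satisfying the condition at the coordinates in `L`. -/
def S (p : Pre Z I) (L : Set I) : Set (I → W) := {ω | ∀ c ∈ L, (p.d c).Ok ω (ω c)}

theorem S_anti (p : Pre Z I) {L L' : Set I} (h : L ⊆ L') : p.S L' ⊆ p.S L :=
  fun _ hω c hc => hω c (h hc)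

theorem S_of_supp {p : Pre Z I} {L L' : Set I} (h : ∀ c ∈ p.F, c ∈ L' → c ∈ L) : p.S L ⊆ p.S L' := by
  intro ω hω c hc
  by_cases e : c ∈ p.F
  · exact hω c (h c e hc)
  · rw [p.out c e]
    exact Dat.ok_triv _ _

theorem S_congr {p q : Pre Z I} {L : Set I} (h : ∀ c ∈ L, p.d c = q.d c) : p.S L = q.S L := by
  ext ω
  exact forall₂_congr fun c hc => by rw [h c hc]

theorem S_le {p q : Pre Z I} (h : ∀ c, ∀ ω ∈ q.S (Iio c), (q.d c).Le (p.d c) ω) {L : Set I}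
    (hL : IsLowerSet L) : q.S L ⊆ p.S L :=
  fun ω hω c hc => (h c ω fun b hb => hω b (hL (le_of_lt hb) hc)).ok (hω c hc)

instance : Preorder (Pre Z I) where
  le q p := ∀ c, ∀ ω ∈ q.S (Iio c), (q.d c).Le (p.d c) ω
  le_refl _ _ _ _ := Dat.Le.rfl
  le_trans _ _ _ h' h c ω hω h1 :=
    have a := h' c ω hω h1
    have b := h c ω (S_le h' (isLowerSet_Iio c) hω) a.1
    ⟨b.1, a.2.trans b.2⟩

theorem le_def {q p : Pre Z I} : q ≤ p ↔ ∀ c, ∀ ω ∈ q.S (Iio c), (q.d c).Le (p.d c) ω := Iff.rfl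

theorem S_mono {p q : Pre Z I} (h : q ≤ p) {L : Set I} (hL : IsLowerSet L) : q.S L ⊆ p.S L :=
  S_le h hL

/-- The trivial condition. -/
def one : Pre Z I := ⟨∅, fun _ => Dat.triv, fun _ _ => rfl⟩

theorem le_one (p : Pre Z I) : p ≤ one := fun _ _ _ => Dat.le_triv _ _

theorem S_one (L : Set I) : (one : Pre Z I).S L = univ :=
  eq_univ_of_forall fun _ _ _ => Dat.ok_triv _ _

/-- Restriction. -/
noncomputable def res (p : Pre Z I) (L : Set I) : Pre Z I :=
  ⟨p.F.filter (· ∈ L), fun c => if c ∈ L then p.d c else Dat.triv, fun c hc => by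
    split_ifs with h
    · exact p.out c fun h' => hc (Finset.mem_filter.2 ⟨h', h⟩)
    · rfl⟩

theorem res_d {p : Pre Z I} {L : Set I} {c : I} (h : c ∈ L) : (p.res L).d c = p.d c := if_pos h

theorem res_d' {p : Pre Z I} {L : Set I} {c : I} (h : c ∉ L) : (p.res L).d c = Dat.triv := if_neg h

theorem S_res (p : Pre Z I) {L M : Set I} (h : M ⊆ L) : (p.res L).S M = p.S M :=
  S_congr fun _ hc => res_d (h hc)

theorem S_res_univ (p : Pre Z I) (L : Set I) : (p.res L).S univ = p.S L := by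
  rw [← S_res p subset_rfl]
  exact (S_anti _ (subset_univ _)).antisymm (S_of_supp fun c hc _ => (Finset.mem_filter.1 hc).2)

theorem le_res (p : Pre Z I) (L : Set I) : p ≤ p.res L := by
  intro c ω _
  by_cases h : c ∈ L
  · rw [res_d h]
    exact Dat.Le.rfl
  · rw [res_d' h]
    exact Dat.le_triv _ _

theorem res_mono {p q : Pre Z I} (h : q ≤ p) {L : Set I} (hL : IsLowerSet L) :
    q.res L ≤ p.res L := by
  intro c ω hω
  by_cases e : c ∈ L
  · rw [res_d e, res_d e]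
    rw [S_res q (hL.Iio_subset e)] at hω
    exact h c ω hω
  · rw [res_d' (p := p) e]
    exact Dat.le_triv _ _

theorem res_le_self {p : Pre Z I} {L : Set I} (h : ∀ c ∈ p.F, c ∈ L) : p.res L ≤ p := by
  intro c ω _
  by_cases e : c ∈ L
  · rw [res_d e]
    exact Dat.Le.rfl
  · rw [p.out c fun h' => e (h c h')]
    exact Dat.le_triv _ _

theorem res_le {r p : Pre Z I} (h : r ≤ p) {L : Set I} (hL : IsLowerSet L)
    (hp : ∀ c ∈ p.F, c ∈ L) : r.res L ≤ p := (res_mono h hL).trans (res_le_self hp)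

/-- Adding data at one coordinate. -/
noncomputable def snoc (u : Pre Z I) (a : I) (d : Dat Z I) : Pre Z I :=
  ⟨insert a u.F, Function.update u.d a d, fun c hc => by
    rw [Finset.mem_insert, not_or] at hc
    rw [Function.update_of_ne hc.1, u.out c hc.2]⟩

theorem snoc_d (u : Pre Z I) (a : I) (d : Dat Z I) : (u.snoc a d).d a = d :=
  Function.update_self ..

theorem snoc_d' (u : Pre Z I) {a c : I} (d : Dat Z I) (h : c ≠ a) : (u.snoc a d).d c = u.d c :=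
  Function.update_of_ne h ..

theorem S_snoc (u : Pre Z I) {a : I} (d : Dat Z I) {L : Set I} (h : a ∉ L) :
    (u.snoc a d).S L = u.S L := S_congr fun _ hc => snoc_d' u d fun e => h (e ▸ hc)

end Pre

open Pre

variable (Z) in
/-- The meagre ideal of the iteration below `a`, by recursion. -/
noncomputable def NI : I → Set (I → W) → Prop :=
  WellFoundedLT.fix fun a rec => Null {p : Pre Z I | ∀ c ∈ p.F, ∃ h : c < a,
    Adm c (p.d c) ∧ rec c h (p.S (Iio c) \ (p.d c).good)} fun p => p.S univ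

variable (Z) in
/-- The conditions with support in `L`. -/
def Cond (L : Set I) : Set (Pre Z I) :=
  {p | ∀ c ∈ p.F, c ∈ L ∧ Adm c (p.d c) ∧ NI Z c (p.S (Iio c) \ (p.d c).good)}

variable (Z) in
/-- The meagre ideal of the iteration along `L`. -/
def Nul (L : Set I) : Set (I → W) → Prop := Null (Cond Z L) fun p => p.S univ

theorem NI_eq (a : I) : NI Z a = Nul Z (Iio a) := by
  unfold NI
  rw [WellFoundedLT.fix_eq]
  unfold Nul Cond
  congr
  ext p
  simp only [exists_prop, mem_Iio]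
  rfl

theorem cond_iff {L : Set I} {p : Pre Z I} : p ∈ Cond Z L ↔ (∀ c ∈ p.F, c ∈ L) ∧
    ∀ c, Adm c (p.d c) ∧ Nul Z (Iio c) (p.S (Iio c) \ (p.d c).good) := by
  refine ⟨fun h => ⟨fun c hc => (h c hc).1, fun c => ?_⟩, fun h c hc => ⟨h.1 c hc, ?_⟩⟩
  · by_cases e : c ∈ p.F
    · rw [← NI_eq]
      exact (h c e).2
    · rw [p.out c e, Dat.good_triv, sdiff_univ]
      exact ⟨adm_triv c, null_empty⟩
  · rw [NI_eq]
    exact h.2 c

section

variable {L L' : Set I} {p q u : Pre Z I}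

theorem Cond.supp (h : p ∈ Cond Z L) : ∀ c ∈ p.F, c ∈ L := (cond_iff.1 h).1

theorem Cond.adm (h : p ∈ Cond Z L) (c : I) : Adm c (p.d c) := ((cond_iff.1 h).2 c).1

theorem Cond.nul (h : p ∈ Cond Z L) (c : I) : Nul Z (Iio c) (p.S (Iio c) \ (p.d c).good) :=
  ((cond_iff.1 h).2 c).2

theorem Cond.of_supp (h : p ∈ Cond Z L) (h' : ∀ c ∈ p.F, c ∈ L') : p ∈ Cond Z L' :=
  cond_iff.2 ⟨h', (cond_iff.1 h).2⟩

theorem Cond.mono (h : p ∈ Cond Z L) (h' : L ⊆ L') : p ∈ Cond Z L' :=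
  Cond.of_supp h fun c hc => h' (Cond.supp h c hc)

theorem Cond.S_univ (h : p ∈ Cond Z L) : p.S univ = p.S L :=
  (S_anti _ (subset_univ _)).antisymm (S_of_supp fun c hc _ => Cond.supp h c hc)

theorem one_cond (L : Set I) : (one : Pre Z I) ∈ Cond Z L := fun _ h => by simp [one] at h

theorem Cond.meas (h : p ∈ Cond Z L') (hL : IsLowerSet L) : MeasurableSet[mL L] (p.S L) := by
  have e : p.S L = ⋂ c ∈ p.F.filter (· ∈ L), {ω | (p.d c).Ok ω (ω c)} := by
    ext ω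
    simp only [mem_iInter, Finset.mem_filter, mem_ofPred]
    exact ⟨fun h c hc => h c hc.2, fun h => S_of_supp (L := {c | c ∈ p.F ∧ c ∈ L})
      (fun c h1 h2 => ⟨h1, h2⟩) h⟩
  rw [e]
  exact Finset.measurableSet_biInter _ fun c hc =>
    (Cond.adm h c).ok fun b hb => hL hb (Finset.mem_filter.1 hc).2

theorem Cond.res (h : p ∈ Cond Z L') (hL : IsLowerSet L) : p.res L ∈ Cond Z L := by
  refine fun c hc => ?_
  obtain ⟨h1, h2⟩ := Finset.mem_filter.1 hc
  rw [res_d h2, S_res p (hL.Iio_subset h2)]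
  exact ⟨h2, (h c h1).2⟩

theorem Cond.snoc {a : I} (hu : u ∈ Cond Z (Iio a)) {d : Dat Z I} (hd : Adm a d)
    (hn : Nul Z (Iio a) (u.S univ \ d.good)) : u.snoc a d ∈ Cond Z (Iic a) := by
  intro c hc
  rcases Finset.mem_insert.1 hc with rfl | hc
  · rw [snoc_d, S_snoc u d self_notMem_Iio, NI_eq, ← Cond.S_univ hu]
    exact ⟨self_mem_Iic, hd, hn⟩
  · have h1 : c < a := Cond.supp hu c hc
    rw [snoc_d' u d h1.ne, S_snoc u d (notMem_Iio.2 h1.le)]
    exact ⟨h1.le, (hu c hc).2⟩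

theorem snoc_le {a : I} (hu : u ∈ Cond Z (Iio a)) (d : Dat Z I) : u.snoc a d ≤ u := by
  intro c ω _
  by_cases e : c = a
  · rw [u.out c fun h => (Cond.supp hu c h).ne e]
    exact Dat.le_triv _ _
  · rw [snoc_d' u d e]
    exact Dat.Le.rfl

theorem snoc_le_res {a : I} (hu : u ∈ Cond Z (Iio a)) (h : u ≤ p.res (Iio a)) {d : Dat Z I}
    (hd : ∀ ω ∈ u.S univ, d.Le (p.d a) ω) : u.snoc a d ≤ p.res (Iic a) := by
  intro c ω hω
  rcases lt_trichotomy c a with e | rfl | e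
  · rw [snoc_d' u d e.ne, res_d (mem_Iic.2 e.le), ← res_d (p := p) (mem_Iio.2 e)]
    rw [S_snoc u d (notMem_Iio.2 e.le)] at hω
    exact h c ω hω
  · rw [snoc_d, res_d self_mem_Iic]
    rw [S_snoc u d self_notMem_Iio, ← Cond.S_univ hu] at hω
    exact hd ω hω
  · rw [res_d' (notMem_Iic.2 e)]
    exact Dat.le_triv _ _

theorem glue (hL : IsLowerSet L) (hLL : L ⊆ L') (hu : u ∈ Cond Z L) (hp : p ∈ Cond Z L')
    (h : u ≤ p.res L) : ∃ q ∈ Cond Z L', q ≤ u ∧ q ≤ p ∧ (∀ c ∈ L, q.d c = u.d c) ∧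
      ∀ c, c ∉ L → q.d c = p.d c := by
  let q : Pre Z I := ⟨u.F ∪ p.F, fun c => if c ∈ L then u.d c else p.d c, fun c hc => by
    rw [Finset.mem_union, not_or] at hc
    rw [u.out c hc.1, p.out c hc.2, ite_self]⟩
  have q1 : ∀ c ∈ L, q.d c = u.d c := fun c hc => if_pos hc
  have q2 : ∀ c, c ∉ L → q.d c = p.d c := fun c hc => if_neg hc
  have q3 : ∀ c ∈ L, q.S (Iio c) = u.S (Iio c) := fun c hc =>
    S_congr fun b hb => q1 b (hL (le_of_lt hb) hc)
  have q4 : q ≤ p := by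
    intro c ω hω
    by_cases e : c ∈ L
    · rw [q1 c e, ← res_d (p := p) e]
      exact h c ω (q3 c e ▸ hω)
    · rw [q2 c e]
      exact Dat.Le.rfl
  refine ⟨q, cond_iff.2 ⟨fun c hc => (Finset.mem_union.1 hc).elim
    (fun h => hLL (Cond.supp hu c h)) (Cond.supp hp c), fun c => ?_⟩, fun c ω _ => ?_, q4, q1, q2⟩
  · by_cases e : c ∈ L
    · rw [q1 c e, q3 c e]
      exact ⟨Cond.adm hu c, Cond.nul hu c⟩
    · rw [q2 c e]
      exact ⟨Cond.adm hp c, (Cond.nul hp c).mono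
        (sdiff_subset_sdiff_left (S_mono q4 (isLowerSet_Iio c)))⟩
  · by_cases e : c ∈ L
    · rw [q1 c e]
      exact Dat.Le.rfl
    · rw [u.out c fun h => e (Cond.supp hu c h)]
      exact Dat.le_triv _ _

theorem upd (hL : IsLowerSet L) {a : I} (ha : a ∈ L) (hu : u ∈ Cond Z (Iio a)) (hp : p ∈ Cond Z L)
    (h : u ≤ p.res (Iio a)) {d : Dat Z I} (hd : Adm a d) (hn : Nul Z (Iio a) (u.S univ \ d.good))
    (hle : ∀ ω ∈ u.S univ, d.Le (p.d a) ω) : ∃ q ∈ Cond Z L, q ≤ u ∧ q ≤ p ∧ q.d a = d ∧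
      (∀ c < a, q.d c = u.d c) ∧ ∀ c, a < c → q.d c = p.d c := by
  obtain ⟨q, q1, q2, q3, q4, q5⟩ := glue (isLowerSet_Iic a) (fun b hb => hL hb ha)
    (Cond.snoc hu hd hn) hp (snoc_le_res hu h hle)
  exact ⟨q, q1, q2.trans (snoc_le hu d), q3, (q4 a self_mem_Iic).trans (snoc_d ..),
    fun c hc => (q4 c hc.le).trans (snoc_d' u d hc.ne), fun c hc => q5 c (notMem_Iic.2 hc)⟩

theorem Nul.up (hL : IsLowerSet L) (hLL : L ⊆ L') {A : Set (I → W)} (h : Nul Z L A) :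
    Nul Z L' A := by
  obtain ⟨D, h1, h2⟩ := h
  refine ⟨fun k => {q | q ∈ Cond Z L' ∧ ∃ d ∈ D k, q ≤ d}, fun k => ⟨fun _ h => h.1, fun p hp => ?_⟩,
    fun ω hω => ?_⟩
  · obtain ⟨d, d1, d2⟩ := (h1 k).2 _ (Cond.res hp hL)
    obtain ⟨q, q1, q2, q3, -⟩ := glue hL hLL ((h1 k).1 d1) hp d2
    exact ⟨q, ⟨q1, d, d1, q2⟩, q3⟩
  · obtain ⟨k, hk⟩ := h2 ω hω
    exact ⟨k, fun q ⟨_, d, d1, d2⟩ h => hk d d1 (S_mono d2 isLowerSet_univ h)⟩

end

end Pool.Agent.Lib.MP_00fb6a_lc.Pos
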