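import Mathlib
import Pool.Agent.Lib.MP_00fb6a_lc.Pos.Iter
import Pool.Agent.Lib.MP_da5f1d_gt.Hechler

/-!
The iteration is a Baire system with the countable chain condition.
-/

set_option autoImplicit false
set_option linter.unusedSectionVars false

namespace Pool.Agent.Lib.MP_00fb6a_lc.Pos

open Set MeasureTheory Classical Pre Par

variable {Z : Type} [MeasurableSpace Z] [StandardBorelSpace Z] [Par Z]
  {I : Type} [LinearOrder I] [WellFoundedLT I]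

variable (Z) in
/-- The iteration along `L` is well behaved. -/
def Sy (L : Set I) : Prop := Sys (mL L) (Cond Z L) fun p => p.S univ

section

variable {L : Set I} {p q : Pre Z I} {c : I}

theorem nul_union {A B : Set (I → W)} (h : Nul Z L A) (h' : Nul Z L B) : Nul Z L (A ∪ B) :=
  Null.of_two h h' fun _ a b => a.resolve_left b

theorem Sy.pos (h : Sy Z L) (hL : IsLowerSet L) {L' : Set I} (hp : p ∈ Cond Z L')
    {B : Set (I → W)} (hB : MeasurableSet[mL L] B) (hn : ¬ Nul Z L (p.S L ∩ B)) :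
    ∃ u ∈ Cond Z L, u ≤ p.res L ∧ Nul Z L (u.S univ \ B) :=
  Sys.pos h hB (Cond.res hp hL) (by rwa [S_res_univ])

theorem Sy.good (h : Sy Z (Iio c)) (hp : p ∈ Cond Z L) :
    ¬ Nul Z (Iio c) (p.S (Iio c) ∩ (p.d c).good) := by
  intro hn
  refine h.baire _ (Cond.res hp (isLowerSet_Iio c)) ?_
  simp only [S_res_univ]
  exact Null.of_two hn (Cond.nul hp c) fun ω a b => ⟨a, fun e => b ⟨a, e⟩⟩

theorem Sy.refine (h : Sy Z (Iio c)) (hL : IsLowerSet L) (hc : c ∈ L) (hq : q ∈ Cond Z L)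
    {d : Dat Z I} (hd : Adm c d) (hg : ∀ ω ∈ d.D, (d.r.ev ω).valid) (hle : ∀ ω, d.Le (q.d c) ω)
    (hn : ¬ Nul Z (Iio c) (q.S (Iio c) ∩ d.D)) : ∃ r ∈ Cond Z L, r ≤ q ∧ r.d c = d := by
  obtain ⟨u, u1, u2, u3⟩ := h.pos (isLowerSet_Iio c) hq hd.2 hn
  obtain ⟨r, r1, -, r2, r3, -⟩ := upd hL hc u1 hq u2 hd
    (u3.mono fun ω a => ⟨a.1, fun e => a.2 ⟨e, hg ω e⟩⟩) fun ω _ => hle ω
  exact ⟨r, r1, r2, r3⟩

theorem exists_max (hp : p ∈ Cond Z L) (hq : q ∈ Cond Z L) :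
    (p.F = ∅ ∧ q.F = ∅) ∨ ∃ c ∈ L, p ∈ Cond Z (Iic c) ∧ q ∈ Cond Z (Iic c) := by
  rcases (p.F ∪ q.F).eq_empty_or_nonempty with h | h
  · exact Or.inl (Finset.union_eq_empty.1 h)
  · refine Or.inr ⟨(p.F ∪ q.F).max' h, (Finset.mem_union.1 (Finset.max'_mem _ h)).elim
      (Cond.supp hp _) (Cond.supp hq _), Cond.of_supp hp fun c hc => ?_,
      Cond.of_supp hq fun c hc => ?_⟩
    exacts [Finset.le_max' _ c (Finset.mem_union_left _ hc),
      Finset.le_max' _ c (Finset.mem_union_right _ hc)]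

theorem le_of_empty (h : q.F = ∅) : p ≤ q := fun c _ _ => by
  rw [q.out c (by simp [h])]
  exact Dat.le_triv _ _

theorem sep_step (hL : IsLowerSet L) (ih : ∀ c ∈ L, Sy Z (Iio c)) (hp : p ∈ Cond Z L)
    (hq : q ∈ Cond Z L) : (∃ r ∈ Cond Z L, r ≤ p ∧ r ≤ q) ∨
      ∃ r ∈ Cond Z L, r ≤ p ∧ Disjoint (r.S univ) (q.S univ) := by
  rcases exists_max hp hq with ⟨-, h⟩ | ⟨c, hc, hp', hq'⟩
  · exact Or.inl ⟨p, hp, le_rfl, le_of_empty h⟩
  have hI := isLowerSet_Iio c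
  rcases (ih c hc).sep _ (Cond.res hp hI) _ (Cond.res hq hI) with ⟨r, r1, r2, r3⟩ | ⟨r, r1, r2, r3⟩
  swap
  · obtain ⟨s, s1, s2, s3, -⟩ := glue hI (hL.Iio_subset hc) r1 hp r2
    exact Or.inr ⟨s, s1, s3, r3.mono (S_mono s2 isLowerSet_univ)
      (S_mono (le_res q _) isLowerSet_univ)⟩
  let B : Set (I → W) := (p.d c).D ∩ (q.d c).D ∩ {ω | ((p.d c).r.ev ω).Compat ((q.d c).r.ev ω)}
  have a1 := Cond.adm hp c
  have a2 := Cond.adm hq c
  have hB : MeasurableSet[mL (Iio c)] B := (a1.2.inter a2.2).inter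
    (@Measurable.setOf _ (mL (Iio c)) _ (@meas_compat _ _ _ _ _ (mL (Iio c)) _ _ a1.1 a2.1))
  by_cases hn : Nul Z (Iio c) (r.S univ ∩ B)
  · obtain ⟨s, s1, s2, s3, s4, -⟩ := upd (d := ⟨(p.d c).r, (p.d c).D \ B⟩) hL hc r1 hp r2
      ⟨a1.1, a1.2.diff hB⟩ (Null.of_two hn (Cond.nul hp c) fun ω a b => ⟨by
        rw [← S_res_univ]
        exact S_mono r2 isLowerSet_univ a.1, fun e => a.2 ⟨⟨e.1, fun e' => b ⟨a.1, e'⟩⟩, e.2⟩⟩)
      fun ω _ e => ⟨e.1, le_rfl⟩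
    refine Or.inr ⟨s, s1, s3, disjoint_left.2 fun ω a b => ?_⟩
    have a3 := a c trivial
    rw [s4] at a3
    exact a3.1.2 ⟨⟨a3.1.1, (b c trivial).1⟩, Raw.compat_of_mem a3.2 (b c trivial).2⟩
  · obtain ⟨u, u1, u2, u3⟩ := Sys.pos (ih c hc) hB r1 hn
    let d : Dat Z I := ⟨(p.d c).r.meet (q.d c).r, B⟩
    have e : ∀ ω, d.r.ev ω = ((p.d c).r.ev ω).meet ((q.d c).r.ev ω) := fun ω => Raw.map_meet ..
    have s1 : u.snoc c d ∈ Cond Z (Iic c) := Cond.snoc u1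
      ⟨@Raw.Meas.meet _ _ _ _ _ (mL (Iio c)) _ _ a1.1 a2.1, hB⟩
      (u3.mono fun ω a => ⟨a.1, fun b => a.2 ⟨b, by rw [e]; exact b.2.1⟩⟩)
    exact Or.inl ⟨_, Cond.mono s1 (hL.Iic_subset hc),
      (snoc_le_res (d := d) u1 (u2.trans r2) fun ω _ (b : ω ∈ B) =>
        ⟨b.1.1, by rw [e]; exact b.2.2.1⟩).trans
        (res_le_self (Cond.supp hp')),
      (snoc_le_res (d := d) u1 (u2.trans r3) fun ω _ (b : ω ∈ B) =>
        ⟨b.1.2, by rw [e]; exact b.2.2.2⟩).trans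
        (res_le_self (Cond.supp hq'))⟩

theorem gen_step (hL : IsLowerSet L) (hc : c ∈ L) (k : ℕ) (hp : p ∈ Cond Z L) :
    ∃ q ∈ Cond Z L, q ≤ p ∧ (q.S univ ⊆ {ω | ω c k = true} ∨
      Disjoint (q.S univ) {ω | ω c k = true}) := by
  have hI := isLowerSet_Iio c
  let d : Dat Z I := ⟨⟨max (p.d c).r.n (k + 1), (p.d c).r.v.filter (· < (p.d c).r.n), (p.d c).r.b,
    (p.d c).r.t⟩, (p.d c).D⟩
  obtain ⟨q, q1, -, q2, q3, -⟩ := upd (d := d) hL hc (Cond.res hp hI) hp le_rfl (Cond.adm hp c)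
    (by rw [S_res_univ]; exact Cond.nul hp c) fun ω _ e => ⟨e, le_max_left _ _,
      fun j hj => by simpa [d, Raw.ev, Raw.map] using fun _ => hj,
      fun z _ j a1 _ _ a4 => absurd (Finset.mem_filter.1 a4).2 (not_lt.2 a1),
      fun _ h => h, fun _ h => h⟩
  have h1 : ∀ ω ∈ q.S univ, ω c k = true ↔ k ∈ d.r.v := fun ω hω => by
    have a := (hω c trivial).2
    rw [q3] at a
    exact a.1 k (lt_max_of_lt_right (Nat.lt_succ_self k))
  refine ⟨q, q1, q2, (Classical.em (k ∈ d.r.v)).imp (fun h ω hω => (h1 ω hω).2 h) fun h => ?_⟩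
  exact disjoint_left.2 fun ω hω e => h ((h1 ω hω).1 e)

theorem mL_le (L : Set I) : mL L ≤
    MeasurableSpace.generateFrom {B | ∃ c ∈ L, ∃ k, B = {ω : I → W | ω c k = true}} := by
  refine iSup₂_le fun c hc => Measurable.comap_le ?_
  refine @measurable_pi_lambda _ _ _ (MeasurableSpace.generateFrom _) _ _ fun k => ?_
  exact @measurable_to_bool _ (MeasurableSpace.generateFrom _) _
    (MeasurableSpace.measurableSet_generateFrom ⟨c, hc, k, rfl⟩)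

theorem imp_step (h : Sy Z (Iio c)) (hL : IsLowerSet L) (hc : c ∈ L) (hq : q ∈ Cond Z L) :
    ∃ r ∈ Cond Z L, r ≤ q ∧ ∀ ω ∈ (r.d c).D, ((q.d c).r.ev ω).Imp ((r.d c).r.ev ω) := by
  have a1 := Cond.adm hq c
  let g : ℕ × Finset ℕ → Raw ((I → W) → Z) := fun x => (q.d c).r.grow (fun i f => δ i ∘ f) x.1 x.2
  have e : ∀ x ω, (g x).ev ω = ((q.d c).r.ev ω).grow δ x.1 x.2 := fun x ω =>
    Raw.map_grow (fun f : (I → W) → Z => f ω) (dl' := δ) (fun _ _ => rfl) ..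
  have hg : ∀ x, @Raw.Meas _ _ _ (mL (Iio c)) (g x) := fun x =>
    @Raw.Meas.grow _ _ _ _ _ (mL (Iio c)) _ a1.1 _ _
  let B : ℕ × Finset ℕ → Set (I → W) := fun x => (q.d c).D ∩ {ω | ((g x).ev ω).valid ∧
    (g x).ev ω ≤ (q.d c).r.ev ω ∧ ((q.d c).r.ev ω).Imp ((g x).ev ω)}
  have hB : ∀ x, MeasurableSet[mL (Iio c)] (B x) := fun x => a1.2.inter
    (by
      let := mL (Iio c)
      exact Measurable.setOf ((meas_valid (hg x)).and
        ((meas_le a1.1 (hg x)).and (meas_imp a1.1 (hg x)))))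
  obtain ⟨x, hx⟩ := (Sys.ideal h).exists_pos (B := B) (h.good hq) fun ω hω => by
    obtain ⟨n, v, h1⟩ := Raw.exists_grow hω.2.2
    exact ⟨(n, v), hω.2.1, by simpa only [mem_ofPred, e] using h1⟩
  obtain ⟨r, r1, r2, r3⟩ := h.refine (d := ⟨g x, B x⟩) hL hc hq ⟨hg x, hB x⟩ (fun ω a => a.2.1)
    (fun ω a => ⟨a.1, a.2.2.1⟩) fun hn => hx (hn.mono fun ω a => ⟨a.1.1, a.2⟩)
  exact ⟨r, r1, r2, by rw [r3]; exact fun ω a => a.2.2.2⟩

theorem dense_fin {P : Type} [Preorder P] {V : Set P} {p : P} {O : I → Set P} (F : Finset I)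
    (h1 : ∀ c ∈ F, ∀ q ∈ O c, ∀ r ≤ q, r ∈ O c)
    (h2 : ∀ c ∈ F, ∀ q ∈ V, q ≤ p → ∃ r ∈ V, r ≤ q ∧ r ∈ O c) :
    ∀ q ∈ V, q ≤ p → ∃ r ∈ V, r ≤ q ∧ ∀ c ∈ F, r ∈ O c := by
  induction F using Finset.induction_on with
  | empty => exact fun q hq _ => ⟨q, hq, le_rfl, by simp⟩
  | insert a F _ ih =>
    intro q hq hqp
    obtain ⟨r, r1, r2, r3⟩ := h2 a (Finset.mem_insert_self _ _) q hq hqp
    obtain ⟨s, s1, s2, s3⟩ := ih (fun c hc => h1 c (Finset.mem_insert_of_mem hc))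
      (fun c hc => h2 c (Finset.mem_insert_of_mem hc)) r r1 (r2.trans hqp)
    refine ⟨s, s1, s2.trans r2, fun c hc => ?_⟩
    rcases Finset.mem_insert.1 hc with rfl | hc
    exacts [h1 c (Finset.mem_insert_self _ _) r r3 s s2, s3 c hc]

theorem baire_step (hL : IsLowerSet L) (ih : ∀ c ∈ L, Sy Z (Iio c)) (hp : p ∈ Cond Z L) :
    ¬ Nul Z L (p.S univ) := by
  rintro ⟨D, h1, h2⟩
  choose! DD d1 d2 using fun (q : Pre Z I) (hq : q ∈ Cond Z L) (c : I) => Cond.nul hq c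
  obtain ⟨s, s0, s1, s2, s3⟩ := exists_seq (V := Cond Z L) (fun p j => {q | (∃ d ∈ D j, q ≤ d) ∧
      ∀ c ∈ p.F, (∃ d ∈ DD p c j, q ≤ d) ∧ ∀ ω ∈ q.S (Iio c), ω ∈ (q.d c).D →
        ((p.d c).r.ev ω).Imp ((q.d c).r.ev ω)}) (fun p hp j q hq hqp => by
    obtain ⟨d, e1, e2⟩ := (h1 j).2 q hq
    obtain ⟨r, r1, r2, r3⟩ := dense_fin (V := Cond Z L) (p := p) (O := fun c => {q |
      (∃ d ∈ DD p c j, q ≤ d) ∧ ∀ ω ∈ q.S (Iio c), ω ∈ (q.d c).D →
        ((p.d c).r.ev ω).Imp ((q.d c).r.ev ω)}) p.F (by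
      rintro c - q ⟨⟨d, a1, a2⟩, a3⟩ r hr
      refine ⟨⟨d, a1, hr.trans a2⟩, fun ω b1 b2 => ?_⟩
      obtain ⟨b3, b4⟩ := hr c ω b1 b2
      obtain ⟨c1, c2, c3⟩ := a3 ω (S_mono hr (isLowerSet_Iio c) b1) b3
      refine ⟨c1.trans_le b4.1, fun z hz => ?_, fun z hz i hi => b4.2.2.2.1 _ (c3 z hz i hi)⟩
      obtain ⟨k, k1, k2, k3, k4⟩ := c2 z hz
      exact ⟨k, k1, k2.trans_le b4.1, k3, (b4.2.1 k k2).2 k4⟩) (by
      intro c hc q hq hqp
      have hc' := Cond.supp hp c hc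
      obtain ⟨d, a1, a2⟩ := (d1 p hp c j).2 _ (Cond.res hq (isLowerSet_Iio c))
      obtain ⟨u, u1, u2, u3, -⟩ := glue (isLowerSet_Iio c) (hL.Iio_subset hc')
        ((d1 p hp c j).1 a1) hq a2
      obtain ⟨r, r1, r2, r3⟩ := imp_step (ih c hc') hL hc' u1
      refine ⟨r, r1, r2.trans u3, ⟨d, a1, r2.trans u2⟩, fun ω b1 b2 => (r3 ω b2).left ?_⟩
      exact ((u3.trans hqp) c ω (S_mono r2 (isLowerSet_Iio c) b1) (r2 c ω b1 b2).1).2)
      d ((h1 j).1 e1) (e2.trans hqp)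
    exact ⟨r, r1, r2.trans e2, ⟨d, e1, r2⟩, r3⟩) hp
  let ω : I → W := WellFoundedLT.fix fun c rec => Classical.epsilon fun w =>
    ∀ k, w ∈ (((s k).d c).r.ev fun b => if h : b < c then rec b h else default).set
  have hω : ∀ c, ω c = Classical.epsilon fun w => ∀ k, w ∈ (((s k).d c).r.ev ω).set := by
    intro c
    have e : ∀ k, (((s k).d c).r.ev fun b => if b < c then ω b else default) =
        ((s k).d c).r.ev ω := fun k => ((Cond.adm (s1 k) c).ev_congr fun b hb => if_pos hb).2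
    simp only [← e]
    simp only [ω]
    rw [WellFoundedLT.fix_eq]
    rfl
  have key : ∀ c k, ((s k).d c).Ok ω (ω c) := by
    intro c
    induction c using WellFoundedLT.induction with
    | ind c IH =>
      have a1 : ∀ k, ω ∈ (s k).S (Iio c) := fun k b hb => IH b hb k
      have a2 : ∀ k, ω ∈ ((s k).d c).D := by
        intro k
        by_cases e : c ∈ (s k).F
        · by_contra hn
          obtain ⟨j, hj⟩ := d2 (s k) (s1 k) c ω ⟨a1 k, fun h => hn h.1⟩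
          obtain ⟨n, -, b1⟩ := s3 k j
          obtain ⟨d, b2, b3⟩ := (b1 c e).1
          refine hj d b2 ?_
          simp only [Cond.S_univ ((d1 (s k) (s1 k) c j).1 b2)]
          exact S_mono b3 (isLowerSet_Iio c) (a1 n)
        · rw [(s k).out c e]
          trivial
      have a3 : Antitone fun k => ((s k).d c).r.ev ω := fun k n h => (s2 h c ω (a1 n) (a2 n)).2
      have a4 : ∃ w, ∀ k, w ∈ (((s k).d c).r.ev ω).set := by
        by_cases e : ∀ k, ∃ n, k ≤ n ∧ c ∈ (s n).F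
        · refine Raw.cauchy a3 fun k => ?_
          obtain ⟨n, b1, b2⟩ := e k
          obtain ⟨m, -, b3⟩ := s3 n 0
          exact ⟨m, ((b3 c b2).2 ω (a1 m) (a2 m)).left (a3 b1)⟩
        · push Not at e
          obtain ⟨n, hn⟩ := e
          refine ⟨default, fun k => Raw.set_mono (a3 (le_max_left k n)) ?_⟩
          simp only [(s _).out c (hn _ (le_max_right k n))]
          exact (Dat.ok_triv ω _).2
      intro k
      refine ⟨a2 k, ?_⟩
      rw [hω]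
      exact Classical.epsilon_spec a4 k
  obtain ⟨j, hj⟩ := h2 ω (s0 ▸ fun c _ => key c 0)
  obtain ⟨n, ⟨d, b1, b2⟩, -⟩ := s3 0 j
  exact hj d b1 (S_mono b2 isLowerSet_univ fun c _ => key c n)

variable (c) in
/-- `u` is the least name of a point in its class on `S`. -/
def Can (S : Set (I → W)) (u : (I → W) → Z) : Prop :=
  Measurable[mL (Iio c)] u ∧ ∀ u', Measurable[mL (Iio c)] u' → WellOrderingRel u' u →
    Nul Z (Iio c) (S ∩ {ω | Rel (u' ω) (u ω)})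

variable (c) in
def Rep (S : Set (I → W)) (f : (I → W) → Z) (x : ((I → W) → Z) × ℕ) : Prop :=
  Can c S x.1 ∧ ∀ ω ∈ S, f ω = ε x.2 (x.1 ω)

theorem Rep.mono {S S' : Set (I → W)} {f : (I → W) → Z} {x : ((I → W) → Z) × ℕ} (h : Rep c S f x)
    (hS : S' ⊆ S) : Rep c S' f x :=
  ⟨⟨h.1.1, fun u' a b => (h.1.2 u' a b).mono (inter_subset_inter_left _ hS)⟩,
    fun ω hω => h.2 ω (hS hω)⟩

theorem canon (h : Sy Z (Iio c)) (l : List ((I → W) → Z)) (hl : ∀ f ∈ l, Measurable[mL (Iio c)] f)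
    {S : Set (I → W)} (hS : MeasurableSet[mL (Iio c)] S) (hn : ¬ Nul Z (Iio c) S) :
    ∃ S' ⊆ S, MeasurableSet[mL (Iio c)] S' ∧ ¬ Nul Z (Iio c) S' ∧ ∀ f ∈ l, ∃ x, Rep c S' f x := by
  induction l with
  | nil => exact ⟨S, subset_rfl, hS, hn, by simp⟩
  | cons f l ih =>
    obtain ⟨T, t1, t2, t3, t4⟩ := ih fun g hg => hl g (List.mem_cons_of_mem _ hg)
    have hf := hl f (List.mem_cons_self ..)
    obtain ⟨u, ⟨u1, u2⟩, u3⟩ := (IsWellFounded.wf (r := WellOrderingRel)).has_min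
      {u | Measurable[mL (Iio c)] u ∧ ¬ Nul Z (Iio c) (T ∩ {ω | Rel (u ω) (f ω)})}
      ⟨f, hf, fun e => t3 (e.mono fun ω a => ⟨a, Rel.refl _⟩)⟩
    obtain ⟨i, hi⟩ := (Sys.ideal h).exists_pos (B := fun i => {ω | ε i (u ω) = f ω}) u2
      fun ω a => a.2
    refine ⟨T ∩ {ω | ε i (u ω) = f ω}, inter_subset_left.trans t1, t2.inter
      (measurableSet_eq_fun ((measε i).comp u1) hf), fun e => hi (e.mono fun ω a => ⟨a.1.1, a.2⟩),
      fun g hg => ?_⟩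
    rcases List.mem_cons.1 hg with rfl | hg
    · refine ⟨(u, i), ⟨u1, fun u' a b => ?_⟩, fun ω a => a.2.symm⟩
      by_contra e
      exact u3 u' ⟨a, fun e' => e (e'.mono fun ω a => ⟨a.1.1, a.2.trans ⟨i, a.1.2⟩⟩)⟩ b
    · exact (t4 g hg).imp fun x hx => hx.mono inter_subset_left

/-- Determined conditions. -/
def Det (p : Pre Z I) : Prop := ∀ c, ∀ f ∈ (p.d c).r.b ++ (p.d c).r.t, ∃ x, Rep c (p.d c).D f x

theorem det_step (hL : IsLowerSet L) (ih : ∀ c ∈ L, Sy Z (Iio c))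
    (ih' : ∀ c ∈ L, ∀ p ∈ Cond Z (Iio c), ∃ q ∈ Cond Z (Iio c), q ≤ p ∧ Det q)
    (hp : p ∈ Cond Z L) : ∃ q ∈ Cond Z L, q ≤ p ∧ Det q := by
  rcases exists_max hp hp with ⟨h, -⟩ | ⟨c, hc, hp', -⟩
  · refine ⟨p, hp, le_rfl, fun c f hf => ?_⟩
    rw [p.out c (by simp [h])] at hf
    simp [Dat.triv, Raw.triv] at hf
  have a1 := Cond.adm hp c
  obtain ⟨T, t1, t2, t3, t4⟩ := canon (ih c hc) ((p.d c).r.b ++ (p.d c).r.t)
    (fun f hf => (List.mem_append.1 hf).elim (a1.1.1 f) (a1.1.2 f))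
    ((Cond.meas hp (isLowerSet_Iio c)).inter a1.good) ((ih c hc).good hp)
  obtain ⟨u, u1, u2, u3⟩ := (ih c hc).pos (isLowerSet_Iio c) hp t2
    fun e => t3 (e.mono fun ω a => ⟨(t1 a).1, a⟩)
  obtain ⟨v, v1, v2, v3⟩ := ih' c hc u u1
  obtain ⟨q, q1, -, q2, q3, q4, q5⟩ := upd (d := ⟨(p.d c).r, T⟩) hL hc v1 hp (v2.trans u2)
    ⟨a1.1, t2⟩ (u3.mono fun ω a => ⟨S_mono v2 isLowerSet_univ a.1, fun e => a.2 ⟨e, (t1 e).2.2⟩⟩)
    fun ω _ e => ⟨(t1 e).2.1, le_rfl⟩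
  refine ⟨q, q1, q2, fun b => ?_⟩
  rcases lt_trichotomy b c with e | rfl | e
  · rw [q4 b e]
    exact v3 b
  · rw [q3]
    exact t4
  · rw [q5 b e, p.out b fun h => absurd (Cond.supp hp' b h) (notMem_Iic.2 e)]
    simp [Dat.triv, Raw.triv]

theorem Raw.valid_meet {r r' : Raw Z} (h : r.valid) (h' : r'.valid)
    (h1 : ∀ z ∈ r.t, z ∈ r'.b → z ∈ r.b) (h2 : ∀ z ∈ r.t, ∀ z' ∈ r'.t, Rel z z' → z' ∈ r.t)
    (h3 : ∀ z ∈ r'.t, z ∈ r.b → z ∈ r'.b) : (r.meet r').valid := by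
  refine ⟨fun z hz hb => ?_, fun z hz i hi => ?_⟩
  · rcases List.mem_append.1 hz with a | a <;> rcases List.mem_append.1 hb with b | b
    exacts [h.1 z a b, h.1 z a (h1 z a b), h'.1 z a (h3 z a b), h'.1 z a b]
  · rcases List.mem_append.1 hz with a | a <;> rcases List.mem_append.1 hi with b | b
    exacts [h.2 z a i b, h.2 z a i (h2 z a _ b ⟨i + 1, rfl⟩),
      h.2 z (h2 _ b z a (Rel.symm ⟨i + 1, rfl⟩)) i b, h'.2 z a i b]

variable (c) in
noncomputable def rep (d : Dat Z I) (f : (I → W) → Z) : ((I → W) → Z) × ℕ :=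
  @Classical.epsilon _ ⟨(f, 0)⟩ (Rep c d.D f)

variable (c) in
noncomputable def col (d : Dat Z I) (l : List ((I → W) → Z)) (u : (I → W) → Z) : Finset ℕ :=
  ((l.filter fun f => (rep c d f).1 = u).map fun f => (rep c d f).2).toFinset

theorem col_transfer {d d' : Dat Z I} {l l' : List ((I → W) → Z)} {g : (I → W) → Z} (hg : g ∈ l')
    (h : col c d l (rep c d' g).1 = col c d' l' (rep c d' g).1) :
    ∃ f ∈ l, rep c d f = rep c d' g := by
  have h1 : (rep c d' g).2 ∈ col c d' l' (rep c d' g).1 := by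
    simp only [col, List.mem_toFinset, List.mem_map, List.mem_filter, decide_eq_true_eq]
    exact ⟨g, ⟨hg, rfl⟩, rfl⟩
  rw [← h] at h1
  simp only [col, List.mem_toFinset, List.mem_map, List.mem_filter, decide_eq_true_eq] at h1
  obtain ⟨f, ⟨a1, a2⟩, a3⟩ := h1
  exact ⟨f, a1, Prod.ext a2 a3⟩

theorem join_loc {d d' : Dat Z I} (h : ∀ f ∈ d.r.b ++ d.r.t, ∃ x, Rep c d.D f x)
    (h' : ∀ f ∈ d'.r.b ++ d'.r.t, ∃ x, Rep c d'.D f x)
    (ag : ∀ f ∈ d.r.b ++ d.r.t, ∀ g ∈ d'.r.b ++ d'.r.t, ∀ u, (rep c d f).1 = u →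
      (rep c d' g).1 = u → col c d d.r.b u = col c d' d'.r.b u ∧
        col c d d.r.t u = col c d' d'.r.t u) :
    Nul Z (Iio c) ((d.good ∩ d'.good) \ {ω | ((d.r.ev ω).meet (d'.r.ev ω)).valid}) := by
  have a : ∀ f ∈ d.r.b ++ d.r.t, Rep c d.D f (rep c d f) := fun f hf => epsilon_spec (h f hf)
  have a' : ∀ f ∈ d'.r.b ++ d'.r.t, Rep c d'.D f (rep c d' f) := fun f hf => epsilon_spec (h' f hf)
  have : Finite {f // f ∈ d.r.b ++ d.r.t} := (List.finite_toSet _).to_subtype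
  have : Finite {f // f ∈ d'.r.b ++ d'.r.t} := (List.finite_toSet _).to_subtype
  refine Null.of_cover (ι := {f // f ∈ d.r.b ++ d.r.t} × {f // f ∈ d'.r.b ++ d'.r.t})
    (B := fun x => {ω | ω ∈ d.D ∧ ω ∈ d'.D ∧ Rel (x.1.1 ω) (x.2.1 ω) ∧
      (rep c d x.1.1).1 ≠ (rep c d' x.2.1).1}) ?_ ?_
  · rintro ⟨⟨f, hf⟩, g, hg⟩
    have key : ∀ ω, ω ∈ d.D → ω ∈ d'.D → Rel (f ω) (g ω) →
        Rel ((rep c d f).1 ω) ((rep c d' g).1 ω) := fun ω b1 b2 b3 =>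
      (Rel.trans ⟨_, ((a f hf).2 ω b1).symm⟩ b3).trans (Rel.symm ⟨_, ((a' g hg).2 ω b2).symm⟩)
    rcases trichotomous_of WellOrderingRel (rep c d f).1 (rep c d' g).1 with e | e | e
    · exact ((a' g hg).1.2 _ (a f hf).1.1 e).mono fun ω b => ⟨b.2.1, key ω b.1 b.2.1 b.2.2.1⟩
    · exact null_empty.mono fun ω b => b.2.2.2 e
    · exact ((a f hf).1.2 _ (a' g hg).1.1 e).mono fun ω b => ⟨b.1, (key ω b.1 b.2.1 b.2.2.1).symm⟩
  · rintro ω ⟨⟨b1, b2⟩, b3⟩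
    by_contra hc
    have key : ∀ f ∈ d.r.b ++ d.r.t, ∀ g ∈ d'.r.b ++ d'.r.t, Rel (f ω) (g ω) →
        (rep c d f).1 = (rep c d' g).1 := fun f hf g hg e => by
      by_contra e'
      exact hc ⟨(⟨f, hf⟩, ⟨g, hg⟩), b1.1, b2.1, e, e'⟩
    have val : ∀ f ∈ d.r.b ++ d.r.t, ∀ g ∈ d'.r.b ++ d'.r.t, rep c d f = rep c d' g →
        f ω = g ω := fun f hf g hg e => by rw [(a f hf).2 ω b1.1, (a' g hg).2 ω b2.1, e]
    refine b3 (Raw.valid_meet b1.2 b2.2 (fun z h1 h2 => ?_) (fun z h1 z' h2 h3 => ?_)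
      fun z h1 h2 => ?_)
    · obtain ⟨f, f1, rfl⟩ := List.mem_map.1 h1
      obtain ⟨g, g1, g2⟩ := List.mem_map.1 h2
      have f3 := List.mem_append_right d.r.b f1
      have g3 := List.mem_append_left d'.r.t g1
      obtain ⟨k, k1, k2⟩ := col_transfer g1
        (ag f f3 g g3 _ (key f f3 g g3 (by rw [← g2]; exact Rel.refl _)) rfl).1
      exact List.mem_map.2 ⟨k, k1, (val k (List.mem_append_left _ k1) g g3 k2).trans g2⟩
    · obtain ⟨f, f1, rfl⟩ := List.mem_map.1 h1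
      obtain ⟨g, g1, rfl⟩ := List.mem_map.1 h2
      have f3 := List.mem_append_right d.r.b f1
      have g3 := List.mem_append_right d'.r.b g1
      obtain ⟨k, k1, k2⟩ := col_transfer g1 (ag f f3 g g3 _ (key f f3 g g3 h3) rfl).2
      exact List.mem_map.2 ⟨k, k1, val k (List.mem_append_right _ k1) g g3 k2⟩
    · obtain ⟨g, g1, rfl⟩ := List.mem_map.1 h1
      obtain ⟨f, f1, f2⟩ := List.mem_map.1 h2
      have f3 := List.mem_append_left d.r.t f1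
      have g3 := List.mem_append_right d'.r.b g1
      obtain ⟨k, k1, k2⟩ := col_transfer f1
        (ag f f3 g g3 _ rfl (key f f3 g g3 (by rw [← f2]; exact Rel.refl _)).symm).1.symm
      exact List.mem_map.2 ⟨k, k1, (val f f3 k (List.mem_append_left _ k1) k2.symm).symm.trans f2⟩

theorem Raw.meet_triv {X : Type} (r : Raw X) : r.meet Raw.triv = ⟨r.n, if r.n = 0 then ∅ else r.v,
    r.b, r.t⟩ := by simp [Raw.meet, Raw.triv]

theorem join (hp : p ∈ Cond Z L) (hq : q ∈ Cond Z L) (dp : Det p) (dq : Det q)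
    (h1 : ∀ c ∈ p.F, c ∈ q.F → (p.d c).r.n = (q.d c).r.n ∧ (p.d c).r.v = (q.d c).r.v)
    (h2 : ∀ c, ∀ f ∈ (p.d c).r.b ++ (p.d c).r.t, ∀ g ∈ (q.d c).r.b ++ (q.d c).r.t, ∀ u,
      (rep c (p.d c) f).1 = u → (rep c (q.d c) g).1 = u →
        col c (p.d c) (p.d c).r.b u = col c (q.d c) (q.d c).r.b u ∧
        col c (p.d c) (p.d c).r.t u = col c (q.d c) (q.d c).r.t u) :
    ∃ r ∈ Cond Z L, r ≤ p ∧ r ≤ q := by
  let r : Pre Z I := ⟨p.F ∪ q.F, fun c => if c ∈ p.F then if c ∈ q.F then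
      ⟨(p.d c).r.meet (q.d c).r, (p.d c).D ∩ (q.d c).D⟩ else p.d c else q.d c, fun c hc => by
    rw [Finset.mem_union, not_or] at hc
    rw [if_neg hc.1, q.out c hc.2]⟩
  have e1 : ∀ c ∈ p.F, c ∈ q.F → r.d c = ⟨(p.d c).r.meet (q.d c).r, (p.d c).D ∩ (q.d c).D⟩ :=
    fun c a b => by simp only [r, if_pos a, if_pos b]
  have e2 : ∀ c ∈ p.F, c ∉ q.F → r.d c = p.d c := fun c a b => by simp only [r, if_pos a, if_neg b]
  have e3 : ∀ c, c ∉ p.F → r.d c = q.d c := fun c a => by simp only [r, if_neg a]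
  have r1 : ∀ c ω, (r.d c).Le (p.d c) ω ∧ (r.d c).Le (q.d c) ω := by
    intro c ω
    by_cases a : c ∈ p.F
    · by_cases b : c ∈ q.F
      · rw [e1 c a b]
        have := Raw.meet_le_of_eq (r := (p.d c).r.ev ω) (r' := (q.d c).r.ev ω) (h1 c a b).1
          (h1 c a b).2
        rw [Raw.ev, Raw.ev, ← Raw.map_meet] at this
        exact ⟨fun e => ⟨e.1, this.1⟩, fun e => ⟨e.2, this.2⟩⟩
      · rw [e2 c a b, q.out c b]
        exact ⟨Dat.Le.rfl, Dat.le_triv _ _⟩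
    · rw [e3 c a, p.out c a]
      exact ⟨Dat.le_triv _ _, Dat.Le.rfl⟩
  have rp : r ≤ p := fun c ω _ => (r1 c ω).1
  have rq : r ≤ q := fun c ω _ => (r1 c ω).2
  refine ⟨r, cond_iff.2 ⟨fun c hc => (Finset.mem_union.1 hc).elim (Cond.supp hp c)
    (Cond.supp hq c), fun c => ?_⟩, rp, rq⟩
  have np := (Cond.nul hp c).mono (sdiff_subset_sdiff_left (S_mono rp (isLowerSet_Iio c)))
  have nq := (Cond.nul hq c).mono (sdiff_subset_sdiff_left (S_mono rq (isLowerSet_Iio c)))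
  by_cases a : c ∈ p.F
  · by_cases b : c ∈ q.F
    · rw [e1 c a b]
      refine ⟨⟨@Raw.Meas.meet _ _ _ _ _ (mL (Iio c)) _ _ (Cond.adm hp c).1 (Cond.adm hq c).1,
        (Cond.adm hp c).2.inter (Cond.adm hq c).2⟩, Null.of_two ((nul_union np nq))
          (join_loc (dp c) (dq c) (h2 c)) fun ω x y => ?_⟩
      have y1 := not_not.1 fun e => y (Or.inl ⟨x.1, e⟩)
      have y2 := not_not.1 fun e => y (Or.inr ⟨x.1, e⟩)
      refine ⟨⟨y1, y2⟩, fun e => x.2 ⟨⟨y1.1, y2.1⟩, ?_⟩⟩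
      rwa [mem_ofPred, Raw.ev, Raw.ev, ← Raw.map_meet] at e
    · rw [e2 c a b]
      exact ⟨Cond.adm hp c, np⟩
  · rw [e3 c a]
    exact ⟨Cond.adm hq c, nq⟩

theorem ccc_step (hd : ∀ p ∈ Cond Z L, ∃ q ∈ Cond Z L, q ≤ p ∧ Det q) (D : Set (Pre Z I))
    (hD : D ⊆ Cond Z L) :
    ∃ D' ⊆ D, D'.Countable ∧ ∀ p ∈ D, ∃ d ∈ D', ∃ r ∈ Cond Z L, r ≤ p ∧ r ≤ d := by
  choose! t t1 t2 t3 using hd
  obtain ⟨D', d1, d2, d3⟩ := MP_da5f1d_gt.ctbl_dense (I := I ⊕ I × ((I → W) → Z))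
    (γ := (ℕ × Finset ℕ) ⊕ Finset ℕ × Finset ℕ)
    (fun p => Sum.map (fun c => (((t p).d c).r.n, ((t p).d c).r.v))
      fun x => (col x.1 ((t p).d x.1) ((t p).d x.1).r.b x.2,
        col x.1 ((t p).d x.1) ((t p).d x.1).r.t x.2))
    (fun p => (t p).F.image Sum.inl ∪ (t p).F.biUnion fun c =>
      ((((t p).d c).r.b ++ ((t p).d c).r.t).map fun f =>
        Sum.inr (c, (rep c ((t p).d c) f).1)).toFinset) D
  refine ⟨D', d1, d2, fun p hp => ?_⟩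
  obtain ⟨q, q1, q2⟩ := d3 p hp
  have hp' := hD hp
  have hq' := hD (d1 q1)
  have mem : ∀ p : Pre Z I, ∀ c, ∀ f ∈ (p.d c).r.b ++ (p.d c).r.t,
      Sum.inr (c, (rep c (p.d c) f).1) ∈ p.F.image Sum.inl ∪ p.F.biUnion fun c =>
        (((p.d c).r.b ++ (p.d c).r.t).map fun f => Sum.inr (c, (rep c (p.d c) f).1)).toFinset := by
    intro p c f hf
    refine Finset.mem_union_right _ (Finset.mem_biUnion.2 ⟨c, ?_,
      List.mem_toFinset.2 (List.mem_map_of_mem hf)⟩)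
    by_contra e
    rw [p.out c e] at hf
    simp [Dat.triv, Raw.triv] at hf
  obtain ⟨r, r1, r2, r3⟩ := join (t1 p hp') (t1 q hq') (t3 p hp') (t3 q hq')
    (fun c a b => by
      simpa using q2 (Sum.inl c) (Finset.mem_union_left _ (Finset.mem_image_of_mem _ a))
        (Finset.mem_union_left _ (Finset.mem_image_of_mem _ b)))
    fun c f hf g hg u a b => by
      simpa using q2 (Sum.inr (c, u)) (a ▸ mem _ c f hf) (b ▸ mem _ c g hg)
  exact ⟨q, q1, r, r1, r2.trans (t2 p hp'), r3.trans (t2 q hq')⟩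

theorem sy_step (hL : IsLowerSet L) (ih : ∀ c ∈ L, Sy Z (Iio c) ∧
    ∀ p ∈ Cond Z (Iio c), ∃ q ∈ Cond Z (Iio c), q ≤ p ∧ Det q) :
    Sy Z L ∧ ∀ p ∈ Cond Z L, ∃ q ∈ Cond Z L, q ≤ p ∧ Det q := by
  have h1 := fun c hc => (ih c hc).1
  have h2 : ∀ p ∈ Cond Z L, ∃ q ∈ Cond Z L, q ≤ p ∧ Det q := fun p hp =>
    det_step hL h1 (fun c hc => (ih c hc).2) hp
  exact ⟨{ top := ⟨one, one_cond L, S_one _, fun p _ => le_one p⟩
           mono := fun p q h => S_mono h isLowerSet_univ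
           meas := fun p hp => by
             simp only [Cond.S_univ hp]
             exact Cond.meas hp hL
           baire := fun p hp => baire_step hL h1 hp
           sep := fun p hp q hq => sep_step hL h1 hp hq
           ccc := ccc_step h2
           gen := ⟨_, mL_le L, by
             rintro _ ⟨c, hc, k, rfl⟩ p hp
             exact gen_step hL hc k hp⟩ }, h2⟩

theorem sy (hL : IsLowerSet L) : Sy Z L := by
  refine (sy_step hL fun c hc => ?_).1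
  clear hc
  induction c using WellFoundedLT.induction with
  | ind c ih => exact sy_step (isLowerSet_Iio c) ih

theorem nul_ccc (hL : IsLowerSet L) : Ccc (mL L) (Nul Z L) := Sys.ideal (sy hL)

theorem not_nul_univ (hL : IsLowerSet L) : ¬ Nul Z L univ := by
  have := (sy hL).baire _ (one_cond (Z := Z) L)
  rwa [S_one] at this

end

end Pool.Agent.Lib.MP_00fb6a_lc.Pos
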