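import Mathlib
import Pool.Agent.Lib.MP_00fb6a_lc.Pos.Good

/-!
A Kuratowski-Ulam theorem for the iteration along order embeddings.
-/

set_option autoImplicit false
set_option linter.unusedSectionVars false

namespace Pool.Agent.Lib.MP_00fb6a_lc.Pos

open Set MeasureTheory Classical Pre Par Function

variable {Z : Type} [MeasurableSpace Z] [StandardBorelSpace Z] [Par Z] [Nonempty Z]
  {I : Type} [LinearOrder I] [WellFoundedLT I]

section

variable {L L' : Set I} {p q : Pre Z I} {a c : I}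

theorem not_nul_S (hL : IsLowerSet L) (hp : p ∈ Cond Z L) : ¬ Nul Z L (p.S univ) :=
  (sy hL).baire p hp

theorem exists_mem (hL : IsLowerSet L) (hp : p ∈ Cond Z L) : ∃ ω, ω ∈ p.S univ := by
  by_contra h
  exact not_nul_S hL hp (null_empty.mono fun ω hω => h ⟨ω, hω⟩)

theorem Cond.meas' (hL : IsLowerSet L) (hp : p ∈ Cond Z L) : MeasurableSet[mL L] (p.S univ) :=
  (sy hL).meas p hp

theorem Nul.down (hL : IsLowerSet L) (hL' : IsLowerSet L') (h : L ⊆ L') {A : Set (I → W)}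
    (hA : MeasurableSet[mL L] A) (hn : Nul Z L' A) : Nul Z L A := by
  by_contra hc
  obtain ⟨u, u1, u2⟩ := (sy hL).pos' hA hc
  exact not_nul_S hL' (Cond.mono u1 h) (Null.of_two hn (Nul.up hL h u2) fun ω a b => ⟨a, b⟩)

theorem ok_update {d : Dat Z I} (h : Adm c d) (hc : c ≤ a) (ω : I → W) (w w' : W) :
    d.Ok (update ω a w) w' ↔ d.Ok ω w' := by
  have := h.ev_congr (ω := update ω a w) (ω' := ω) fun b hb => update_of_ne (hb.trans_le hc).ne ..
  simp only [Dat.Ok, this.1, this.2]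

theorem mem_S_update (hq : q ∈ Cond Z L) (ω : I → W) (w : W) :
    update ω a w ∈ q.S (Iic a) ↔ ω ∈ q.S (Iio a) ∧ (q.d a).Ok ω w := by
  constructor
  · intro h
    refine ⟨fun c hc => ?_, ?_⟩
    · have := (ok_update (Cond.adm hq c) (le_of_lt hc) ..).1 (h c (le_of_lt hc))
      rwa [update_of_ne (ne_of_lt hc)] at this
    · have := (ok_update (Cond.adm hq a) le_rfl ..).1 (h a self_mem_Iic)
      rwa [update_self] at this
  · rintro ⟨h1, h2⟩ c hc
    rw [ok_update (Cond.adm hq c) hc]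
    rcases lt_or_eq_of_le (show c ≤ a from hc) with e | rfl
    · rw [update_of_ne e.ne]
      exact h1 c e
    · rwa [update_self]

theorem map_getD_range {X : Type} (l : List X) (x : X) :
    (List.range l.length).map (fun i => l.getD i x) = l :=
  List.ext_getElem (by simp) fun i h1 h2 => by simp [h2]

theorem ku {B : Set (I → W)} (h : Nul Z (Iic a) B) :
    Nul Z (Iio a) {ω | ¬ Null1 Z {w | update ω a w ∈ B}} := by
  obtain ⟨D, h1, h2⟩ := h
  choose E e1 e2 e3 e4 using fun k => (sy (isLowerSet_Iic a)).predense (h1 k)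
  let rr : ℕ × Finset ℕ × ℕ × ℕ → Raw ((I → W) × (ℕ → Z) × (ℕ → Z) → Z) := fun x =>
    ⟨x.1, x.2.1, (List.range x.2.2.1).map fun i θ => θ.2.1 i,
      (List.range x.2.2.2).map fun i θ => θ.2.2 i⟩
  let R : ℕ × ℕ × Finset ℕ × ℕ × ℕ → Set ((I → W) × (ℕ → Z) × (ℕ → Z)) := fun x =>
    {θ | ((rr x.2).ev θ).valid} ∩ ⋂ q ∈ E x.1, {θ | θ.1 ∈ q.S (Iio a) ∧ θ.1 ∈ (q.d a).D ∧
      ((rr x.2).ev θ).Compat ((q.d a).r.ev θ.1)}ᶜ
  have hR : ∀ x, MeasurableSet[(mL (Iio a)).prod inferInstance] (R x) := by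
    intro x
    let m : MeasurableSpace (I → W) := mL (Iio a)
    have hr : (rr x.2).Meas := by
      constructor <;> intro f hf <;> obtain ⟨i, -, rfl⟩ := List.mem_map.1 hf <;> fun_prop
    refine (meas_valid hr).setOf.inter (MeasurableSet.biInter (e3 _) fun q hq => ?_)
    have a1 := Cond.adm (e1 _ hq) a
    have a2 := meas_compat hr (a1.1.comp (measurable_fst (β := (ℕ → Z) × (ℕ → Z))))
    simp only [Raw.ev, Raw.map_map] at a2
    exact ((measurable_fst (Cond.meas (e1 _ hq) (isLowerSet_Iio a))).inter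
      ((measurable_fst a1.2).inter a2.setOf)).compl
  have key : ∀ x, Nul Z (Iio a) {ω | ∃ y, (ω, y) ∈ R x} := by
    intro x
    by_contra hc
    obtain ⟨g, g1, g2, g3⟩ := (nul_ccc (isLowerSet_Iio a)).unif_pos (hR x) hc
    obtain ⟨u, u1, u2⟩ := (sy (isLowerSet_Iio a)).pos' g2 g3
    let d : Dat Z I := ⟨(rr x.2).map fun f ω => f (ω, g ω), {ω | (ω, g ω) ∈ R x}⟩
    have e : ∀ ω, d.r.ev ω = (rr x.2).ev (ω, g ω) := fun ω => Raw.map_map ..
    have hd : Adm a d := by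
      refine ⟨?_, g2⟩
      let m : MeasurableSpace (I → W) := mL (Iio a)
      constructor <;> intro f hf <;> obtain ⟨f', hf', rfl⟩ := List.mem_map.1 hf <;>
        obtain ⟨i, -, rfl⟩ := List.mem_map.1 hf' <;> fun_prop
    obtain ⟨q, q1, r, r1, r2, r3⟩ := e4 x.1 _ (Cond.snoc u1 hd
      (u2.mono fun ω b => ⟨b.1, fun b' => b.2 ⟨b', by rw [e]; exact b'.1⟩⟩))
    obtain ⟨ω, hω⟩ := exists_mem (isLowerSet_Iic a) r1
    have b1 := S_mono r2 isLowerSet_univ hω a trivial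
    have b2 := S_mono r3 isLowerSet_univ hω
    rw [snoc_d] at b1
    refine mem_iInter₂.1 b1.1.2 q q1 ⟨S_anti q (subset_univ _) b2, (b2 a trivial).1, ?_⟩
    rw [← e]
    exact Raw.compat_of_mem b1.2 (b2 a trivial).2
  refine Null.of_cover key fun ω hω => ?_
  by_contra hc
  refine hω ⟨fun k => {r | r.valid ∧ ∃ q ∈ E k, ω ∈ q.S (Iio a) ∧ ω ∈ (q.d a).D ∧
    r ≤ (q.d a).r.ev ω}, fun k => ⟨fun _ h => h.1, fun r hr => ?_⟩, fun w hw => ?_⟩
  · have z : Z := Classical.arbitrary Z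
    let y : (ℕ → Z) × (ℕ → Z) := (fun i => r.b.getD i z, fun i => r.t.getD i z)
    have e : (rr (r.n, r.v, r.b.length, r.t.length)).ev (ω, y) = r := by
      refine Raw.ext rfl rfl ?_ ?_ <;> simp only [rr, Raw.ev, Raw.map, List.map_map] <;>
        exact map_getD_range ..
    by_contra hn
    refine hc ⟨(k, r.n, r.v, r.b.length, r.t.length), y, by rwa [mem_ofPred, e],
      mem_iInter₂.2 fun q hq b => hn ?_⟩
    obtain ⟨b1, b2, b3⟩ := b
    rw [e] at b3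
    exact ⟨_, ⟨b3.1, q, hq, b1, b2, b3.2.2⟩, b3.2.1⟩
  · obtain ⟨k, hk⟩ := h2 _ hw
    refine ⟨k, fun r ⟨_, q, q1, q2, q3, q4⟩ b => hk q (e2 k q1) ?_⟩
    simp only [Cond.S_univ (e1 k q1)]
    exact (mem_S_update (e1 k q1) ω w).2 ⟨q2, q3, Raw.set_mono q4 b⟩

theorem ku_conv {B : Set (I → W)} (hB : MeasurableSet[mL (Iic a)] B)
    (h : Nul Z (Iio a) {ω | ¬ Null1 Z {w | update ω a w ∈ B}}) : Nul Z (Iic a) B := by
  by_contra hc
  obtain ⟨q, q1, q2⟩ := (sy (isLowerSet_Iic a)).pos' hB hc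
  obtain ⟨ω, ⟨b1, b2⟩, b3⟩ := (nul_ccc (isLowerSet_Iio a)).exists_pt
    ((sy (isLowerSet_Iio a)).good q1) (nul_union h (ku q2))
  refine baire1 b2.2 (Null.of_two (not_not.1 fun e => b3 (Or.inl e))
    (not_not.1 fun e => b3 (Or.inr e)) fun w hw e => ⟨?_, e⟩)
  simp only [Cond.S_univ q1]
  exact (mem_S_update q1 ω w).2 ⟨b1, b2.1, hw⟩

/-- Almost every point selects an element of a given class at a given stage. -/
theorem nul_cover (a : I) (z : Z) : Nul Z univ {ω : I → W | ¬ ∃ i, Top (ω a) (ε i z)} := by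
  refine null_of_dense fun p hp => ?_
  have a1 := Cond.adm hp a
  let r : ℕ → Raw ((I → W) → Z) := fun i =>
    ⟨(p.d a).r.n, (p.d a).r.v, (p.d a).r.b, (fun _ => ε i z) :: (p.d a).r.t⟩
  have hr : ∀ i, @Raw.Meas _ _ _ (mL (Iio a)) (r i) := fun i => ⟨a1.1.1, fun f hf => by
    rcases List.mem_cons.1 hf with rfl | hf
    exacts [measurable_const, a1.1.2 f hf]⟩
  let B : ℕ → Set (I → W) := fun i => (p.d a).D ∩ {ω | ((r i).ev ω).valid}
  have hB : ∀ i, MeasurableSet[mL (Iio a)] (B i) := fun i => Adm.good (d := ⟨r i, _⟩) ⟨hr i, a1.2⟩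
  have h := sy (Z := Z) (isLowerSet_Iio a)
  obtain ⟨i, hi⟩ := (Sys.ideal h).exists_pos (B := B) (h.good hp) fun ω hω => by
    have v := hω.2.2
    have e : ∀ i, ((r i).ev ω).t = ε i z :: ((p.d a).r.ev ω).t := fun _ => rfl
    have e' : ∀ i, ((r i).ev ω).b = ((p.d a).r.ev ω).b := fun _ => rfl
    by_cases hz : ∃ i, ε i z ∈ ((p.d a).r.ev ω).t
    · obtain ⟨i, hi⟩ := hz
      have h1 : ∀ x ∈ ((r i).ev ω).t, x ∈ ((p.d a).r.ev ω).t := fun x hx => by
        rcases List.mem_cons.1 (e i ▸ hx) with rfl | hx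
        exacts [hi, hx]
      exact ⟨i, hω.2.1, fun x hx => v.1 x (h1 x hx), fun x hx k hk => v.2 x (h1 x hx) k (h1 _ hk)⟩
    · obtain ⟨_, ⟨i, rfl⟩, hi⟩ := (infc z).exists_notMem_finite
        (List.finite_toSet ((p.d a).r.ev ω).b)
      have h1 : ∀ x, Rel z x → x ∉ ((p.d a).r.ev ω).t := fun x ⟨j, hj⟩ hx => hz ⟨j, hj ▸ hx⟩
      have h2 : Rel z (δ i z) := ⟨i + 1, rfl⟩
      refine ⟨i + 1, hω.2.1, fun x hx => ?_, fun x hx k hk => ?_⟩
      · rcases List.mem_cons.1 (e _ ▸ hx) with rfl | hx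
        exacts [hi, v.1 x hx]
      · rcases List.mem_cons.1 (e _ ▸ hx) with rfl | hx <;>
          rcases List.mem_cons.1 (e _ ▸ hk) with hk | hk
        · exact Par.ne k _ hk
        · exact h1 _ (h2.trans ⟨k + 1, rfl⟩) hk
        · exact h1 x (h2.trans (Rel.symm ⟨k + 1, hk⟩)) hx
        · exact v.2 x hx k hk
  obtain ⟨q, q1, q2, q3⟩ := h.refine (d := ⟨r i, B i⟩) isLowerSet_univ trivial hp ⟨hr i, hB i⟩
    (fun ω b => b.2) (fun ω b => ⟨b.1, le_rfl, fun _ _ => Iff.rfl,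
      fun _ _ _ h h' => absurd h' (not_lt.2 h), fun _ h => h, fun _ h => List.mem_cons_of_mem _ h⟩)
    fun hn => hi (hn.mono fun ω b => ⟨b.1.1, b.2⟩)
  refine ⟨q, q1, q2, fun ω hω hn => hn ⟨i, ?_⟩⟩
  have := (hω a trivial).2
  rw [q3] at this
  exact this.2.2 _ (List.mem_cons_self ..)

end

section sub

variable {I2 : Type} [LinearOrder I2] [WellFoundedLT I2] (L Lm : Set I2) (e : I2 → I)

/-- Substitution of the coordinates in `Lm \ L` along `e`. -/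
noncomputable def Phi (ρ : I2 → W) (ω : I → W) : I2 → W :=
  fun c => if c ∈ Lm \ L then ω (e c) else ρ c

/-- The pull-back of a lower set. -/
def pre (M : Set I) : Set I2 := {c | c ∈ L ∨ (c ∈ Lm ∧ e c ∈ M)}

theorem meas_Phi (M : Set I) (ρ : I2 → W) :
    Measurable[mL M, mL (pre L Lm e M)] (Phi L Lm e ρ) := by
  refine (@measurable_cylinderEvents_iff _ _ _ (mL M) _ _ _).2 fun c hc => ?_
  unfold Phi
  split_ifs with h
  · exact measurable_cylinderEvent_apply (hc.resolve_left h.2).2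
  · exact measurable_const

variable {L Lm e} (hL : IsLowerSet L) (hLm : IsLowerSet Lm) (he : StrictMonoOn e (Lm \ L))

include hL hLm he

theorem lower_pre {M : Set I} (hM : IsLowerSet M) : IsLowerSet (pre L Lm e M) := by
  intro c b hb hc
  by_cases h : b ∈ L
  · exact Or.inl h
  · have h1 : c ∉ L := fun h' => h (hL hb h')
    have h2 := hc.resolve_left h1
    exact Or.inr ⟨hLm hb h2.1, hM (he.monotoneOn ⟨hLm hb h2.1, h⟩ ⟨h2.1, h1⟩ hb) h2.2⟩

theorem pre_Iio {c : I2} (hc : c ∈ Lm \ L) : pre L Lm e (Iio (e c)) = Iio c := by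
  ext b
  have h1 : b ∈ L → b < c := fun h => not_le.1 fun h' => hc.2 (hL h' h)
  constructor
  · intro h
    by_cases h2 : b ∈ L
    · exact h1 h2
    · exact (he.lt_iff_lt ⟨(h.resolve_left h2).1, h2⟩ hc).1 (h.resolve_left h2).2
  · intro h
    by_cases h2 : b ∈ L
    · exact Or.inl h2
    · exact Or.inr ⟨hLm (le_of_lt h) hc.1, he ⟨hLm (le_of_lt h) hc.1, h2⟩ hc h⟩

theorem meas_Phi_Iic {c : I2} (hc : c ∈ Lm \ L) (ρ : I2 → W) {B : Set (I2 → W)}
    (hB : MeasurableSet[mL (Iic c)] B) : MeasurableSet[mL (Iic (e c))] (Phi L Lm e ρ ⁻¹' B) :=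
  meas_Phi L Lm e _ ρ (cylinderEvents_mono ((lower_pre hL hLm he (isLowerSet_Iic _)).Iic_subset
    (Or.inr ⟨hc.1, self_mem_Iic⟩)) _ hB)

theorem phi_update {c : I2} (hc : c ∈ Lm \ L) (ρ : I2 → W) (ω : I → W) (w : W) :
    Phi L Lm e ρ (update ω (e c) w) = update (Phi L Lm e ρ ω) c w := by
  funext b
  by_cases h : b = c
  · subst h
    simp [Phi, hc.1, hc.2]
  · rw [update_of_ne h]
    unfold Phi
    split_ifs with h'
    · exact update_of_ne (fun e' => h (he.injOn h' hc e')) ..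
    · rfl

theorem tail {M : Set I} (hM : IsLowerSet M) {ρ : I2 → W} {q : Pre Z I2}
    (hq : q ∈ Cond Z (pre L Lm e M)) {K0 : Set I2} (hK0 : IsLowerSet K0) (hLK : L ⊆ K0)
    {A : Set (I → W)} (hA : ∀ c ∈ q.F, c ∉ K0 → MeasurableSet[mL (Iio (e c))] A)
    (H : ∀ c ∈ q.F, c ∉ L → Nul Z (Iio (e c)) (Phi L Lm e ρ ⁻¹' (q.S (Iio c) \ (q.d c).good)))
    (h0 : ¬ Nul Z M (A ∩ Phi L Lm e ρ ⁻¹' q.S K0)) : ¬ Nul Z M (A ∩ Phi L Lm e ρ ⁻¹' q.S univ) := by
  have step : ∀ K : Set I2, (∀ c ∈ q.F, c ∉ K0 → c ∈ K →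
      ¬ Nul Z M (A ∩ Phi L Lm e ρ ⁻¹' q.S (Iio c))) → ¬ Nul Z M (A ∩ Phi L Lm e ρ ⁻¹' q.S K) := by
    intro K ih hn
    rcases (q.F.filter fun c => c ∉ K0 ∧ c ∈ K).eq_empty_or_nonempty with h | h
    · refine h0 (hn.mono (inter_subset_inter_right _ (preimage_mono (S_of_supp fun c h1 h2 => ?_))))
      by_contra h3
      exact Finset.notMem_empty c (h ▸ Finset.mem_filter.2 ⟨h1, h3, h2⟩)
    obtain ⟨c, c1, c2⟩ := Finset.exists_max_image _ id h
    obtain ⟨c3, c4, c5⟩ := Finset.mem_filter.1 c1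
    have c6 : c ∉ L := fun h => c4 (hLK h)
    have c7 := (Cond.supp hq c c3).resolve_left c6
    have hc : c ∈ Lm \ L := ⟨c7.1, c6⟩
    have h1 : Nul Z M (A ∩ Phi L Lm e ρ ⁻¹' q.S (Iic c)) :=
      hn.mono (inter_subset_inter_right _ (preimage_mono (S_of_supp fun b h1 h2 => by
        by_cases h3 : b ∈ K0
        · exact le_of_not_ge fun h4 => c4 (hK0 h4 h3)
        · exact c2 b (Finset.mem_filter.2 ⟨h1, h3, h2⟩))))
    have h2 := ku (Nul.down (isLowerSet_Iic _) hM (hM.Iic_subset c7.2)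
      ((cylinderEvents_mono Iio_subset_Iic_self _ (hA c c3 c4)).inter
        (meas_Phi_Iic hL hLm he hc ρ (Cond.meas hq (isLowerSet_Iic c)))) h1)
    refine ih c c3 c4 c5 (Nul.up (isLowerSet_Iio _) (hM.Iio_subset c7.2)
      (Null.of_two (H c c3 c6) h2 fun ω b1 b2 b3 => ?_))
    have b4 : Phi L Lm e ρ ω ∈ (q.d c).good := not_not.1 fun h => b2 ⟨b1.2, h⟩
    refine baire1 b4.2 (b3.mono fun w hw => ⟨?_, ?_⟩)
    · exact (det_set (hA c c3 c4) fun b hb => update_of_ne (ne_of_lt hb) ..).2 b1.1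
    · rw [mem_preimage, phi_update hL hLm he hc, mem_S_update hq]
      exact ⟨b1.2, b4.1, hw⟩
  refine step univ fun c _ _ _ => ?_
  clear * - step
  induction c using WellFoundedLT.induction with
  | ind c ih => exact step _ fun b _ _ hb => ih b hb

theorem sub_step {M : Set I} (hM : IsLowerSet M) (ih : ∀ a ∈ M, ∀ B, Nul Z (pre L Lm e (Iio a)) B →
    Nul Z L {ρ | ¬ Nul Z (Iio a) (Phi L Lm e ρ ⁻¹' B)}) {B : Set (I2 → W)}
    (hB : Nul Z (pre L Lm e M) B) : Nul Z L {ρ | ¬ Nul Z M (Phi L Lm e ρ ⁻¹' B)} := by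
  have hP := lower_pre hL hLm he hM
  have up : ∀ a ∈ M, Nul Z (pre L Lm e (Iio a)) B →
      Nul Z L {ρ | ¬ Nul Z M (Phi L Lm e ρ ⁻¹' B)} := fun a ha h =>
    (ih a ha B h).mono fun ρ h1 h2 => h1 (Nul.up (isLowerSet_Iio a) (hM.Iio_subset ha) h2)
  have ih' : ∀ c ∈ Lm \ L, e c ∈ M → ∀ B, Nul Z (Iio c) B →
      Nul Z L {ρ | ¬ Nul Z (Iio (e c)) (Phi L Lm e ρ ⁻¹' B)} := fun c hc h B hB =>
    ih _ h B (by rwa [pre_Iio hL hLm he hc])
  let U : Set I2 := {c | c ∈ Lm \ L ∧ e c ∈ M}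
  have hU : ∀ c ∈ pre L Lm e M, c ∉ L → c ∈ U := fun c h1 h2 =>
    ⟨⟨(h1.resolve_left h2).1, h2⟩, (h1.resolve_left h2).2⟩
  have hU' : ∀ c ∈ U, c ∈ pre L Lm e M := fun c h => Or.inr ⟨h.1.1, h.2⟩
  have hLU : ∀ c ∈ U, ∀ b ∈ L, b < c := fun c hc b hb => not_le.1 fun h => hc.1.2 (hL h hb)
  by_cases c1 : ∃ a ∈ M, ∀ c ∈ U, e c < a
  · obtain ⟨a, a1, a2⟩ := c1
    refine up a a1 (Nul.up hP (fun c hc => ?_) hB)
    by_cases h : c ∈ L
    exacts [Or.inl h, Or.inr ⟨(hU c hc h).1.1, a2 c (hU c hc h)⟩]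
  rcases U.eq_empty_or_nonempty with c2 | c2
  · have e1 : pre L Lm e M = L := Subset.antisymm (fun c hc => by
      by_contra h
      exact notMem_empty c (c2 ▸ hU c hc h)) fun c hc => Or.inl hc
    rw [e1] at hB
    obtain ⟨B', b1, b2, b3⟩ := (nul_ccc hL).cover hB
    refine b3.mono fun ρ h => not_not.1 fun h' => h (null_empty.mono fun ω hω => h' ?_)
    exact (det_set b1 fun c hc => if_neg fun h => h.2 hc).1 (b2 hω)
  by_cases c3 : ∃ c ∈ U, ∀ b ∈ U, b ≤ c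
  · obtain ⟨c, a1, a2⟩ := c3
    have e1 : pre L Lm e M = Iic c := Subset.antisymm (fun b hb => by
      by_cases h : b ∈ L
      exacts [(hLU c a1 b h).le, a2 b (hU b hb h)]) (hP.Iic_subset (hU' c a1))
    rw [e1] at hB
    obtain ⟨B', b1, b2, b3⟩ := (nul_ccc (isLowerSet_Iic c)).cover hB
    refine (ih' c a1.1 a1.2 _ (ku b3)).mono fun ρ h h' => h ?_
    refine (Nul.up (isLowerSet_Iic _) (hM.Iic_subset a1.2)
      (ku_conv (meas_Phi_Iic hL hLm he a1.1 ρ b1) ?_)).mono (preimage_mono b2)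
    simp only [mem_preimage, phi_update hL hLm he a1.1]
    exact h'
  push Not at c1 c3
  obtain ⟨D, h1, h2⟩ := hB
  choose E e1 e2 e3 e4 using fun k => (sy hP).predense (h1 k)
  have hBE : ∀ ω ∈ B, ∃ k, ω ∈ (⋃ q ∈ E k, q.S univ)ᶜ := fun ω hω =>
    (h2 ω hω).imp fun k hk h => by
      obtain ⟨q, q1, q2⟩ := mem_iUnion₂.1 h
      exact hk q (e2 k q1) q2
  have hN : ∀ k, ∀ c ∈ U, Nul Z (Iio c) (⋃ q ∈ E k, q.S (Iio c))ᶜ := by
    intro k c hc
    refine null_of_dense fun p hp => ?_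
    obtain ⟨q, q1, r, r1, r2, r3⟩ := e4 k p (Cond.mono hp (hP.Iio_subset (hU' c hc)))
    refine ⟨_, Cond.res r1 (isLowerSet_Iio c), res_le r2 (isLowerSet_Iio c) (Cond.supp hp),
      fun ω hω h => h (mem_biUnion q1 (S_mono r3 (isLowerSet_Iio c) ?_))⟩
    rwa [S_res_univ] at hω
  let C : Set (ℕ × Pre Z I2 × I2) := {x | x.2.1 ∈ E x.1 ∧ x.2.2 ∈ x.2.1.F ∧ x.2.2 ∉ L}
  have hCU : ∀ x ∈ C, x.2.2 ∈ U := fun x hx => hU _ (Cond.supp (e1 _ hx.1) _ hx.2.1) hx.2.2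
  by_cases c4 : ∃ c ∈ U, ∀ x ∈ C, x.2.2 < c
  · obtain ⟨c, a1, a2⟩ := c4
    refine up _ a1.2 ?_
    rw [pre_Iio hL hLm he a1.1]
    refine Null.of_cover (fun k => hN k c a1) fun ω hω => (hBE ω hω).imp fun k hk h => hk ?_
    obtain ⟨q, q1, q2⟩ := mem_iUnion₂.1 h
    refine mem_biUnion q1 (S_of_supp (fun b b1 _ => ?_) q2)
    by_cases h : b ∈ L
    exacts [hLU c a1 b h, a2 (k, q, b) ⟨q1, b1, h⟩]
  push Not at c4
  have hC : C.Countable := by
    refine (countable_iUnion fun k => (e3 k).biUnion fun q _ =>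
      (q.F.countable_toSet.image fun b => (k, q, b))).mono ?_
    rintro ⟨k, q, b⟩ hx
    exact mem_iUnion.2 ⟨k, mem_biUnion hx.1 ⟨b, hx.2.1, rfl⟩⟩
  have := hC.to_subtype
  refine Null.of_two (Null.cnt fun x : ℕ × C => ih' _ (hCU _ x.2.2).1 (hCU _ x.2.2).2 _
    (hN x.1 _ (hCU _ x.2.2))) (Null.cnt fun x : C => ih' _ (hCU _ x.2).1 (hCU _ x.2).2 _
      (Cond.nul (e1 _ x.2.1) x.1.2.2)) fun ρ hρ g1 => ?_
  by_contra g2
  simp only [mem_iUnion, mem_ofPred, not_exists, not_not] at g1 g2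
  refine hρ (Null.of_cover (B := fun k => Phi L Lm e ρ ⁻¹' (⋃ q ∈ E k, q.S univ)ᶜ) (fun k => ?_)
    fun ω hω => hBE _ hω)
  by_contra hc
  obtain ⟨u, u1, u2⟩ := (sy hM).pos' (meas_Phi L Lm e M ρ
    (MeasurableSet.biUnion (e3 k) fun q hq => Cond.meas' hP (e1 k hq)).compl) hc
  obtain ⟨x, x1, x2⟩ : ∃ x ∈ C, ∀ a ∈ u.F, a < e x.2.2 := by
    have a1 : ∀ c ∈ U, ∃ x ∈ C, e c < e x.2.2 := fun c hc => by
      obtain ⟨b, b1, b2⟩ := c3 c hc
      obtain ⟨x, x1, x2⟩ := c4 b b1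
      exact ⟨x, x1, he hc.1 (hCU x x1).1 (b2.trans_le x2)⟩
    rcases u.F.eq_empty_or_nonempty with h | h
    · obtain ⟨x, x1, -⟩ := a1 _ c2.some_mem
      exact ⟨x, x1, by simp [h]⟩
    · obtain ⟨c, b1, b2⟩ := c1 _ (Cond.supp u1 _ (u.F.max'_mem h))
      obtain ⟨x, x1, x2⟩ := a1 c b1
      exact ⟨x, x1, fun a ha => ((u.F.le_max' a ha).trans b2).trans_lt x2⟩
  have x3 := hCU x x1
  have u3 : MeasurableSet[mL (Iio (e x.2.2))] (u.S univ) :=
    Cond.meas' (isLowerSet_Iio _) (Cond.of_supp u1 x2)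
  have := (e3 k).to_subtype
  obtain ⟨q, hq⟩ : ∃ q : E k, ¬ Nul Z M (u.S univ ∩ Phi L Lm e ρ ⁻¹' q.1.S (Iio x.2.2)) := by
    by_contra h
    push Not at h
    refine not_nul_S hM u1 (Null.of_two (Nul.up (isLowerSet_Iio _) (hM.Iio_subset x3.2)
      (g1 (k, ⟨x, x1⟩))) (Null.cnt h) fun ω b1 b2 => ?_)
    obtain ⟨q, q1, q2⟩ := mem_iUnion₂.1 (not_not.1 b2)
    exact mem_iUnion.2 ⟨⟨q, q1⟩, b1, q2⟩
  refine tail hL hLm he hM (e1 k q.2) (isLowerSet_Iio _) (hLU _ x3) (fun c b1 b2 => ?_)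
    (fun c b1 b2 => g2 ⟨(k, q, c), q.2, b1, b2⟩) hq
    (u2.mono fun ω b => ⟨b.1, fun h => h (mem_biUnion q.2 b.2)⟩)
  have b3 := hU c (Cond.supp (e1 k q.2) c b1) fun h => b2 (hLU _ x3 c h)
  exact cylinderEvents_mono (Iio_subset_Iio (he.monotoneOn x3.1 b3.1 (not_lt.1 b2))) _ u3

theorem sub {M : Set I} (hM : IsLowerSet M) {B : Set (I2 → W)}
    (hB : Nul Z (pre L Lm e M) B) : Nul Z L {ρ | ¬ Nul Z M (Phi L Lm e ρ ⁻¹' B)} := by
  refine sub_step hL hLm he hM (fun a ha => ?_) hB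
  clear ha
  induction a using WellFoundedLT.induction with
  | ind a ih => exact fun B => sub_step hL hLm he (isLowerSet_Iio a) ih

end sub

section emb

variable {I2 : Type} [LinearOrder I2] [WellFoundedLT I2] {e : I2 → I} (he : StrictMono e)

include he

theorem emb' {M : Set I} (hM : IsLowerSet M) {B : Set (I2 → W)} (hB : Nul Z (e ⁻¹' M) B) :
    Nul Z M {ω | ω ∘ e ∈ B} := by
  have e1 : pre ∅ univ e M = e ⁻¹' M := by
    ext c
    simp [pre]
  obtain ⟨ρ, -, h⟩ := (nul_ccc isLowerSet_empty).exists_pt (not_nul_univ isLowerSet_empty)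
    (sub isLowerSet_empty isLowerSet_univ (he.strictMonoOn _) hM (e1 ▸ hB))
  have e2 : Phi ∅ univ e ρ = fun ω : I → W => ω ∘ e := by
    funext ω c
    simp [Phi]
  rw [mem_ofPred, not_not, e2] at h
  exact h

theorem emb {B : Set (I2 → W)} (hB : Nul Z univ B) : Nul Z univ {ω : I → W | ω ∘ e ∈ B} :=
  emb' he isLowerSet_univ hB

theorem emb_conv {B : Set (I2 → W)} (hB : MeasurableSet[mL univ] B)
    (h : Nul Z univ {ω : I → W | ω ∘ e ∈ B}) : Nul Z univ B := by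
  by_contra hc
  obtain ⟨q, q1, q2⟩ := (sy isLowerSet_univ).pos' hB hc
  have e2 : Phi ∅ univ e default = fun ω : I → W => ω ∘ e := by
    funext ω c
    simp [Phi]
  refine tail (ρ := default) (A := univ) isLowerSet_empty isLowerSet_univ (he.strictMonoOn _)
    isLowerSet_univ (Cond.mono q1 fun c _ => Or.inr ⟨trivial, trivial⟩) isLowerSet_empty subset_rfl
    (fun _ _ _ => MeasurableSet.univ) (fun c _ _ => ?_) ?_ ?_
  · rw [e2]
    refine emb' he (isLowerSet_Iio _) ?_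
    have : e ⁻¹' Iio (e c) = Iio c := Set.ext fun b => he.lt_iff_lt
    rw [this]
    exact Cond.nul q1 c
  · exact fun h => not_nul_univ isLowerSet_univ (h.mono fun ω _ => ⟨trivial, fun _ h => h.elim⟩)
  · rw [e2]
    exact Null.of_two h (emb he q2) fun ω a b => ⟨a.2, b⟩

theorem emb_proj {Y : Type} [MeasurableSpace Y] [StandardBorelSpace Y] [Nonempty Y]
    {R : Set ((I2 → W) × Y)} (hR : MeasurableSet[(mL univ).prod inferInstance] R)
    (h : Nul Z univ {ω : I → W | ∃ y, (ω ∘ e, y) ∈ R}) : Nul Z univ {ω | ∃ y, (ω, y) ∈ R} := by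
  by_contra hc
  obtain ⟨g, -, g2, g3⟩ := (nul_ccc isLowerSet_univ).unif_pos hR hc
  exact g3 (emb_conv he g2 (h.mono fun ω a => ⟨_, a⟩))

end emb

end Pool.Agent.Lib.MP_00fb6a_lc.Pos
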