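import Mathlib
import Pool.Agent.Lib.MP_00fb6a_lc.Pos.Step
import Pool.Agent.Lib.MP_00fb6a_lc.LusinNovikov

/-!
The universal parameter space, and measurable selection for sets with countable sections.
-/

set_option autoImplicit false

namespace Pool.Agent.Lib.MP_00fb6a_lc.Pos

open Set MeasureTheory Classical Function

theorem exists_ad (Z : Type) [MeasurableSpace Z] [StandardBorelSpace Z] : ∃ A : Z → Set ℕ,
    (∀ z, (A z).Infinite) ∧ (∀ z z', z ≠ z' → (A z ∩ A z').Finite) ∧
      ∀ k, Measurable fun z => k ∈ A z := by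
  obtain ⟨c, c1, c2⟩ := MeasurableSpace.measurable_injection_nat_bool_of_countablySeparated Z
  let s : Z → ℕ → ℕ × Finset ℕ := fun z n => (n, (Finset.range n).filter fun i => c z i = true)
  refine ⟨fun z => range fun n => Encodable.encode (s z n), fun z => infinite_range_of_injective
    fun n m h => congrArg Prod.fst (Encodable.encode_injective h), fun z z' h => ?_, fun k => ?_⟩
  · obtain ⟨i, hi⟩ := Function.ne_iff.1 (c2.ne h)
    refine ((finite_Iic i).image fun n => Encodable.encode (s z n)).subset ?_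
    rintro _ ⟨⟨n, rfl⟩, m, hm⟩
    have h1 := Encodable.encode_injective hm
    obtain rfl : m = n := congrArg Prod.fst h1
    refine ⟨m, mem_Iic.2 (not_lt.1 fun h2 => hi ?_), rfl⟩
    have h3 := Finset.ext_iff.1 (congrArg Prod.snd h1) i
    simp only [s, Finset.mem_filter, Finset.mem_range, h2, true_and] at h3
    exact Bool.eq_iff_iff.2 h3.symm
  · have e : (fun z => k ∈ range fun n => Encodable.encode (s z n)) = fun z => ∃ x : ℕ × Finset ℕ,
        Encodable.encode x = k ∧ ∀ i, i ∈ x.2 ↔ i < x.1 ∧ c z i = true := by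
      funext z
      refine propext ⟨?_, ?_⟩
      · rintro ⟨n, rfl⟩
        exact ⟨_, rfl, fun i => by simp [s]⟩
      · rintro ⟨x, rfl, h⟩
        refine ⟨x.1, congrArg _ (Prod.ext rfl (Finset.ext fun i => ?_))⟩
        simp [s, h]
    rw [e]
    exact Measurable.exists fun x => measurable_const.and (Measurable.forall fun i =>
      measurable_const.iff (measurable_const.and
        (((measurable_pi_apply i).comp c1).eq measurable_const)))

/-- The acting group. -/
abbrev GG : Type := FreeGroup (ℕ × ℕ × ℕ)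

/-- The universal space. -/
abbrev ZZ : Type := ℕ × (GG × ℕ → Bool)

/-- The shift. -/
def sh (γ : GG) (x : GG × ℕ → Bool) : GG × ℕ → Bool := fun i => x (i.1 * γ, i.2)

theorem sh_mul (γ γ' : GG) (x : GG × ℕ → Bool) : sh γ (sh γ' x) = sh (γ * γ') x := by
  funext i
  simp [sh, mul_assoc]

theorem sh_one (x : GG × ℕ → Bool) : sh 1 x = x := by
  funext i
  simp [sh]

theorem exists_delta : ∃ δ : ℕ → ZZ → ZZ, (∀ i, Measurable (δ i)) ∧
    ∀ z z', (∃ i, δ i z = z') ↔ z' ≠ z ∧ ∃ γ, z'.2 = sh γ z.2 := by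
  obtain ⟨u, hu⟩ := exists_surjective_nat (ℕ × GG)
  have hm : ∀ i, Measurable fun z : ZZ => (((u i).1, sh (u i).2 z.2) : ZZ) := fun i => by
    unfold sh
    fun_prop
  refine ⟨fun i z => if ((u i).1, sh (u i).2 z.2) = z then (z.1 + 1, z.2)
    else ((u i).1, sh (u i).2 z.2), fun i => Measurable.ite
      (measurableSet_eq_fun (hm i) measurable_id) (by fun_prop) (hm i), fun z z' => ⟨?_, ?_⟩⟩
  · rintro ⟨i, rfl⟩
    beta_reduce
    split_ifs with h
    · exact ⟨fun e => by simpa using congrArg Prod.fst e, 1, (sh_one _).symm⟩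
    · exact ⟨h, _, rfl⟩
  · rintro ⟨h, γ, hγ⟩
    obtain ⟨i, hi⟩ := hu (z'.1, γ)
    refine ⟨i, ?_⟩
    simp only [hi, ← hγ]
    exact if_neg h

noncomputable instance parZZ : Par ZZ where
  A := (exists_ad ZZ).choose
  δ := exists_delta.choose
  inf := (exists_ad ZZ).choose_spec.1
  ad := (exists_ad ZZ).choose_spec.2.1
  ne i z := ((exists_delta.choose_spec.2 z _).1 ⟨i, rfl⟩).1
  symm i z := by
    obtain ⟨h, γ, hγ⟩ := (exists_delta.choose_spec.2 z _).1 ⟨i, rfl⟩
    exact (exists_delta.choose_spec.2 _ z).2 ⟨h.symm, γ⁻¹, by rw [hγ, sh_mul, inv_mul_cancel, sh_one]⟩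
  trans i j z := by
    obtain ⟨-, γ, hγ⟩ := (exists_delta.choose_spec.2 z _).1 ⟨i, rfl⟩
    obtain ⟨-, γ', hγ'⟩ := (exists_delta.choose_spec.2 (exists_delta.choose i z) _).1 ⟨j, rfl⟩
    exact (Classical.em _).imp_right fun h =>
      (exists_delta.choose_spec.2 z _).2 ⟨h, γ' * γ, by rw [hγ', hγ, sh_mul]⟩
  infc z := by
    refine (infinite_range_of_injective (f := fun k => ((z.1 + k + 1, z.2) : ZZ))
      fun k l h => by simpa using h).mono ?_
    rintro _ ⟨k, rfl⟩
    refine (exists_delta.choose_spec.2 z _).2 ⟨fun e => ?_, 1, (sh_one _).symm⟩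
    have := congrArg Prod.fst e
    simp only at this
    omega
  measA := (exists_ad ZZ).choose_spec.2.2
  measδ := exists_delta.choose_spec.1

theorem rel_ZZ {z z' : ZZ} : Rel z z' ↔ ∃ γ, z'.2 = sh γ z.2 := by
  rw [rel_iff]
  have h := exists_delta.choose_spec.2 z z'
  constructor
  · rintro (rfl | h')
    exacts [⟨1, (sh_one _).symm⟩, (h.1 h').2]
  · exact fun h' => (Classical.em _).imp_right fun e => h.2 ⟨fun e' => e e'.symm, h'⟩

/-- Every countable Borel equivalence relation reduces to the universal one. -/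
theorem exists_emb {X : Type} [MeasurableSpace X] [StandardBorelSpace X] (E : Setoid X)
    (hE : MeasurableSet {p : X × X | E.r p.1 p.2}) (hc : ∀ x, {y | E.r x y}.Countable) :
    ∃ j : X → ZZ, Measurable j ∧ ∀ x y, E.r x y ↔ Rel (j x) (j y) := by
  obtain ⟨_, h1, h2⟩ := exists_action E hE hc
  obtain ⟨c, c1, c2⟩ := MeasurableSpace.measurable_injection_nat_bool_of_countablySeparated X
  refine ⟨fun x => (0, fun i => c (i.1 • x) i.2), measurable_const.prodMk
    (measurable_pi_lambda _ fun i => (measurable_pi_apply _).comp (c1.comp (h1 _))), fun x y => ?_⟩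
  rw [h2, rel_ZZ]
  refine exists_congr fun γ => ⟨?_, fun h => c2 (funext fun n => ?_)⟩
  · rintro rfl
    funext i
    simp [sh, mul_smul]
  · simpa [sh] using congrFun h (1, n)

/-- Measurable selection for sets with countable sections. -/
theorem sel {X Y : Type} [MeasurableSpace X] [StandardBorelSpace X] [MeasurableSpace Y]
    [StandardBorelSpace Y] [Nonempty Y] {G : Set (X × Y)} (hG : MeasurableSet G)
    (hc : ∀ x, {y | (x, y) ∈ G}.Countable) :
    ∃ g : X → Y, Measurable g ∧ ∀ x y, (x, y) ∈ G → (x, g x) ∈ G := by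
  have := hG.standardBorel
  obtain ⟨S, h1, h2⟩ := lusin_novikov (f := fun z : G => z.1.1) (by fun_prop) fun x => by
    refine MapsTo.countable_of_injOn (f := fun z : G => z.1.2) (fun z hz => ?_)
      (fun a ha b hb e => Subtype.ext (Prod.ext (ha.trans hb.symm) e)) (hc x)
    obtain rfl : z.1.1 = x := hz
    exact z.2
  have h3 : ∀ n, ∃ g : X → Y, Measurable g ∧ ∀ z ∈ S n, g z.1.1 = z.1.2 := by
    intro n
    have := (h1 n).1.standardBorel
    have hi : Injective fun z : S n => z.1.1.1 := fun a b e => Subtype.ext ((h1 n).2 a.2 b.2 e)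
    have he : MeasurableEmbedding fun z : S n => z.1.1.1 :=
      Measurable.measurableEmbedding (by fun_prop) hi
    exact ⟨extend (fun z : S n => z.1.1.1) (fun z => z.1.1.2) fun _ => Classical.arbitrary Y,
      he.measurable_extend (by fun_prop) measurable_const, fun z hz => hi.extend_apply _ _ ⟨z, hz⟩⟩
  choose g g1 g2 using h3
  have h4 : Measurable fun z : ℕ × X => g z.1 z.2 := measurable_from_prod_countable_right g1
  refine ⟨fun x => g (sInf {n | x ∈ {x | (x, g n x) ∈ G}}) x, h4.comp
    ((measurable_sInf_nat fun n => (measurable_id.prodMk (g1 n)) hG).prodMk measurable_id),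
    fun x y h => Nat.sInf_mem (s := {n | x ∈ {x | (x, g n x) ∈ G}}) ?_⟩
  obtain ⟨n, hn⟩ := h2 ⟨_, h⟩
  exact ⟨n, by rwa [mem_ofPred, mem_ofPred, g2 n _ hn]⟩

end Pool.Agent.Lib.MP_00fb6a_lc.Pos
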