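import Mathlib
import Pool.Agent.Lib.MP_00fb6a_lc.Pos.Fubini
import Pool.Agent.Lib.MP_00fb6a_lc.Pos.Univ
import Pool.Agent.Lib.MP_00fb6a_lc.Pos.Iface

/-!
Every matching is lifted by a measurable fibrewise reduction, off a meagre set.
-/

set_option autoImplicit false
set_option linter.unusedSectionVars false

namespace Pool.Agent.Lib.MP_00fb6a_lc.Pos

open Set MeasureTheory Classical Function Cardinal

section supp

variable {I Y : Type} [MeasurableSpace Y]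

theorem exists_supp {R : Set ((I → W) × Y)} (hR : MeasurableSet R) : ∃ S : Set I, S.Countable ∧
    ∀ ω ω' : I → W, (∀ c ∈ S, ω c = ω' c) → ∀ y, (ω, y) ∈ R ↔ (ω', y) ∈ R := by
  let M : MeasurableSpace ((I → W) × Y) :=
    { MeasurableSet' := fun R => ∃ S : Set I, S.Countable ∧
        ∀ ω ω' : I → W, (∀ c ∈ S, ω c = ω' c) → ∀ y, (ω, y) ∈ R ↔ (ω', y) ∈ R
      measurableSet_empty := ⟨∅, countable_empty, fun _ _ _ _ => Iff.rfl⟩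
      measurableSet_compl := fun _ ⟨S, h1, h2⟩ => ⟨S, h1, fun ω ω' h y => not_congr (h2 ω ω' h y)⟩
      measurableSet_iUnion := fun R hR => by
        choose S h1 h2 using hR
        refine ⟨⋃ n, S n, countable_iUnion h1, fun ω ω' h y => ?_⟩
        simp only [mem_iUnion]
        exact exists_congr fun n => h2 n ω ω' (fun c hc => h c (mem_iUnion.2 ⟨n, hc⟩)) y }
  have h1 : Measurable[M] (Prod.fst : (I → W) × Y → I → W) :=
    @measurable_pi_lambda _ _ _ M _ _ fun c A _ => ⟨{c}, countable_singleton c, fun ω ω' h y => by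
      simp only [mem_preimage, h c rfl]⟩
  have h2 : Measurable[M] (Prod.snd : (I → W) × Y → Y) :=
    fun A _ => ⟨∅, countable_empty, fun _ _ _ _ => Iff.rfl⟩
  exact (Measurable.prodMk (m := M) h1 h2) hR

theorem exists_supp_fun {X : Type} [MeasurableSpace X] [StandardBorelSpace X]
    {g : (I → W) × Y → X} (hg : Measurable g) : ∃ S : Set I, S.Countable ∧
      ∀ ω ω' : I → W, (∀ c ∈ S, ω c = ω' c) → ∀ y, g (ω, y) = g (ω', y) := by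
  obtain ⟨S, h1, h2⟩ := exists_supp (R := {z : (I → W) × Y × X | g (z.1, z.2.1) = z.2.2})
    (measurableSet_eq_fun (by fun_prop) (by fun_prop))
  exact ⟨S, h1, fun ω ω' h y => (h2 ω ω' h (y, g (ω', y))).2 rfl⟩

/-- Extension of a point along an enumeration of coordinates. -/
noncomputable def xt {N : Type} (σ : N → I) (ξ : N → W) : I → W := extend σ ξ fun _ => default

theorem measurable_xt {N : Type} (σ : N → I) : Measurable (xt σ) := by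
  refine measurable_pi_lambda _ fun c => ?_
  simp only [xt, extend_def]
  split_ifs
  exacts [measurable_pi_apply _, measurable_const]

theorem xt_comp {N : Type} (σ : N → I) (ω : I → W) {c : I} (hc : c ∈ range σ) :
    xt σ (ω ∘ σ) c = ω c := by
  have h : ∃ a, σ a = c := hc
  rw [xt, extend_def, dif_pos h, comp_apply, choose_spec h]

theorem exists_enum {S : Set I} (hS : S.Countable) (a : I) :
    ∃ σ : ℕ → I, σ 0 = a ∧ S ⊆ range σ := by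
  obtain ⟨f, hf⟩ := (hS.insert a).exists_eq_range (insert_nonempty _ _)
  refine ⟨fun n => Nat.casesOn n a f, rfl, fun c hc => ?_⟩
  obtain ⟨n, hn⟩ : c ∈ range f := hf ▸ mem_insert_of_mem _ hc
  exact ⟨n + 1, hn⟩

theorem measurable_comp_right {N : Type} (σ : N → I) : Measurable fun ω : I → W => ω ∘ σ :=
  measurable_pi_lambda _ fun n => measurable_pi_apply (σ n)

theorem sel_pi [Nonempty I] {G : Set ((I → W) × Ca × Ca)} (hG : MeasurableSet G)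
    (hc : ∀ ω y, {x | (ω, y, x) ∈ G}.Countable) : ∃ g : (I → W) × Ca → Ca, Measurable g ∧
      ∀ ω y x, (ω, y, x) ∈ G → (ω, y, g (ω, y)) ∈ G := by
  obtain ⟨S, s1, s2⟩ := exists_supp hG
  obtain ⟨σ, -, hσ⟩ := exists_enum s1 (Classical.arbitrary I)
  have hx := measurable_xt σ
  have hσ' := measurable_comp_right σ
  obtain ⟨g, g1, g2⟩ := sel (G := {z : ((ℕ → W) × Ca) × Ca | (xt σ z.1.1, z.1.2, z.2) ∈ G})
    ((by fun_prop : Measurable fun z : ((ℕ → W) × Ca) × Ca => (xt σ z.1.1, z.1.2, z.2)) hG)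
    fun z => hc (xt σ z.1) z.2
  have e := fun ω => s2 _ ω fun c h => xt_comp σ ω (hσ h)
  exact ⟨fun z => g (z.1 ∘ σ, z.2), by fun_prop,
    fun ω y x h => (e ω _).1 (g2 (ω ∘ σ, y) x ((e ω _).2 h))⟩

theorem emb_pi [Nonempty I] {p : Set (I → W)} {F : Set ((I → W) × Ca × Ca)} (hp : MeasurableSet p)
    (hF : MeasurableSet F) (h : Fib p F) : ∃ j : (I → W) × Ca → ZZ, Measurable j ∧
      ∀ ω ∈ p, ∀ y y', y = y' ∨ (ω, y, y') ∈ F ↔ Rel (j (ω, y)) (j (ω, y')) := by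
  have hF' : MeasurableSet (F ∩ Prod.fst ⁻¹' p) := hF.inter (measurable_fst hp)
  obtain ⟨S, s1, s2⟩ := exists_supp hF'
  obtain ⟨σ, -, hσ⟩ := exists_enum s1 (Classical.arbitrary I)
  have hx := measurable_xt σ
  have hσ' := measurable_comp_right σ
  let E : Setoid ((ℕ → W) × Ca) :=
    { r := fun z z' => z.1 = z'.1 ∧ (z.2 = z'.2 ∨ (xt σ z.1, z.2, z'.2) ∈ F ∩ Prod.fst ⁻¹' p)
      iseqv := ⟨fun _ => ⟨rfl, Or.inl rfl⟩, fun {z z'} a => ⟨a.1.symm, a.2.imp Eq.symm fun b => by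
        rw [← a.1]
        exact ⟨(h _ b.2).symm b.1, b.2⟩⟩, fun {z z' z''} a b => ⟨a.1.trans b.1, by
          rcases a.2 with a2 | a2
          · rw [a2, a.1]
            exact b.2
          · rcases b.2 with b2 | b2
            · rw [← b2]
              exact Or.inr a2
            · rw [← a.1] at b2
              exact Or.inr ⟨(h _ a2.2).trans a2.1 b2.1, a2.2⟩⟩⟩ }
  obtain ⟨j, j1, j2⟩ := exists_emb E ((measurableSet_eq_fun (by fun_prop) (by fun_prop)).inter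
    ((measurableSet_eq_fun (by fun_prop) (by fun_prop)).union
      ((by fun_prop : Measurable fun z : ((ℕ → W) × Ca) × (ℕ → W) × Ca =>
        (xt σ z.1.1, z.1.2, z.2.2)) hF'))) fun z => by
    have h1 : {y | (xt σ z.1, z.2, y) ∈ F ∩ Prod.fst ⁻¹' p}.Countable := by
      by_cases a : xt σ z.1 ∈ p
      · exact ((h _ a).cnt z.2).mono fun y b => b.1
      · exact countable_empty.mono fun y b => a b.2
    refine Countable.mono (fun z' a => ?_) ((h1.insert z.2).image fun y => (z.1, y))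
    exact ⟨z'.2, a.2.imp Eq.symm id, Prod.ext a.1 rfl⟩
  refine ⟨fun z => j (z.1 ∘ σ, z.2), by fun_prop, fun ω hω y y' => ?_⟩
  rw [← j2]
  have e := s2 _ ω (fun c h => xt_comp σ ω (hσ h)) (y, y')
  exact ⟨fun a => ⟨rfl, a.imp_right fun a => e.2 ⟨a, hω⟩⟩,
    fun a => a.2.imp_right fun b => (e.1 b).1⟩

end supp

section loc

variable {Ω : Type} [m : MeasurableSpace Ω] {J : Set Ω → Prop} {p : Set Ω}
  {F E : Set (Ω × Ca × Ca)} {R : (Ω → Ca) → (Ω → Ca) → Set Ω → Prop}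

theorem Match.patch (hJ : Ccc m J) (h : Match J p F E R) (hp : MeasurableSet p) {A : Set (Ω × Ca)}
    (hA : MeasurableSet A) (hi : ∀ ω ∈ p, ∀ y y', (ω, y, y') ∈ F → (ω, y) ∈ A → (ω, y') ∈ A) :
    ∃ B : Set (Ω × Ca), MeasurableSet B ∧ ∀ f g q, R f g q →
      J {ω | ω ∈ p ∧ ω ∈ q ∧ ¬ ((ω, f ω) ∈ A ↔ (ω, g ω) ∈ B)} := by
  obtain ⟨D, d1, d2, d3⟩ := hJ.ccc {q' | MeasurableSet q' ∧ ∃ B : Set (Ω × Ca), MeasurableSet B ∧
    ∀ f g q, R f g q → J {ω | ω ∈ q' ∧ ω ∈ q ∧ ¬ ((ω, f ω) ∈ A ↔ (ω, g ω) ∈ B)}} fun _ h => h.1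
  obtain ⟨u, hu⟩ := (d2.insert ∅).exists_eq_range (insert_nonempty _ _)
  have h1 : ∀ n, MeasurableSet (u n) ∧ ∃ B : Set (Ω × Ca), MeasurableSet B ∧
      ∀ f g q, R f g q → J {ω | ω ∈ u n ∧ ω ∈ q ∧ ¬ ((ω, f ω) ∈ A ↔ (ω, g ω) ∈ B)} := fun n => by
    rcases (hu ▸ mem_range_self n : u n ∈ insert ∅ D) with e | e
    · rw [e]
      exact ⟨MeasurableSet.empty, ∅, MeasurableSet.empty, fun _ _ _ _ =>
        hJ.mono hJ.empty fun _ a => a.1⟩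
    · exact d1 e
  choose u1 B b1 b2 using h1
  have h2 : J (p \ ⋃ n, u n) := by
    by_contra hc
    obtain ⟨q, q1, q2, q3, q4⟩ := h.bor A hA hi _ (hp.diff (MeasurableSet.iUnion u1))
      sdiff_subset hc
    refine q3 (hJ.mono (d3 q ⟨q1, q4⟩) fun ω a => ⟨a, fun ⟨t, t1, t2⟩ => (q2 a).2 ?_⟩)
    obtain ⟨n, rfl⟩ : t ∈ range u := hu ▸ mem_insert_of_mem _ t1
    exact mem_iUnion.2 ⟨n, t2⟩
  have h3 : Measurable fun z : ℕ × Ω × Ca => z.2 ∈ B z.1 :=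
    measurable_from_prod_countable_right fun n => (b1 n).mem
  refine ⟨{z | z ∈ B (sInf {n | z.1 ∈ u n})}, (h3.comp (((measurable_sInf_nat u1).comp
    measurable_fst).prodMk measurable_id)).setOf, fun f g q hR => ?_⟩
  refine hJ.of_two h2 (hJ.iUnion fun n => b2 n f g q hR) fun ω a b => mem_iUnion.2
    ⟨_, Nat.sInf_mem (s := {n | ω ∈ u n}) (mem_iUnion.1 (not_not.1 fun e => b ⟨a.1, e⟩)), a.2⟩

variable (J p F E R) in
/-- Pairs in `G` are matched pairs. -/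
def Sound (G : Set (Ω × Ca × Ca)) : Prop := (∀ z ∈ G, (z.1, z.2.2, z.2.2) ∈ E) ∧
  ∀ (y x f : Ω → Ca) (q : Set Ω), R f x q →
    J {ω | ω ∈ p ∧ ω ∈ q ∧ (ω, y ω, x ω) ∈ G ∧ (ω, f ω, y ω) ∉ F}

theorem Match.coh2 (hJ : Ccc m J) (h : Match J p F E R) (hp : MeasurableSet p)
    (hF : MeasurableSet F) (hE : MeasurableSet E) (fF : Fib p F) {G G' : Set (Ω × Ca × Ca)}
    (hG : MeasurableSet G) (hG' : MeasurableSet G') (s : Sound J p F E R G)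
    (s' : Sound J p F E R G') :
    J {ω | ∃ z : (Ca × Ca) × Ca × Ca, ω ∈ p ∧ (ω, z.1) ∈ G ∧ (ω, z.2) ∈ G' ∧
      ¬ ((ω, z.1.1, z.2.1) ∈ F ↔ (ω, z.1.2, z.2.2) ∈ E)} := by
  by_contra hc
  obtain ⟨z, z1, z2, z3⟩ := hJ.unif_pos (R := {z : Ω × (Ca × Ca) × Ca × Ca | z.1 ∈ p ∧
      (z.1, z.2.1) ∈ G ∧ (z.1, z.2.2) ∈ G' ∧
      ¬ ((z.1, z.2.1.1, z.2.2.1) ∈ F ↔ (z.1, z.2.1.2, z.2.2.2) ∈ E)})
    (Measurable.setOf ((hp.mem.comp measurable_fst).and ((hG.mem.comp (by fun_prop)).and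
      ((hG'.mem.comp (by fun_prop)).and
        ((hF.mem.comp (by fun_prop)).iff (hE.mem.comp (by fun_prop))).not)))) hc
  obtain ⟨f, q, -, q1, q2, q3, q4⟩ := h.sur (fun ω => (z ω).1.2) (by fun_prop) _ z2
    (fun ω a => a.1) z3 fun ω a => s.1 _ a.2.1
  obtain ⟨f', r, -, -, r2, r3, r4⟩ := h.sur (fun ω => (z ω).2.2) (by fun_prop) _ q1
    (fun ω a => (q2 a).1) q3 fun ω a => s'.1 _ (q2 a).2.2.1
  obtain ⟨ω, a, b⟩ := hJ.exists_pt r3 (hJ.union (h.coh _ _ _ _ _ _ q4 r4)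
    (hJ.union (s.2 (fun ω => (z ω).1.1) _ _ _ q4) (s'.2 (fun ω => (z ω).2.1) _ _ _ r4)))
  obtain ⟨c1, c2, c3, c4⟩ := q2 (r2 a)
  have d1 := not_not.1 fun e => b (Or.inl ⟨c1, r2 a, a, e⟩)
  have d2 := not_not.1 fun e => b (Or.inr (Or.inl ⟨c1, r2 a, c2, e⟩))
  have d3 := not_not.1 fun e => b (Or.inr (Or.inr ⟨c1, a, c3, e⟩))
  exact c4 (((fF ω c1).iff d2 d3).symm.trans d1)

theorem Match.loc (hJ : Ccc m J) (h : Match J p F E R) (hp : MeasurableSet p)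
    (hF : MeasurableSet F) (hE : MeasurableSet E) (fF : Fib p F) (fE : Fib p E)
    (hsel : ∀ G : Set (Ω × Ca × Ca), MeasurableSet G → (∀ ω y, {x | (ω, y, x) ∈ G}.Countable) →
      ∃ g : Ω × Ca → Ca, Measurable g ∧ ∀ ω y x, (ω, y, x) ∈ G → (ω, y, g (ω, y)) ∈ G)
    {K : Set (Ω × Ca)} {A : ℕ → Set (Ω × Ca)} (hK : MeasurableSet K)
    (hA : ∀ n, MeasurableSet (A n)) (hd : ∀ z ∈ K, (z.1, z.2, z.2) ∈ F)
    (hi : ∀ n, ∀ ω ∈ p, ∀ y y', (ω, y, y') ∈ F → (ω, y) ∈ A n → (ω, y') ∈ A n)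
    (hs : ∀ ω ∈ p, ∀ y y', (ω, y') ∈ K → (∀ n, (ω, y) ∈ A n ↔ (ω, y') ∈ A n) → (ω, y, y') ∈ F) :
    ∃ g : Ω × Ca → Ca, Measurable g ∧ ∃ G, MeasurableSet G ∧ Sound J p F E R G ∧
      J {ω | ∃ y, ω ∈ p ∧ (ω, y) ∈ K ∧ (ω, y, g (ω, y)) ∉ G} := by
  choose B b1 b2 using fun n => h.patch hJ hp (hA n) (hi n)
  let G : Set (Ω × Ca × Ca) :=
    {z | (z.1, z.2.1) ∈ K ∧ (z.1, z.2.2, z.2.2) ∈ E ∧ ∀ n, (z.1, z.2.1) ∈ A n ↔ (z.1, z.2.2) ∈ B n}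
  have hG : MeasurableSet G := Measurable.setOf ((hK.mem.comp (by fun_prop)).and
    ((hE.mem.comp (by fun_prop)).and (Measurable.forall fun n =>
      ((hA n).mem.comp (by fun_prop)).iff ((b1 n).mem.comp (by fun_prop)))))
  have sG : Sound J p F E R G := ⟨fun z a => a.2.1, fun y x f q hR =>
    hJ.of_cover (fun n => b2 n f x q hR) fun ω ⟨a1, a2, a3, a4⟩ => by
      by_contra hc
      refine a4 (hs ω a1 _ _ a3.1 fun n => ?_)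
      exact (not_not.1 fun e => hc ⟨n, a1, a2, e⟩).trans (a3.2.2 n).symm⟩
  obtain ⟨N, n1, n2, n3⟩ := hJ.cover (h.coh2 hJ hp hF hE fF hG hG sG sG)
  obtain ⟨g, g1, g2⟩ := hsel (G ∩ Prod.fst ⁻¹' (p \ N)) (hG.inter (measurable_fst (hp.diff n1)))
    fun ω y => by
      rcases {x | (ω, y, x) ∈ G ∩ Prod.fst ⁻¹' (p \ N)}.eq_empty_or_nonempty with e | ⟨x, hx⟩
      · rw [e]
        exact countable_empty
      · refine ((fE ω hx.2.1).cnt x).mono fun x' hx' => ?_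
        by_contra hc
        exact hx.2.2 (n2 ⟨((y, x), y, x'), hx.2.1, hx.1, hx'.1,
          fun e => hc (e.1 (hd _ hx.1.1))⟩)
  refine ⟨g, g1, G, hG, sG, ?_⟩
  by_contra hc
  obtain ⟨y, y1, y2, y3⟩ := hJ.unif_pos (R := {z : Ω × Ca | z.1 ∈ p ∧ z ∈ K ∧
    (z.1, z.2, g z) ∉ G}) (Measurable.setOf ((hp.mem.comp measurable_fst).and (hK.mem.and
      (hG.mem.comp (by fun_prop)).not))) hc
  obtain ⟨x, q, -, -, q2, q3, q4⟩ := h.tot y y1 _ y2 (fun ω a => a.1) y3 fun ω a => hd _ a.2.1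
  obtain ⟨ω, a, b⟩ := hJ.exists_pt q3 (hJ.union (hJ.union n3 (h.coh _ _ _ _ _ _ q4 q4))
    (hJ.iUnion fun n => b2 n y x q q4))
  obtain ⟨c1, c2, c3⟩ := q2 a
  exact c3 (g2 ω _ (x ω) ⟨⟨c2, (not_not.1 fun e => b (Or.inl (Or.inr ⟨c1, a, a, e⟩))).1 (hd _ c2),
    fun n => not_not.1 fun e => b (Or.inr (mem_iUnion.2 ⟨n, c1, a, e⟩))⟩, c1,
    fun e => b (Or.inl (Or.inl e))⟩).1

theorem souslin [StandardBorelSpace Ω] (hJ : Ccc m J) (h0 : ¬ J univ) (hp : MeasurableSet p)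
    (hF : MeasurableSet F) (hE : MeasurableSet E) (fE : Fib p E) {D : Set (Ω × Ω)}
    (hD : MeasurableSet D)
    {K : Set ((Ω × Ω) × Ca)} (hK : MeasurableSet K) {g : (Ω × Ω) × Ca → Ca} (hg : Measurable g)
    (hd : ∀ z ∈ K, (z.1.1, z.2, z.2) ∈ F) (h1 : ∀ ρ ∈ p, J {τ | (ρ, τ) ∉ D})
    (h2 : ∀ ρ y, (ρ, y, y) ∈ F → J {τ | ((ρ, τ), y) ∉ K})
    (h3 : ∀ ρ ∈ p, ∀ τ, (ρ, τ) ∈ D → J {τ' | ∃ y y', ((ρ, τ), y) ∈ K ∧ ((ρ, τ'), y') ∈ K ∧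
      ¬ ((ρ, y, y') ∈ F ↔ (ρ, g ((ρ, τ), y), g ((ρ, τ'), y')) ∈ E)}) :
    ∃ h : Ω × Ca → Ca, Measurable h ∧ ∀ ρ ∈ p, ∀ y y', (ρ, y, y) ∈ F → (ρ, y', y') ∈ F →
      ((ρ, y, y') ∈ F ↔ (ρ, h (ρ, y), h (ρ, y')) ∈ E) := by
  have key : ∀ ρ ∈ p, ∀ τ τ' y y', (ρ, τ) ∈ D → (ρ, τ') ∈ D → ((ρ, τ), y) ∈ K →
      ((ρ, τ'), y') ∈ K → ((ρ, y, y') ∈ F ↔ (ρ, g ((ρ, τ), y), g ((ρ, τ'), y')) ∈ E) := by
    intro ρ hρ τ τ' y y' a1 a2 a3 a4
    obtain ⟨t, -, b⟩ := hJ.exists_pt h0 (hJ.union (h2 ρ y' (hd _ a4))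
      (hJ.union (h3 ρ hρ τ a1) (h3 ρ hρ τ' a2)))
    have b1 := not_not.1 fun e => b (Or.inl e)
    have b2 := not_not.1 fun e => b (Or.inr (Or.inl ⟨y, y', a3, b1, e⟩))
    have b3 := (not_not.1 fun e => b (Or.inr (Or.inr ⟨y', y', a4, b1, e⟩))).1 (hd _ a4)
    have e := fE ρ hρ
    exact b2.trans ⟨fun k => e.trans k (e.symm b3), fun k => e.trans k b3⟩
  have tot : ∀ ρ ∈ p, ∀ y, (ρ, y, y) ∈ F → ∃ τ, (ρ, τ) ∈ D ∧ ((ρ, τ), y) ∈ K := fun ρ hρ y hy => by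
    obtain ⟨t, -, b⟩ := hJ.exists_pt h0 (hJ.union (h1 ρ hρ) (h2 ρ y hy))
    exact ⟨t, not_not.1 fun e => b (Or.inl e), not_not.1 fun e => b (Or.inr e)⟩
  let T : Set (((Ω × Ca) × Ca) × Ω) :=
    {z | z.1.1.1 ∈ p ∧ (z.1.1.1, z.2) ∈ D ∧ ((z.1.1.1, z.2), z.1.1.2) ∈ K}
  let U : Set (((Ω × Ca) × Ca) × Ω) := {z | (z.1.1.1, g ((z.1.1.1, z.2), z.1.1.2), z.1.2) ∈ E}
  have hT : MeasurableSet T := Measurable.setOf ((hp.mem.comp (by fun_prop)).and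
    ((hD.mem.comp (by fun_prop)).and (hK.mem.comp (by fun_prop))))
  have hU : MeasurableSet U := Measurable.setOf (hE.mem.comp (by fun_prop))
  obtain ⟨B, b1, b2, b3⟩ := exists_sep measurable_fst measurable_fst (hT.inter hU) (hT.diff hU) (by
    rintro ⟨z, τ⟩ ⟨a1, a2⟩ ⟨z', τ'⟩ ⟨a3, a4⟩ (rfl : z = z')
    exact a4 ((fE _ a1.1).trans ((key _ a1.1 _ _ _ _ a3.2.1 a1.2.1 a3.2.2 a1.2.2).1
      (hd _ a1.2.2)) a2))
  have b4 : ∀ ρ ∈ p, ∀ τ y x, (ρ, τ) ∈ D → ((ρ, τ), y) ∈ K →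
      (((ρ, y), x) ∈ B ↔ (ρ, g ((ρ, τ), y), x) ∈ E) := fun ρ hρ τ y x a1 a2 =>
    ⟨fun k => not_not.1 fun e => b3 (((ρ, y), x), τ) ⟨⟨hρ, a1, a2⟩, e⟩ k,
      fun k => b2 (((ρ, y), x), τ) ⟨⟨hρ, a1, a2⟩, k⟩⟩
  obtain ⟨h, g1, g2⟩ := sel (G := B ∩ {z | z.1.1 ∈ p ∧ (z.1.1, z.1.2, z.1.2) ∈ F})
    (b1.inter (Measurable.setOf ((hp.mem.comp (by fun_prop)).and (hF.mem.comp (by fun_prop)))))
    fun z => by
      by_cases a : z.1 ∈ p ∧ (z.1, z.2, z.2) ∈ F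
      · obtain ⟨τ, t1, t2⟩ := tot _ a.1 z.2 a.2
        exact ((fE _ a.1).cnt _).mono fun x k => (b4 _ a.1 τ _ x t1 t2).1 k.1
      · exact countable_empty.mono fun x k => a k.2
  refine ⟨h, g1, fun ρ hρ y y' hy hy' => ?_⟩
  have h4 : ∀ τ y, (ρ, τ) ∈ D → ((ρ, τ), y) ∈ K → (ρ, g ((ρ, τ), y), h (ρ, y)) ∈ E :=
    fun τ y a1 a2 => (b4 ρ hρ τ y _ a1 a2).1
      (g2 (ρ, y) _ ⟨(b4 ρ hρ τ y _ a1 a2).2 ((key ρ hρ τ τ y y a1 a1 a2 a2).1 (hd _ a2)), hρ,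
        hd _ a2⟩).1
  obtain ⟨τ, t1, t2⟩ := tot ρ hρ y hy
  obtain ⟨τ', t3, t4⟩ := tot ρ hρ y' hy'
  exact (key ρ hρ τ τ' y y' t1 t3 t2 t4).trans ((fE ρ hρ).iff (h4 τ y t1 t2) (h4 τ' y' t3 t4))

end loc

end Pool.Agent.Lib.MP_00fb6a_lc.Pos
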