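import Mathlib
import Pool.Agent.Lib.MP_00fb6a_lc.Pos.Core

/-!
The reflection argument in the iteration of length the successor of the continuum.
-/

set_option autoImplicit false
set_option linter.unusedSectionVars false

namespace Pool.Agent.Lib.MP_00fb6a_lc.Pos

open Set MeasureTheory Classical Function
open Cardinal hiding univ

/-- The length of the iteration. -/
abbrev II : Type := (Order.succ continuum).ord.ToType

theorem card_Iic (i : II) : #(Iic i) ≤ continuum := by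
  rw [← Iio_insert]
  have h3 := Cardinal.mk_Iio_lt i (by simp [II])
  rw [Cardinal.mk_ord_toType, Order.lt_succ_iff] at h3
  exact mk_insert_le.trans (add_le_of_le aleph0_le_continuum h3
    (one_le_aleph0.trans aleph0_le_continuum))

theorem bdd (S : Set II) (hS : #S ≤ continuum) : ∃ a, ∀ b ∈ S, b < a := by
  have h2 : #(⋃ b : S, Iic (b : II)) ≤ continuum := (mk_iUnion_le _).trans
    ((mul_le_mul' hS (ciSup_le' fun b : S => card_Iic b)).trans continuum_mul_self.le)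
  have h3 : (⋃ b : S, Iic (b : II)) ≠ Set.univ := by
    intro h
    rw [h, mk_univ, Cardinal.mk_ord_toType] at h2
    exact (Order.lt_succ continuum).not_ge h2
  obtain ⟨a, ha⟩ := (ne_univ_iff_exists_notMem _).1 h3
  exact ⟨a, fun b hb => not_le.1 fun h => ha (mem_iUnion.2 ⟨⟨b, hb⟩, h⟩)⟩

instance : Nonempty II := ⟨(bdd ∅ (by simp)).choose⟩

theorem exists_closed (N : (ℕ → II) → Set II) (hN : ∀ t, #(N t) ≤ continuum) (x0 : II) :
    ∃ T : Set II, x0 ∈ T ∧ (∀ t, (∀ n, t n ∈ T) → N t ⊆ T) ∧ ∃ a, ∀ x ∈ T, x < a := by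
  have h1 : ∀ t, ∃ u : ℝ → II, N t ⊆ range u := fun t => by
    obtain ⟨f⟩ := (Cardinal.le_def _ _).1 ((hN t).trans_eq mk_real.symm)
    exact ⟨extend f Subtype.val fun _ => x0, fun c hc =>
      ⟨f ⟨c, hc⟩, f.injective.extend_apply ..⟩⟩
  choose new hn using h1
  let β : Option ℝ → Type := fun a => {_n : ℕ // a.isSome}
  let ev : WType β → II := WType.elim II fun s => match s with
    | ⟨none, _⟩ => x0
    | ⟨some i, f⟩ => new (fun n => f ⟨n, rfl⟩) i
  have hW : #(WType β) ≤ continuum := by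
    refine WType.cardinalMk_le_of_le ((sum_le_sum _ (fun _ => continuum) fun a => ?_).trans ?_)
    · exact (power_le_power_left continuum_ne_zero
        (mk_le_aleph0 (α := {_n : ℕ // a.isSome}))).trans continuum_power_aleph0.le
    · simp [mk_real, add_one_eq aleph0_le_continuum]
  obtain ⟨a, ha⟩ := bdd (range ev) (mk_range_le.trans hW)
  refine ⟨range ev, ⟨WType.mk none fun n => by simpa using n.2, rfl⟩, fun t ht c hc => ?_, a, ha⟩
  choose w hw using ht
  obtain ⟨i, rfl⟩ := hn t hc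
  refine ⟨WType.mk (some i) fun n => w n.1, ?_⟩
  change new (fun n => ev (w n)) i = _
  simp only [hw]

theorem delta {Γ : Type} (hΓ : #Γ ≤ continuum) (G : II → Γ) (σ : II → ℕ → II) (h0 : ∀ a, σ a 0 = a)
    {S : Set II} (hS : S.Countable) : ∃ a a' β, ∃ T : Set II, IsLowerSet T ∧ β ∈ T ∧
      (∀ c ∈ S, c ≤ β) ∧ G a = G a' ∧ β < a ∧ (∀ n, σ a n ∈ T) ∧
      (∀ n k, σ a n < σ a k ↔ σ a' n < σ a' k) ∧
      ∀ n, (σ a n ≤ β ∧ σ a' n = σ a n) ∨ (β < σ a n ∧ σ a' n ∉ T) := by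
  have hb : ∀ t : ℕ → II, ∃ b, ∀ c ∈ range t, c < b := fun t =>
    bdd _ (mk_range_le.trans (by simpa using aleph0_le_continuum))
  choose b hb using hb
  let ty : (ℕ → II) → II → Γ × (ℕ × ℕ → Prop) × (ℕ → Prop) × (ℕ → Prop) := fun t a =>
    (G a, fun x => σ a x.1 < σ a x.2, fun n => σ a n = t (n + 1), fun n => t 0 < σ a n)
  have hty : #(Γ × (ℕ × ℕ → Prop) × (ℕ → Prop) × (ℕ → Prop)) ≤ continuum := by
    simpa using (mul_le_mul_left hΓ continuum).trans continuum_mul_self.le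
  obtain ⟨x0, hx⟩ := bdd S (hS.le_aleph0.trans aleph0_le_continuum)
  obtain ⟨T, t1, t2, a', t3⟩ := exists_closed (fun t => Iic (t 0) ∪ {b t} ∪
    ⋃ τ, range (σ (invFun (ty t) τ))) (fun t => by
      refine (mk_union_le _ _).trans (add_le_of_le aleph0_le_continuum ((mk_union_le _ _).trans
        (add_le_of_le aleph0_le_continuum (card_Iic _) ?_)) ((mk_iUnion_le _).trans ?_))
      · simpa using one_le_aleph0.trans aleph0_le_continuum
      · exact (mul_le_mul' hty (ciSup_le' fun τ => mk_range_le.trans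
          (by simpa using aleph0_le_continuum))).trans continuum_mul_self.le) x0
  have hT : IsLowerSet T := fun c d h hc => t2 (fun _ => c) (fun _ => hc) (Or.inl (Or.inl h))
  let u : ℕ → II := fun n => Nat.casesOn n x0 fun n => if σ a' n ∈ T then σ a' n else x0
  have hu : ∀ n, u n ∈ T := by
    rintro (_ | n)
    · exact t1
    · simp only [u]
      split_ifs with h
      exacts [h, t1]
  have hβ : b u ∈ T := t2 u hu (Or.inl (Or.inr rfl))
  let t : ℕ → II := fun n => Nat.casesOn n (b u) fun n => u (n + 1)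
  have ht : ∀ n, t n ∈ T := by
    rintro (_ | n)
    exacts [hβ, hu (n + 1)]
  have e : ty t (invFun (ty t) (ty t a')) = ty t a' := invFun_eq ⟨a', rfl⟩
  have e0 : ∀ n, σ (invFun (ty t) (ty t a')) n ∈ T := fun n =>
    t2 t ht (Or.inr (mem_iUnion.2 ⟨_, n, rfl⟩))
  generalize invFun (ty t) (ty t a') = a at e e0
  simp only [ty, Prod.mk.injEq, funext_iff, eq_iff_iff] at e
  obtain ⟨e1, e2, e3, e4⟩ := e
  refine ⟨a, a', b u, T, hT, hβ, fun c hc => ((hx c hc).trans (hb u _ ⟨0, rfl⟩)).le, e1, ?_, e0,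
    fun n k => e2 (n, k), fun n => ?_⟩
  · have := (e4 0).2 (by rw [h0]; exact t3 _ hβ)
    rwa [h0] at this
  · by_cases h : σ a' n ∈ T
    · have e5 : σ a' n = u (n + 1) := (if_pos h).symm
      have e6 : σ a n = u (n + 1) := (e3 n).2 e5
      exact Or.inl ⟨e6 ▸ (hb u _ ⟨n + 1, rfl⟩).le, e5.trans e6.symm⟩
    · exact Or.inr ⟨(e4 n).2 (not_le.1 fun h' => h (hT h' hβ)), h⟩

theorem card_meas (X : Type) [MeasurableSpace X] [MeasurableSpace.CountablyGenerated X] :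
    #{G : X → Ca // Measurable G} ≤ continuum := by
  obtain ⟨s, s1, s2⟩ := MeasurableSpace.CountablyGenerated.isCountablyGenerated (α := X)
  have h1 : #{t : Set X | MeasurableSet t} ≤ continuum := by
    rw [s2]
    exact MeasurableSpace.cardinal_measurableSet_le_continuum
      (s1.le_aleph0.trans aleph0_le_continuum)
  let f : {G : X → Ca // Measurable G} → ℕ → {t : Set X | MeasurableSet t} := fun G n =>
    ⟨{x | G.1 x n = true}, ((measurable_pi_apply n).comp G.2) (measurableSet_singleton true)⟩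
  refine (mk_le_of_injective (f := f) fun G G' h => Subtype.ext (funext fun x => funext fun n =>
    Bool.eq_iff_iff.2 (Set.ext_iff.1 (congrArg Subtype.val (congrFun h n)) x))).trans ?_
  rw [mk_pi, prod_const, lift_id, lift_id, mk_nat]
  exact (power_le_power_right h1).trans continuum_power_aleph0.le

section

variable {Z : Type} [MeasurableSpace Z] [StandardBorelSpace Z] [Par Z] [Nonempty Z]
  {I : Type} [LinearOrder I] [WellFoundedLT I]

theorem nul_ccc' : Ccc (MeasurableSpace.pi : MeasurableSpace (I → W)) (Nul Z univ) := by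
  have := nul_ccc (Z := Z) (I := I) isLowerSet_univ
  rwa [mL, cylinderEvents_univ] at this

theorem two_step {L0 L1 : Set I} (h0 : IsLowerSet L0) (h1 : IsLowerSet L1) (h : L0 ⊆ L1)
    {e : I → I} (he : StrictMonoOn e (univ \ L1)) {C : Set (I → W)} (hC : Nul Z univ C) :
    ∃ N, MeasurableSet N ∧ Nul Z univ N ∧ ∃ D : Set ((I → W) × (I → W)), MeasurableSet D ∧
      (∀ ρ, ρ ∉ N → Nul Z univ {τ | (ρ, τ) ∉ D}) ∧ ∀ ρ τ, (ρ, τ) ∈ D →
        Nul Z univ {τ' | Phi L1 univ e (Phi L0 L1 id ρ τ) τ' ∈ C} := by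
  have e1 : pre L1 univ e univ = univ := eq_univ_of_forall fun c => Or.inr ⟨trivial, trivial⟩
  have e2 : pre L0 L1 id univ = L1 :=
    Set.ext fun c => ⟨fun a => a.elim (@h c) And.left, fun a => Or.inr ⟨a, trivial⟩⟩
  obtain ⟨N1, a1, a2, a3⟩ := (nul_ccc h1).cover
    (sub h1 isLowerSet_univ he isLowerSet_univ (e1.symm ▸ hC))
  obtain ⟨N, b1, b2, b3⟩ := (nul_ccc h0).cover
    (sub h0 h1 (strictMono_id.strictMonoOn _) isLowerSet_univ (e2.symm ▸ a3))
  have hm : Measurable fun z : (I → W) × (I → W) => Phi L0 L1 id z.1 z.2 := by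
    refine measurable_pi_lambda _ fun c => ?_
    unfold Phi
    split_ifs <;> fun_prop
  refine ⟨N, cylinderEvents_le_pi _ b1, Nul.up h0 (subset_univ _) b3,
    {z | Phi L0 L1 id z.1 z.2 ∉ N1}, hm (cylinderEvents_le_pi _ a1).compl, fun ρ hρ => ?_,
    fun ρ τ a => not_not.1 fun b => a (a2 b)⟩
  exact Null.mono (not_not.1 fun b => hρ (b2 b)) fun τ a => not_not.1 a

end

theorem core : @Core (II → W) MeasurableSpace.pi (Nul ZZ univ) := by
  intro p F E R hp hF hE fF fE h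
  have hJ := nul_ccc' (Z := ZZ) (I := II)
  obtain ⟨j, j1, j2⟩ := emb_pi hp hF fF
  obtain ⟨c, c1, c2⟩ := MeasurableSpace.measurable_injection_nat_bool_of_countablySeparated ZZ
  let K : II → Set ((II → W) × Ca) := fun a =>
    {z | (z.1, z.2, z.2) ∈ F ∧ ∃ i, Top (z.1 a) (ε i (j z))}
  have hK : ∀ a, MeasurableSet (K a) := fun a => Measurable.setOf ((hF.mem.comp (by fun_prop)).and
    (Measurable.exists fun i => meas_top (by fun_prop) ((measε i).comp j1)))
  have hg : ∀ a, ∃ g : (II → W) × Ca → Ca, Measurable g ∧ ∃ G, MeasurableSet G ∧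
      Sound (Nul ZZ univ) p F E R G ∧
      Nul ZZ univ {ω | ∃ y, ω ∈ p ∧ (ω, y) ∈ K a ∧ (ω, y, g (ω, y)) ∉ G} := by
    intro a
    let A : Option (ℕ × Bool) → Set ((II → W) × Ca) := fun x =>
      {z | (z.1, z.2, z.2) ∈ F ∧ ∃ i, Top (z.1 a) (ε i (j z)) ∧ ∀ y ∈ x, c (ε i (j z)) y.1 = y.2}
    obtain ⟨u, hu⟩ := exists_surjective_nat (Option (ℕ × Bool))
    refine h.loc hJ hp hF hE fF fE (fun G => sel_pi) (hK a) (A := fun n => A (u n))
      (fun n => Measurable.setOf ((hF.mem.comp (by fun_prop)).and (Measurable.exists fun i =>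
        (meas_top (by fun_prop) ((measε i).comp j1)).and (Measurable.forall fun y =>
          measurable_const.imp (((measurable_pi_apply _).comp (c1.comp ((measε i).comp j1))).eq
            measurable_const))))) (fun z a => a.1)
      (fun n ω hω y y' a1 ⟨_, i, a2⟩ => ?_) fun ω hω y y' ⟨a0, i, a1⟩ a2 => ?_
    · obtain ⟨k, hk⟩ := ((j2 ω hω y y').1 (Or.inr a1)).symm.trans ⟨i, rfl⟩
      exact ⟨(fF ω hω).right a1, k, by rwa [hk]⟩
    · have a3 : ∀ x, (ω, y') ∈ A x → (ω, y) ∈ A x := fun x => by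
        obtain ⟨n, rfl⟩ := hu x
        exact (a2 n).2
      obtain ⟨-, k, a4, -⟩ := a3 none ⟨a0, i, a1, by simp⟩
      have a5 : ε k (j (ω, y)) = ε i (j (ω, y')) := c2 (funext fun n => by
        obtain ⟨-, l, b1, b2⟩ := a3 (some (n, c (ε i (j (ω, y'))) n))
          ⟨a0, i, a1, fun _ e => by rw [← Option.some.inj e]⟩
        rw [a4.unique b1 ((Rel.symm ⟨k, rfl⟩).trans ⟨l, rfl⟩)]
        exact b2 _ rfl)
      exact ((j2 ω hω y y').2 (Rel.trans ⟨k, a5⟩ (Rel.symm ⟨i, rfl⟩))).elim (fun e => e ▸ a0) id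
  choose g g1 Γ g2 g3 g4 using hg
  have hσ : ∀ a, ∃ σ : ℕ → II, σ 0 = a ∧ ∀ ω y, g a (xt σ (ω ∘ σ), y) = g a (ω, y) := fun a => by
    obtain ⟨S, s1, s2⟩ := exists_supp_fun (g1 a)
    obtain ⟨σ, a1, a2⟩ := exists_enum s1 a
    exact ⟨σ, a1, fun ω => s2 _ _ fun c hc => xt_comp σ ω (a2 hc)⟩
  choose σ σ0 σ1 using hσ
  let G : II → {G : (ℕ → W) × Ca → Ca // Measurable G} := fun a =>
    ⟨fun z => g a (xt (σ a) z.1, z.2),
      (g1 a).comp (((measurable_xt _).comp measurable_fst).prodMk measurable_snd)⟩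
  obtain ⟨S1, s1, s1'⟩ := exists_supp (measurable_fst hp : MeasurableSet (Prod.fst ⁻¹' p :
    Set ((II → W) × Unit)))
  obtain ⟨S2, s2, s2'⟩ := exists_supp hF
  obtain ⟨S3, s3, s3'⟩ := exists_supp hE
  obtain ⟨S4, s4, s4'⟩ := exists_supp_fun j1
  let S := S1 ∪ S2 ∪ S3 ∪ S4
  have hS : S.Countable := ((s1.union s2).union s3).union s4
  have hd : ∀ ω ω' : II → W, (∀ c ∈ S, ω c = ω' c) → (ω ∈ p ↔ ω' ∈ p) ∧
      (∀ y, (ω, y) ∈ F ↔ (ω', y) ∈ F) ∧ (∀ y, (ω, y) ∈ E ↔ (ω', y) ∈ E) ∧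
      ∀ y, j (ω, y) = j (ω', y) := fun ω ω' e =>
    ⟨s1' ω ω' (fun c hc => e c (Or.inl (Or.inl (Or.inl hc)))) (),
      s2' ω ω' fun c hc => e c (Or.inl (Or.inl (Or.inr hc))),
      s3' ω ω' fun c hc => e c (Or.inl (Or.inr hc)), s4' ω ω' fun c hc => e c (Or.inr hc)⟩
  obtain ⟨a, a', β, T, t1, t2, t3, t4, t5, t6, t7, t8⟩ := delta (card_meas _) G σ σ0 hS
  let S0 : Set II := S ∪ range (σ a) ∪ range (σ a')
  have : Countable S0 := ((hS.union (countable_range _)).union (countable_range _)).to_subtype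
  let s : ℕ → S0 := fun n => ⟨σ a n, Or.inl (Or.inr ⟨n, rfl⟩)⟩
  let s' : ℕ → S0 := fun n => ⟨σ a' n, Or.inr ⟨n, rfl⟩⟩
  let L0 : Set S0 := {c | c.1 ≤ β}
  let L1 : Set S0 := {c | c.1 ∈ T}
  have hL0 : IsLowerSet L0 := fun c d hcd hc => le_trans (show d.1 ≤ c.1 from hcd) hc
  have hL1 : IsLowerSet L1 := fun c d hcd hc => t1 (show d.1 ≤ c.1 from hcd) hc
  have hL : L0 ⊆ L1 := fun c hc => t1 hc t2
  let e : S0 → S0 := extend s' s id
  have he : ∀ n, e (s' n) = s n := fun n => by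
    refine FactorsThrough.extend_apply (fun k l hk => Subtype.ext ?_) _ n
    have b : σ a' k = σ a' l := congrArg Subtype.val hk
    exact le_antisymm (not_lt.1 fun b' => ((t7 _ _).1 b').ne' b)
      (not_lt.1 fun b' => ((t7 _ _).1 b').ne b)
  have he' : StrictMonoOn e (univ \ L1) := by
    have b : ∀ c : S0, c ∈ univ \ L1 → ∃ n, s' n = c := by
      rintro ⟨c, (b | ⟨n, rfl⟩) | ⟨n, rfl⟩⟩ hc
      exacts [(hc.2 (t1 (t3 c b) t2)).elim, (hc.2 (t6 n)).elim, ⟨n, rfl⟩]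
    intro c hc d hd hcd
    obtain ⟨n, rfl⟩ := b c hc
    obtain ⟨k, rfl⟩ := b d hd
    rw [he, he]
    exact (t7 n k).2 hcd
  let x : (S0 → W) → II → W := xt Subtype.val
  have hx : Measurable x := measurable_xt _
  have x1 : ∀ ρ (c : S0), x ρ c.1 = ρ c := fun ρ c => Subtype.val_injective.extend_apply ..
  have x2 := fun ω : II → W => hd (x (ω ∘ Subtype.val)) ω fun c hc => x1 _ ⟨c, Or.inl (Or.inl hc)⟩
  let G0 := (G a).1
  have hG0 : Measurable G0 := (G a).2
  have hs := measurable_comp_right s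
  have hs' := measurable_comp_right s'
  let C : Set ((S0 → W) × Ca × Ca) := {z | x z.1 ∈ p ∧
    ((x z.1, z.2.1, z.2.1) ∈ F ∧ ∃ i, Top (z.1 (s 0)) (ε i (j (x z.1, z.2.1)))) ∧
    ((x z.1, z.2.2, z.2.2) ∈ F ∧ ∃ i, Top (z.1 (s' 0)) (ε i (j (x z.1, z.2.2)))) ∧
    ¬ ((x z.1, z.2) ∈ F ↔ (x z.1, G0 (z.1 ∘ s, z.2.1), G0 (z.1 ∘ s', z.2.2)) ∈ E)}
  have hC : MeasurableSet C := Measurable.setOf ((hp.mem.comp (by fun_prop)).and
    (((hF.mem.comp (by fun_prop)).and (Measurable.exists fun i => meas_top (by fun_prop)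
      ((measε i).comp (by fun_prop)))).and (((hF.mem.comp (by fun_prop)).and
    (Measurable.exists fun i => meas_top (by fun_prop) ((measε i).comp (by fun_prop)))).and
    ((hF.mem.comp (by fun_prop)).iff (hE.mem.comp (by fun_prop))).not)))
  have hC' : Nul ZZ univ {ρ | ∃ y, (ρ, y) ∈ C} := by
    refine emb_proj (Subtype.strictMono_coe _) (by rwa [mL, cylinderEvents_univ])
      (hJ.of_two (hJ.union (g4 a) (g4 a'))
        (h.coh2 hJ hp hF hE fF (g2 a) (g2 a') (g3 a) (g3 a')) ?_)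
    rintro ω ⟨⟨y, y'⟩, b1, b2, b3, b4⟩ b5
    obtain ⟨d1, d2, d3, d4⟩ := x2 ω
    simp only [d2, d3, d4, comp_apply, s, s', σ0] at b2 b3 b4
    refine ⟨((y, g a (ω, y)), y', g a' (ω, y')), d1.1 b1,
      not_not.1 fun e => b5 (Or.inl ⟨y, d1.1 b1, b2, e⟩),
      not_not.1 fun e => b5 (Or.inr ⟨y', d1.1 b1, b3, e⟩), ?_⟩
    have e1 : G0 ((ω ∘ Subtype.val) ∘ s, y) = g a (ω, y) := σ1 a ω y
    have e2 : G0 ((ω ∘ Subtype.val) ∘ s', y') = g a' (ω, y') := by
      simp only [G0, t4]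
      exact σ1 a' ω y'
    rwa [e1, e2] at b4
  obtain ⟨N, n1, n2, D, d1, d2, d3⟩ := two_step hL0 hL1 hL he' hC'
  have hP : Measurable fun z : (S0 → W) × (S0 → W) => Phi L0 L1 id z.1 z.2 := by
    refine measurable_pi_lambda _ fun c => ?_
    unfold Phi
    split_ifs <;> fun_prop
  obtain ⟨k, k1, k2⟩ := souslin (p := x ⁻¹' p \ N) (F := {z | (x z.1, z.2) ∈ F})
    (E := {z | (x z.1, z.2) ∈ E}) (nul_ccc' (Z := ZZ)) (not_nul_univ isLowerSet_univ)
    ((hx hp).diff n1) (Measurable.setOf (hF.mem.comp (by fun_prop)))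
    (Measurable.setOf (hE.mem.comp (by fun_prop))) (fun ρ hρ => fE _ hρ.1) d1
    (K := {z | (x z.1.1, z.2, z.2) ∈ F ∧ ∃ i, Top (z.1.2 (s 0)) (ε i (j (x z.1.1, z.2)))})
    (Measurable.setOf ((hF.mem.comp (by fun_prop)).and (Measurable.exists fun i =>
      meas_top (by fun_prop) ((measε i).comp (by fun_prop)))))
    (g := fun z => G0 (Phi L0 L1 id z.1.1 z.1.2 ∘ s, z.2))
    (hG0.comp ((hs.comp (hP.comp measurable_fst)).prodMk measurable_snd)) (fun z a => a.1)
    (fun ρ hρ => d2 ρ hρ.2) (fun ρ y hy => (nul_cover (s 0) (j (x ρ, y))).mono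
      fun τ a b => a ⟨hy, b⟩) fun ρ hρ τ hτ => (d3 ρ τ hτ).mono (by
      rintro τ' ⟨y, y', b1, b2, b3⟩
      set ω := Phi L1 univ e (Phi L0 L1 id ρ τ) τ' with hω
      have w1 : ∀ c ∈ L1, ω c = Phi L0 L1 id ρ τ c := fun c hc => if_neg fun b => b.2 hc
      have w2 : ∀ c ∈ L0, ω c = ρ c := fun c hc => (w1 c (hL hc)).trans (if_neg fun b => b.2 hc)
      have w3 : ω ∘ s = Phi L0 L1 id ρ τ ∘ s := funext fun n => w1 _ (t6 n)
      have w4 : ω ∘ s' = Phi L0 L1 id ρ τ' ∘ s := funext fun n => by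
        rcases t8 n with b | b
        · have b' : s' n = s n := Subtype.ext b.2
          rw [comp_apply, comp_apply, b', w2 _ b.1]
          exact (if_neg fun b' => b'.2 b.1).symm
        · have b1 : ω (s' n) = τ' (e (s' n)) := if_pos ⟨trivial, b.2⟩
          rw [comp_apply, comp_apply, b1, he]
          exact (if_pos ⟨t6 n, not_le.2 b.1⟩).symm
      have w5 : ∀ τ, Phi L0 L1 id ρ τ (s 0) = τ (s 0) := fun τ =>
        if_pos ⟨t6 0, fun b : σ a 0 ≤ β => not_le.2 t5 (σ0 a ▸ b)⟩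
      obtain ⟨f1, f2, f3, f4⟩ := hd (x ω) (x ρ) fun c hc =>
        (x1 _ ⟨c, Or.inl (Or.inl hc)⟩).trans ((w2 _ (t3 c hc)).trans (x1 _ _).symm)
      change ∃ y, (ω, y) ∈ C
      refine ⟨(y, y'), f1.2 hρ.1, ?_, ?_, ?_⟩ <;> dsimp only
      · rw [f2, f4, show ω (s 0) = _ from (congrFun w3 0).trans (w5 τ)]
        exact b1
      · rw [f2, f4, show ω (s' 0) = _ from (congrFun w4 0).trans (w5 τ')]
        exact b2
      · rw [f2, f3, w3, w4]
        exact b3)
  have hv := measurable_comp_right (Subtype.val : S0 → II)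
  refine ⟨fun z => k (z.1 ∘ Subtype.val, z.2), by fun_prop,
    (emb (Subtype.strictMono_coe _) n2).mono ?_⟩
  rintro ω ⟨b1, y, y', b4, b5, b2⟩
  by_contra b3
  obtain ⟨d1, d2, d3, -⟩ := x2 ω
  have := k2 _ ⟨d1.2 b1, b3⟩ y y'
  simp only [mem_ofPred, d2, d3] at this
  exact b2 (this b4 b5)

end Pool.Agent.Lib.MP_00fb6a_lc.Pos
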