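import Mathlib
import Pool.Agent.Lib.MP_053343_lc.Defs
import Pool.Agent.Lib.MP_00fb6a_lc.ModelDefs

/-!
Countable Borel equivalence relations on Borel subsets of Cantor space in the sense of a
transitive model `M`.
-/

set_option autoImplicit false

namespace Pool.Agent.Lib.MP_00fb6a_lc

open ZFSet

/-- The underlying space of `E`: the points of Cantor space that are related to themselves. -/
noncomputable def dom (M E : ZFSet.{0}) : ZFSet.{0} :=
  ZFSet.sep (fun x => pair x x ∈ E) (cantor M)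

/-- The set of `E`-classes. -/
noncomputable def quo (M E : ZFSet.{0}) : ZFSet.{0} :=
  ZFSet.sep (fun c => ∃ x ∈ dom M E, c = cls M E x) (powerset (cantor M))

/-- `E` is a countable Borel equivalence relation on the Borel set `dom M E`, in the sense of `M`. -/
def CBER (M E : ZFSet.{0}) : Prop :=
  BorelIn2 M E ∧ (∀ x y, pair x y ∈ E → pair y x ∈ E) ∧
    (∀ x y z, pair x y ∈ E → pair y z ∈ E → pair x z ∈ E) ∧
    ∀ x ∈ cantor M, CtblIn M (cls M E x)

/-- `g` is a Borel map from `X` to `Y` in the sense of `M`. -/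
def BorelMap (M X Y g : ZFSet.{0}) : Prop :=
  g ∈ M ∧ IsFunc X Y g ∧
    ∀ B, BorelIn M B → BorelIn M (ZFSet.sep (fun x => ∃ y ∈ B, pair x y ∈ g) X)

/-- `E ≤_B F` in the sense of `M`. -/
def Red (M E F : ZFSet.{0}) : Prop :=
  ∃ g, BorelMap M (dom M E) (dom M F) g ∧
    ∀ x y x' y', pair x y ∈ g → pair x' y' ∈ g → (pair x x' ∈ E ↔ pair y y' ∈ F)

/-- `E` and `F` are quotient Borel isomorphic in the sense of `M`. -/
def QIso (M E F : ZFSet.{0}) : Prop :=
  ∃ φ ∈ M, IsFunc (quo M E) (quo M F) φ ∧ (∀ d ∈ quo M F, ∃! c, pair c d ∈ φ) ∧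
    ∀ A ∈ M, A ⊆ quo M E → (BorelIn M (sUnion A) ↔
      BorelIn M (sUnion (ZFSet.sep (fun d => ∃ c ∈ A, pair c d ∈ φ) (quo M F))))

/-- The statement of the problem holds in `M`. -/
def Q1In (M : ZFSet.{0}) : Prop :=
  ∀ E ∈ M, ∀ F ∈ M, CBER M E → CBER M F → (Red M E F ∧ Red M F E ↔ QIso M E F)

end Pool.Agent.Lib.MP_00fb6a_lc
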