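import Mathlib
import Pool.Agent.Lib.MP_00fb6a_lc.Pos.Club
import Pool.Agent.Lib.MP_00fb6a_lc.Codes

/-!
Names for points and for Borel sets in the extension by a generic point.
-/

set_option autoImplicit false
set_option linter.unusedSectionVars false

namespace Pool.Agent.Lib.MP_00fb6a_lc.Pos

open Set Filter MeasureTheory Classical Pool.Agent.Lib.MP_053343_lc
  Pool.Agent.Lib.MP_053343_lc.Name Pool.Agent.Shared.Forcing Amb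

variable {Ω : Type} [MeasurableSpace Ω] [Amb Ω]

theorem meas_bit (n : ℕ) : MeasurableSet (gen1 n) :=
  (measurable_pi_apply n : Measurable fun t : Ca => t n) (measurableSet_singleton true)

theorem meas_decide {α : Type} [MeasurableSpace α] {p : α → Prop} (h : Measurable p) :
    Measurable fun a => decide (p a) :=
  measurable_to_bool (by
    convert h.setOf using 1
    ext a
    simp)

/-- The name of the real given by a function. -/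
def rN (f : Ω → Ca) : Nm Ω :=
  ⟨{x : ℕ × PP Ω // ∀ ω ∈ x.2.s, f ω x.1 = true}, fun x => natN x.1.1, fun x => x.1.2⟩

theorem val_rN_sub (X : CC Ω) (f : Ω → Ca) : X.C.val (rN f) ⊆ ZFSet.omega := by
  intro a ha
  obtain ⟨i, -, -, rfl⟩ := X.C.mem_val.1 ha
  exact mem_omega.2 ⟨_, X.C.val_natN _⟩

theorem eq_enc {a : ZFSet} (h : a ⊆ ZFSet.omega) {x : Ca} (e : ∀ n, nat n ∈ a ↔ x n = true) :
    a = enc x := by
  ext b
  rw [mem_enc]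
  refine ⟨fun hb => ?_, fun ⟨n, a1, a2⟩ => a2 ▸ (e n).2 a1⟩
  obtain ⟨n, rfl⟩ := mem_omega.1 (h hb)
  exact ⟨n, (e n).1 hb, rfl⟩

theorem ev_rN : ∀ᶠ X in club Ω, ∀ f : Ω → Ca, X.K f → Measurable f →
    rN f ∈ X.C.N ∧ X.C.val (rN f) = enc (f X.ω) := by
  filter_upwards [fn (rN (Ω := Ω)), eventually_countable_forall.2 fun n =>
    pos fun f : Ω → Ca => f ⁻¹' gen1 n] with X h1 h2 f hf hm
  refine ⟨h1 f hf, eq_enc (val_rN_sub X f) fun n => ⟨fun a => ?_, fun a => ?_⟩⟩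
  · obtain ⟨⟨⟨k, p⟩, i⟩, -, b, c⟩ := X.C.mem_val.1 a
    obtain rfl : n = k := nat_inj (c.trans (X.C.val_natN k))
    exact i _ (X.h1 p b)
  · obtain ⟨p, p1, -, p2⟩ := h2 n f hf (hm (meas_bit n)) a
    exact X.C.mem_val.2 ⟨⟨(n, p), fun ω b => (p2 ▸ b : ω ∈ f ⁻¹' gen1 n)⟩, X.C.natN_mem n, p1,
      (X.C.val_natN n).symm⟩

theorem exists_rd : ∃ rd : Nm Ω → Ω → Ca, (∀ σ, Measurable (rd σ)) ∧ ∀ᶠ X in club Ω,
    ∀ σ ∈ X.C.N, X.K (rd σ) ∧ (X.C.val σ ⊆ ZFSet.omega → X.C.val σ = enc (rd σ X.ω)) := by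
  choose s q h1 _ h3 using fun n => seq fun (σ : Nm Ω) (_ : Unit) p => FMem (natN n) σ p
  refine ⟨fun σ ω n => decide (∃ k, ω ∈ q n σ k), fun σ => measurable_pi_lambda _ fun n =>
    meas_decide (Measurable.exists fun k => (h1 n σ k).mem), ?_⟩
  filter_upwards [eventually_countable_forall.2 h3,
    fn fun (σ : Nm Ω) ω n => decide (∃ k, ω ∈ q n σ k)] with X a1 a2 σ hσ
  refine ⟨a2 σ hσ, fun h => eq_enc h fun n => ?_⟩
  rw [← X.C.val_natN, X.C.val_mem_iff (X.C.natN_mem n) hσ, decide_eq_true_eq]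
  exact ⟨fun ⟨p, b, c⟩ => (a1 n σ hσ).2 p b () c, fun ⟨k, b⟩ => ((a1 n σ hσ).1 k b).2⟩

variable (Ω) in
/-- Spaces whose points have names. -/
class Sp (Y : Type) [MeasurableSpace Y] where
  nm : (Ω → Y) → Nm Ω
  rr : (Ω → Y) → Ω → Y
  en : Y → ZFSet.{0}
  inj : Function.Injective en
  meas : ∀ f, Measurable (rr f)
  h1 : ∀ᶠ X in club Ω, ∀ f, nm f ∈ X.C.N → X.K (rr f) ∧ X.C.val (nm f) = en (rr f X.ω)
  h2 : ∀ᶠ X in club Ω, ∀ f, X.K f → Measurable f → nm f ∈ X.C.N ∧ X.C.val (nm f) = en (f X.ω)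

noncomputable instance : Sp Ω Ca where
  nm := rN
  rr f := exists_rd.choose (rN f)
  en := enc
  inj _ _ := enc_inj
  meas _ := exists_rd.choose_spec.1 _
  h1 := exists_rd.choose_spec.2.mono fun X h f a => ⟨(h _ a).1, (h _ a).2 (val_rN_sub X f)⟩
  h2 := ev_rN

instance {Y Y' : Type} [MeasurableSpace Y] [MeasurableSpace Y'] [Sp Ω Y] [Sp Ω Y'] :
    Sp Ω (Y × Y') where
  nm f := pairN (Sp.nm fun ω => (f ω).1) (Sp.nm fun ω => (f ω).2)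
  rr f ω := (Sp.rr (fun ω => (f ω).1) ω, Sp.rr (fun ω => (f ω).2) ω)
  en z := ZFSet.pair (Sp.en Ω z.1) (Sp.en Ω z.2)
  inj _ _ h := Prod.ext (Sp.inj (ZFSet.pair_inj.1 h).1) (Sp.inj (ZFSet.pair_inj.1 h).2)
  meas _ := (Sp.meas _).prodMk (Sp.meas _)
  h1 := by
    filter_upwards [Sp.h1 (Y := Y), Sp.h1 (Y := Y'),
      fn fun (f : (Ω → Y) × (Ω → Y')) ω => (f.1 ω, f.2 ω)] with X a1 a2 a3 f h
    have b1 := a1 _ (X.C.pairN_left h)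
    have b2 := a2 _ (X.C.pairN_right h)
    exact ⟨a3 (_, _) (b1.1.pair b2.1), by rw [X.C.val_pairN h, b1.2, b2.2]⟩
  h2 := by
    filter_upwards [Sp.h2 (Y := Y), Sp.h2 (Y := Y'), fn fun (f : Ω → Y × Y') ω => (f ω).1,
      fn fun (f : Ω → Y × Y') ω => (f ω).2] with X a1 a2 a3 a4 f h hm
    have b1 := a1 _ (a3 f h) hm.fst
    have b2 := a2 _ (a4 f h) hm.snd
    have b3 := X.C.pair_memN b1.1 b2.1
    exact ⟨b3, by rw [X.C.val_pairN b3, b1.2, b2.2]⟩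

section

variable {Y : Type} [MeasurableSpace Y] [Sp Ω Y]

/-- The trace on the model of the generic section of `A`. -/
noncomputable def CC.tr (X : CC Ω) (A : Set (Ω × Y)) : ZFSet.{0} :=
  ZFSet.range fun y : {y // y ∈ X.Pt Y ∧ (X.ω, y) ∈ A} => Sp.en Ω y.1

theorem mem_tr {X : CC Ω} {A : Set (Ω × Y)} {a : ZFSet} :
    a ∈ X.tr A ↔ ∃ y ∈ X.Pt Y, (X.ω, y) ∈ A ∧ a = Sp.en Ω y := by
  rw [CC.tr, ZFSet.mem_range]
  exact ⟨fun ⟨y, h⟩ => ⟨y.1, y.2.1, y.2.2, h.symm⟩, fun ⟨y, a, b, h⟩ => ⟨⟨y, a, b⟩, h.symm⟩⟩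

theorem en_mem_tr {X : CC Ω} {A : Set (Ω × Y)} {y : Y} :
    Sp.en Ω y ∈ X.tr A ↔ y ∈ X.Pt Y ∧ (X.ω, y) ∈ A := by
  rw [mem_tr]
  exact ⟨fun ⟨z, a, b, h⟩ => Sp.inj h ▸ ⟨a, b⟩, fun h => ⟨y, h.1, h.2, rfl⟩⟩

theorem tr_congr {X : CC Ω} {A B : Set (Ω × Y)}
    (h : ∀ y ∈ X.Pt Y, (X.ω, y) ∈ A ↔ (X.ω, y) ∈ B) : X.tr A = X.tr B := by
  ext a
  simp only [mem_tr]
  exact exists_congr fun y => and_congr_right fun hy => by rw [h y hy]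

theorem tr_compl (X : CC Ω) (A : Set (Ω × Y)) : X.tr Aᶜ = X.tr (univ : Set (Ω × Y)) \ X.tr A := by
  ext a
  rw [ZFSet.mem_sdiff, mem_tr, mem_tr]
  constructor
  · rintro ⟨y, a1, a2, rfl⟩
    exact ⟨⟨y, a1, trivial, rfl⟩, fun h => a2 (en_mem_tr.1 h).2⟩
  · rintro ⟨⟨y, a1, -, rfl⟩, h⟩
    exact ⟨y, a1, fun e => h (en_mem_tr.2 ⟨a1, e⟩), rfl⟩

theorem tr_empty (X : CC Ω) : X.tr (∅ : Set (Ω × Y)) = ∅ := by
  ext a
  simp [mem_tr]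

/-- The name of the generic section of `A`. -/
def secN (A : Set (Ω × Y)) : Nm Ω :=
  ⟨{x : (Ω → Y) × PP Ω // ∀ ω ∈ x.2.s, (ω, Sp.rr x.1 ω) ∈ A}, fun x => Sp.nm x.1.1, fun x => x.1.2⟩

theorem ev_secN : ∀ᶠ X in club Ω, ∀ A : Set (Ω × Y), X.K A → MeasurableSet A →
    secN A ∈ X.C.N ∧ X.C.val (secN A) = X.tr A := by
  filter_upwards [fn (secN (Ω := Ω) (Y := Y)), Sp.h1 (Y := Y), Sp.h2 (Y := Y),
    pos fun t : Set (Ω × Y) × (Ω → Y) => {ω | (ω, t.2 ω) ∈ t.1}] with X a1 a2 a3 a4 A hA hm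
  refine ⟨a1 A hA, ZFSet.ext fun a => ?_⟩
  rw [mem_tr, X.C.mem_val]
  constructor
  · rintro ⟨⟨⟨f, p⟩, i⟩, b1, b2, rfl⟩
    exact ⟨_, ⟨_, (a2 f b1).1, Sp.meas f, rfl⟩, i _ (X.h1 p b2), (a2 f b1).2⟩
  · rintro ⟨_, ⟨f, b1, b2, rfl⟩, b3, rfl⟩
    obtain ⟨c1, c2⟩ := a3 f b1 b2
    obtain ⟨c3, c4⟩ := a2 f c1
    obtain ⟨p, p1, -, p2⟩ := a4 (A, Sp.rr f) (hA.pair c3)
      ((measurable_id.prodMk (Sp.meas f)) hm) (by rwa [Sp.inj (c2.symm.trans c4)] at b3)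
    exact ⟨⟨(f, p), fun ω b => (p2 ▸ b : ω ∈ {ω | (ω, Sp.rr f ω) ∈ A})⟩, c1, p1, c2.symm⟩

variable (Y) in
/-- `a` is the trace of a known measurable set. -/
def CC.Cod (X : CC Ω) (a : ZFSet.{0}) : Prop :=
  ∃ A : Set (Ω × Y), X.K A ∧ MeasurableSet A ∧ a = X.tr A

theorem pair_mem_iff (X : CC Ω) {σ τ υ : Nm Ω} (hσ : σ ∈ X.C.N) (hτ : τ ∈ X.C.N) (hυ : υ ∈ X.C.N) :
    ZFSet.pair (X.C.val σ) (X.C.val τ) ∈ X.C.val υ ↔ ∃ p ∈ X.C.G, FMem (pairN σ τ) υ p := by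
  rw [← X.C.val_pairN (X.C.pair_memN hσ hτ)]
  exact X.C.val_mem_iff (X.C.pair_memN hσ hτ) hυ

variable (Y) in
theorem ev_sigma : ∀ᶠ X in club Ω, ∃ T ∈ X.C.M, (∀ a, a ∈ T ↔ X.Cod Y a) ∧
    SigmaIn X.C.M (X.tr (univ : Set (Ω × Y))) T := by
  choose s q h1 h2 h3 using fun n => seq fun (σ : Nm Ω) (A : Set (Ω × Y)) p =>
    MeasurableSet A ∧ FMem (pairN (natN n) (secN A)) σ p
  filter_upwards [cst (setN fun A : {A : Set (Ω × Y) // MeasurableSet A} => secN A.1 : Nm Ω),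
    ev_secN (Y := Y), wit fun (σ : Nm Ω) (A : Set (Ω × Y)) => MeasurableSet A ∧ secN A = σ,
    fn fun A : Set (Ω × Y) => Aᶜ, cst (∅ : Set (Ω × Y)), eventually_countable_forall.2 h3,
    fn fun σ : Nm Ω => ⋃ n, ⋃ k, Prod.fst ⁻¹' q n σ k ∩ s n σ k] with X a1 a2 a3 a4 a5 a6 a7
  have e : ∀ a, a ∈ X.C.val (setN fun A : {A : Set (Ω × Y) // MeasurableSet A} => secN A.1) ↔
      X.Cod Y a := by
    intro a
    rw [X.C.mem_val]
    constructor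
    · rintro ⟨A, b1, -, rfl⟩
      obtain ⟨B, b2, b3, b4⟩ := a3 _ b1 ⟨A.1, A.2, rfl⟩
      exact ⟨B, b2, b3, (congrArg X.C.val b4).symm.trans (a2 B b2 b3).2⟩
    · rintro ⟨A, b1, b2, rfl⟩
      exact ⟨⟨A, b2⟩, (a2 A b1 b2).1, X.C.top, (a2 A b1 b2).2.symm⟩
  refine ⟨_, X.C.val_mem_M a1, e, fun A hA => ?_, fun A hA => ?_, fun S _ hS hc => (e _).2 ?_⟩
  · obtain ⟨B, -, -, rfl⟩ := (e _).1 hA
    intro a ha
    obtain ⟨y, b1, -, rfl⟩ := mem_tr.1 ha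
    exact en_mem_tr.2 ⟨b1, trivial⟩
  · obtain ⟨B, b1, b2, rfl⟩ := (e _).1 hA
    exact (e _).2 ⟨Bᶜ, a4 B b1, b2.compl, (tr_compl X B).symm⟩
  rcases hc with rfl | ⟨f, hf, f1, f2⟩
  · exact ⟨∅, a5, MeasurableSet.empty, by rw [tr_empty, ZFSet.sUnion_empty]⟩
  obtain ⟨σ, hσ, rfl⟩ := X.C.mem_M.1 hf
  have key : ∀ n k, X.ω ∈ q n σ k → ZFSet.pair (nat n) (X.tr (s n σ k)) ∈ X.C.val σ := by
    intro n k b
    obtain ⟨b1, p, b2, b3, b4⟩ := (a6 n σ hσ).1 k b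
    rw [← X.C.val_natN, ← (a2 _ b1 b3).2, pair_mem_iff X (X.C.natN_mem n) (a2 _ b1 b3).1 hσ]
    exact ⟨p, b2, b4⟩
  refine ⟨_, a7 σ hσ, MeasurableSet.iUnion fun n => MeasurableSet.iUnion fun k => ?_,
    ZFSet.ext fun a => ?_⟩
  · rcases (q n σ k).eq_empty_or_nonempty with b | b
    · simp [b]
    · exact (measurable_fst (h1 n σ k)).inter (h2 n σ k b).choose_spec.1
  rw [ZFSet.mem_sUnion, mem_tr]
  constructor
  · rintro ⟨t, ht, ha⟩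
    obtain ⟨m, hm⟩ := f2 t ht
    have b1 := (ZFSet.pair_mem_prod.1 (f1.1 hm)).1
    obtain ⟨n, rfl⟩ := mem_omega.1 b1
    obtain ⟨A, b2, b3, rfl⟩ := (e _).1 (hS ht)
    obtain ⟨p, p1, p2⟩ := (pair_mem_iff X (X.C.natN_mem n) (a2 A b2 b3).1 hσ).1
      (by rwa [X.C.val_natN, (a2 A b2 b3).2])
    obtain ⟨k, hk⟩ := (a6 n σ hσ).2 p p1 A ⟨b3, p2⟩
    rw [(f1.2 _ b1).unique hm (key n k hk)] at ha
    obtain ⟨y, c1, c2, rfl⟩ := mem_tr.1 ha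
    exact ⟨y, c1, mem_iUnion₂.2 ⟨n, k, hk, c2⟩, rfl⟩
  · rintro ⟨y, b1, b2, rfl⟩
    obtain ⟨n, k, b3, b4⟩ := mem_iUnion₂.1 b2
    exact ⟨_, (ZFSet.pair_mem_prod.1 (f1.1 (key n k b3))).2, en_mem_tr.2 ⟨b1, b4⟩⟩

end

theorem ev_cantor : ∀ᶠ X in club Ω, cantor X.C.M = X.tr (univ : Set (Ω × Ca)) := by
  filter_upwards [ev_rN, exists_rd.choose_spec.2] with X a1 a2
  ext a
  rw [cantor, ZFSet.mem_sep, mem_tr]
  constructor
  · rintro ⟨h, hs⟩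
    obtain ⟨σ, hσ, rfl⟩ := X.C.mem_M.1 h
    exact ⟨_, ⟨_, (a2 σ hσ).1, exists_rd.choose_spec.1 σ, rfl⟩, trivial, (a2 σ hσ).2 hs⟩
  · rintro ⟨_, ⟨f, b1, b2, rfl⟩, -, rfl⟩
    have e : Sp.en Ω (f X.ω) = X.C.val (rN f) := (a1 f b1 b2).2.symm
    rw [e]
    exact ⟨X.C.val_mem_M (a1 f b1 b2).1, val_rN_sub X f⟩

theorem cyl_eq {X : CC Ω} (h : cantor X.C.M = X.tr (univ : Set (Ω × Ca))) (n : ℕ) :
    cyl X.C.M (nat n) = X.tr (Prod.snd ⁻¹' gen1 n) := by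
  ext a
  rw [cyl, ZFSet.mem_sep, h, mem_tr, mem_tr]
  exact ⟨fun ⟨⟨y, a1, _, a2⟩, b⟩ => ⟨y, a1, nat_mem_enc.1 (a2 ▸ b :), a2⟩,
    fun ⟨y, a1, a2, a3⟩ => ⟨⟨y, a1, trivial, a3⟩, a3 ▸ nat_mem_enc.2 a2⟩⟩

theorem ev_prod : ∀ᶠ X in club Ω, ∀ A B : Set Ca,
    ZFSet.prod (X.tr (Prod.snd ⁻¹' A)) (X.tr (Prod.snd ⁻¹' B)) = X.tr (Prod.snd ⁻¹' A ×ˢ B) := by
  filter_upwards [pt_prod (Y := Ca) (Y' := Ca)] with X h A B
  ext a
  rw [ZFSet.mem_prod, mem_tr]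
  constructor
  · rintro ⟨b, hb, c, hc, rfl⟩
    obtain ⟨x, h1, h2, rfl⟩ := mem_tr.1 hb
    obtain ⟨y, h3, h4, rfl⟩ := mem_tr.1 hc
    exact ⟨(x, y), (h _).2 ⟨h1, h3⟩, ⟨h2, h4⟩, rfl⟩
  · rintro ⟨z, h1, h2, rfl⟩
    exact ⟨_, en_mem_tr.2 ⟨((h z).1 h1).1, h2.1⟩, _, en_mem_tr.2 ⟨((h z).1 h1).2, h2.2⟩, rfl⟩

/-- Generators of the product sigma-algebra. -/
def genP : {B : Set Ω // MeasurableSet B} ⊕ ℕ → Set (Ω × Ca) :=
  Sum.elim (fun B => Prod.fst ⁻¹' B.1) fun n => Prod.snd ⁻¹' gen1 n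

theorem exists_codeP {A : Set (Ω × Ca)} (hA : MeasurableSet A) :
    ∃ c : BCode _, c.ev genP = A := by
  let _ : Inhabited ({B : Set Ω // MeasurableSet B} ⊕ ℕ) := ⟨.inr 0⟩
  have h1 : Measurable[codedSpace genP] (Prod.fst : Ω × Ca → Ω) :=
    fun B hB => ⟨.basic (.inl ⟨B, hB⟩), rfl⟩
  have h2 : Measurable[codedSpace genP] (Prod.snd : Ω × Ca → Ca) := by
    refine @measurable_pi_lambda _ _ _ (codedSpace genP) _ _ fun n => ?_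
    exact @measurable_to_bool _ (codedSpace genP) _ ⟨.basic (.inr n), rfl⟩
  exact (Measurable.prodMk (m := codedSpace genP) h1 h2) hA

theorem meas_ev (c : BCode _) : MeasurableSet (c.ev (genP (Ω := Ω))) := by
  induction c with
  | basic i =>
    cases i with
    | inl B => exact measurable_fst B.2
    | inr n => exact measurable_snd (meas_bit n)
  | compl c ih => exact ih.compl
  | union f ih => exact MeasurableSet.iUnion ih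

/-- The children of a code. -/
def sub1 {ι : Type} (n : ℕ) : BCode ι → BCode ι
  | .basic i => .basic i
  | .compl c => c
  | .union f => f n

theorem ev_borel : ∀ᶠ X in club Ω, ∀ a, BorelIn X.C.M a ↔ X.Cod Ca a := by
  filter_upwards [ev_sigma Ca, ev_cantor,
    eventually_countable_forall.2 fun n => cst (Prod.snd ⁻¹' gen1 n : Set (Ω × Ca)),
    wit fun (A : Set (Ω × Ca)) (c : BCode _) => c.ev genP = A,
    fnn (sub1 (ι := {B : Set Ω // MeasurableSet B} ⊕ ℕ)),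
    fn fun c : BCode _ => c.ev (genP (Ω := Ω)), ev_secN (Y := Ca),
    fn fun c : BCode _ => ((setN fun n => secN ((sub1 n c).ev genP),
      sqN fun n => secN ((sub1 n c).ev genP)) : Nm Ω × Nm Ω)] with X a1 a2 a3 a4 a5 a6 a7 a8 a
  constructor
  · intro h
    obtain ⟨T, t1, t2, t3⟩ := a1
    refine (t2 a).1 (h T t1 (a2 ▸ t3) fun b hb => (t2 _).2 ?_)
    obtain ⟨n, rfl⟩ := mem_omega.1 hb
    exact ⟨_, a3 n, measurable_snd (meas_bit n), cyl_eq a2 n⟩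
  rintro ⟨A, b1, b2, rfl⟩ T - hT hg
  obtain ⟨c, c1, rfl⟩ := a4 A b1 (exists_codeP b2)
  rw [a2] at hT
  have h0 : ∅ ∈ T := by
    have := hT.2.2 ∅ (X.C.val_empty ▸ X.C.val_mem_M X.C.emp) (ZFSet.empty_subset _) (Or.inl rfl)
    rwa [ZFSet.sUnion_empty] at this
  clear b1 b2
  induction c with
  | basic i =>
    cases i with
    | inl B =>
      by_cases h : X.ω ∈ B.1
      · have := hT.2.1 _ h0
        rw [← tr_empty (Y := Ca) X, ← tr_compl] at this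
        rwa [tr_congr (B := ∅ᶜ) fun y _ => iff_of_true h fun e => e]
      · rwa [tr_congr (B := ∅) fun y _ => iff_of_false h fun e => e, tr_empty]
    | inr n => exact cyl_eq a2 n ▸ hg _ (mem_omega.2 ⟨n, rfl⟩)
  | compl c ih =>
    change X.tr (c.ev genP)ᶜ ∈ T
    rw [tr_compl]
    exact hT.2.1 _ (ih (a5 0 _ c1))
  | union f ih =>
    have d1 : ∀ n, X.C.val (secN ((f n).ev genP)) = X.tr ((f n).ev genP) := fun n =>
      (a7 _ (a6 _ (a5 n _ c1)) (meas_ev _)).2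
    have d2 : (setN fun n => secN ((f n).ev genP)) ∈ X.C.N := (a8 _ c1).fst
    have := hT.2.2 _ (X.C.val_mem_M d2) (fun b hb => by
      obtain ⟨n, rfl⟩ := (X.C.mem_val_setN d2).1 hb
      exact d1 n ▸ ih n (a5 n _ c1)) (ctbl_of_sqN X.C (a8 _ c1).snd fun a => X.C.mem_val_setN d2)
    convert this using 1
    ext b
    simp only [ZFSet.mem_sUnion, X.C.mem_val_setN d2, d1, mem_tr, BCode.ev, mem_iUnion]
    constructor
    · rintro ⟨y, e1, ⟨n, e2⟩, rfl⟩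
      exact ⟨_, ⟨n, rfl⟩, en_mem_tr.2 ⟨e1, e2⟩⟩
    · rintro ⟨_, ⟨n, rfl⟩, e⟩
      obtain ⟨y, e1, e2, rfl⟩ := mem_tr.1 e
      exact ⟨y, e1, ⟨n, e2⟩, rfl⟩

theorem ev_borel2 : ∀ᶠ X in club Ω, ∀ a, BorelIn2 X.C.M a → X.Cod (Ca × Ca) a := by
  filter_upwards [ev_sigma (Ca × Ca), ev_cantor, ev_prod, eventually_countable_forall.2 fun n =>
    cst ((Prod.snd ⁻¹' gen1 n ×ˢ univ, Prod.snd ⁻¹' univ ×ˢ gen1 n) :
      Set (Ω × Ca × Ca) × Set (Ω × Ca × Ca))] with X ⟨T, t1, t2, t3⟩ a2 a3 a4 a h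
  have e : cantor X.C.M = X.tr (Prod.snd ⁻¹' (univ : Set Ca)) := a2
  refine (t2 a).1 (h T t1 (by rwa [e, a3, univ_prod_univ]) fun b hb => ?_)
  obtain ⟨n, rfl⟩ := mem_omega.1 hb
  rw [cyl_eq a2, e, a3, a3, t2, t2]
  exact ⟨⟨_, (a4 n).fst, measurable_snd ((meas_bit n).prod MeasurableSet.univ), rfl⟩,
    _, (a4 n).snd, measurable_snd (MeasurableSet.univ.prod (meas_bit n)), rfl⟩

end Pool.Agent.Lib.MP_00fb6a_lc.Pos
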