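import Mathlib
import Pool.Agent.Lib.MP_00fb6a_lc.Pos.Core

/-!
The Schroeder-Bernstein argument for quotients, and the Mazurkiewicz-Sierpinski theorem.
-/

set_option autoImplicit false
set_option linter.unusedSectionVars false

namespace Pool.Agent.Lib.MP_00fb6a_lc.Pos

open Set MeasureTheory Classical Function

section sb

variable {X Y : Type} [MeasurableSpace X] [StandardBorelSpace X] [MeasurableSpace Y]
  [StandardBorelSpace Y] [Nonempty X] [Nonempty Y] {E : X → X → Prop} {F : Y → Y → Prop}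

theorem sat_sel (hE : Per E) (hF : Per F) (mE : Measurable fun z : X × X => E z.1 z.2)
    (mF : Measurable fun z : Y × Y => F z.1 z.2) {h : X → Y} (hh : Measurable h)
    (r : ∀ x x', E x x → E x' x' → (E x x' ↔ F (h x) (h x'))) :
    ∃ s : Y → X, Measurable s ∧ ∀ x y, E x x → F (h x) y → E x (s y) := by
  obtain ⟨s, s1, s2⟩ := sel (G := {z : Y × X | E z.2 z.2 ∧ F (h z.2) z.1})
    (Measurable.setOf ((mE.comp (f := fun z : Y × X => (z.2, z.2)) (by fun_prop)).and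
      (mF.comp (f := fun z : Y × X => (h z.2, z.1)) (by fun_prop)))) fun y => by
      rcases {x | E x x ∧ F (h x) y}.eq_empty_or_nonempty with e | ⟨x, hx⟩
      · exact e ▸ countable_empty
      · exact (hE.cnt x).mono fun x' a => (r x x' hx.1 a.1).2 (hF.trans hx.2 (hF.symm a.2))
  exact ⟨s, s1, fun x y a b => (r _ _ a (s2 y x ⟨a, b⟩).1).2
    (hF.trans b (hF.symm (s2 y x ⟨a, b⟩).2))⟩

theorem sb (hE : Per E) (hF : Per F) (mE : Measurable fun z : X × X => E z.1 z.2)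
    (mF : Measurable fun z : Y × Y => F z.1 z.2) {h : X → Y} {h' : Y → X} (hh : Measurable h)
    (hh' : Measurable h') (r : ∀ x x', E x x → E x' x' → (E x x' ↔ F (h x) (h x')))
    (r' : ∀ y y', F y y → F y' y' → (F y y' ↔ E (h' y) (h' y'))) :
    ∃ (k : X → Y) (k' : Y → X), Measurable k ∧ Measurable k' ∧
      (∀ x x', E x x' → F (k x) (k x')) ∧ (∀ y y', F y y' → E (k' y) (k' y')) ∧
      (∀ x, E x x → E (k' (k x)) x ∧ (k x = h x ∨ E (h' (k x)) x)) ∧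
      ∀ y, F y y → F (k (k' y)) y ∧ (k' y = h' y ∨ F (h (k' y)) y) := by
  obtain ⟨s, s1, s2⟩ := sat_sel hE hF mE mF hh r
  obtain ⟨s', s1', s2'⟩ := sat_sel hF hE mF mE hh' r'
  have hom : ∀ x x', E x x' → F (h x) (h x') := fun x x' a => (r _ _ (hE.left a) (hE.right a)).1 a
  have hom' : ∀ y y', F y y' → E (h' y) (h' y') := fun y y' a =>
    (r' _ _ (hF.left a) (hF.right a)).1 a
  let I : Set X → Set Y := fun A => {y | ∃ x ∈ A, E x x ∧ F (h x) y}
  let I' : Set Y → Set X := fun B => {x | ∃ y ∈ B, F y y ∧ E (h' y) x}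
  have iI : ∀ A y y', F y y' → y ∈ I A → y' ∈ I A := fun A y y' a ⟨x, b, c, d⟩ =>
    ⟨x, b, c, hF.trans d a⟩
  have iI' : ∀ B x x', E x x' → x ∈ I' B → x' ∈ I' B := fun B x x' a ⟨y, b, c, d⟩ =>
    ⟨y, b, c, hE.trans d a⟩
  have mI : ∀ A, MeasurableSet A → (∀ x x', E x x' → x ∈ A → x' ∈ A) → MeasurableSet (I A) := by
    intro A hA hi
    have e : I A = {y | s y ∈ A ∧ E (s y) (s y) ∧ F (h (s y)) y} := Set.ext fun y =>
      ⟨fun ⟨x, a, b, c⟩ => ⟨hi _ _ (s2 x y b c) a, hE.right (s2 x y b c),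
        hF.trans (hF.symm (hom _ _ (s2 x y b c))) c⟩, fun a => ⟨_, a⟩⟩
    rw [e]
    exact Measurable.setOf ((hA.mem.comp s1).and ((mE.comp (s1.prodMk s1)).and
      (mF.comp ((hh.comp s1).prodMk measurable_id))))
  have mI' : ∀ B, MeasurableSet B → (∀ y y', F y y' → y ∈ B → y' ∈ B) → MeasurableSet (I' B) := by
    intro B hB hi
    have e : I' B = {x | s' x ∈ B ∧ F (s' x) (s' x) ∧ E (h' (s' x)) x} := Set.ext fun x =>
      ⟨fun ⟨y, a, b, c⟩ => ⟨hi _ _ (s2' y x b c) a, hF.right (s2' y x b c),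
        hE.trans (hE.symm (hom' _ _ (s2' y x b c))) c⟩, fun a => ⟨_, a⟩⟩
    rw [e]
    exact Measurable.setOf ((hB.mem.comp s1').and ((mF.comp (s1'.prodMk s1')).and
      (mE.comp ((hh'.comp s1').prodMk measurable_id))))
  let A : ℕ → Set X := fun n => Nat.rec (I' univ)ᶜ (fun _ A => I' (I A)) n
  have hA : ∀ n, MeasurableSet (A n) ∧ ∀ x x', E x x' → x ∈ A n → x' ∈ A n := by
    intro n
    induction n with
    | zero => exact ⟨(mI' _ MeasurableSet.univ fun _ _ _ _ => trivial).compl,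
        fun x x' a b c => b (iI' _ _ _ (hE.symm a) c)⟩
    | succ n ih => exact ⟨mI' _ (mI _ ih.1 ih.2) (iI _), iI' _⟩
  let U := ⋃ n, A n
  have mU : MeasurableSet U := MeasurableSet.iUnion fun n => (hA n).1
  have iU : ∀ x x', E x x' → x ∈ U → x' ∈ U := fun x x' a b =>
    mem_iUnion.2 ((mem_iUnion.1 b).imp fun n => (hA n).2 x x' a)
  have k1 : ∀ x, x ∉ U → F (s' x) (s' x) ∧ E (h' (s' x)) x ∧ s' x ∉ I U := by
    intro x a
    obtain ⟨y, -, b, c⟩ : x ∈ I' univ := not_not.1 fun e => a (mem_iUnion.2 ⟨0, e⟩)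
    have d := s2' y x b c
    have d' := hE.trans (hE.symm (hom' _ _ d)) c
    refine ⟨hF.right d, d', fun ⟨x0, e1, e2⟩ => ?_⟩
    obtain ⟨n, hn⟩ := mem_iUnion.1 e1
    exact a (mem_iUnion.2 ⟨n + 1, _, ⟨x0, hn, e2⟩, hF.right d, d'⟩)
  have k2 : ∀ y ∈ I U, E (s y) (s y) ∧ F (h (s y)) y ∧ s y ∈ U := by
    rintro y ⟨x, a, b, c⟩
    have d := s2 x y b c
    exact ⟨hE.right d, hF.trans (hF.symm (hom _ _ d)) c, iU _ _ d a⟩
  have k3 : ∀ y, F y y → y ∉ I U → h' y ∉ U := by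
    intro y a b c
    obtain ⟨n, hn⟩ := mem_iUnion.1 c
    cases n with
    | zero => exact hn ⟨y, trivial, a, hom' _ _ a⟩
    | succ n =>
      obtain ⟨y', ⟨x, d1, d2, d3⟩, d4, d5⟩ := hn
      exact b ⟨x, mem_iUnion.2 ⟨n, d1⟩, d2, hF.trans d3 ((r' _ _ d4 a).2 d5)⟩
  refine ⟨fun x => if x ∈ U then h x else s' x, fun y => if y ∈ I U then s y else h' y,
    Measurable.ite mU hh s1', Measurable.ite (mI _ mU iU) s1 hh', fun x x' a => ?_,
    fun y y' a => ?_, fun x a => ?_, fun y a => ?_⟩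
  · by_cases b : x ∈ U
    · simp only [if_pos b, if_pos (iU _ _ a b)]
      exact hom _ _ a
    · have b' : x' ∉ U := fun e => b (iU _ _ (hE.symm a) e)
      simp only [if_neg b, if_neg b']
      exact s2' _ _ (k1 x b).1 (hE.trans (k1 x b).2.1 a)
  · by_cases b : y ∈ I U
    · simp only [if_pos b, if_pos (iI _ _ _ a b)]
      exact s2 _ _ (k2 y b).1 (hF.trans (k2 y b).2.1 a)
    · have b' : y' ∉ I U := fun e => b (iI _ _ _ (hF.symm a) e)
      simp only [if_neg b, if_neg b']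
      exact hom' _ _ a
  · by_cases b : x ∈ U
    · have b' : h x ∈ I U := ⟨x, b, a, hom _ _ a⟩
      simp only [if_pos b, if_pos b']
      exact ⟨hE.symm (s2 _ _ a (hom _ _ a)), Or.inl trivial⟩
    · simp only [if_neg b, if_neg (k1 x b).2.2]
      exact ⟨(k1 x b).2.1, Or.inr (k1 x b).2.1⟩
  · by_cases b : y ∈ I U
    · simp only [if_pos b, if_pos (k2 y b).2.2]
      exact ⟨(k2 y b).2.1, Or.inr (k2 y b).2.1⟩
    · simp only [if_neg b, if_neg (k3 y a b)]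
      exact ⟨hF.symm (s2' _ _ a (hom' _ _ a)), Or.inl trivial⟩

end sb

theorem core2 (I : Type) [Nonempty I] : Core2 (I → W) := by
  intro p E F h h' hp hE hF fE fF hh hh' r r'
  obtain ⟨S1, s1, s1'⟩ := exists_supp (hE.inter (measurable_fst hp))
  obtain ⟨S2, s2, s2'⟩ := exists_supp (hF.inter (measurable_fst hp))
  obtain ⟨σ, -, hσ⟩ := exists_enum (s1.union s2) (Classical.arbitrary I)
  have hx := measurable_xt σ
  have hσ' := measurable_comp_right σ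
  let L : Set ((I → W) × Ca × Ca) → (ℕ → W) × Ca → (ℕ → W) × Ca → Prop := fun E z z' =>
    z.1 = z'.1 ∧ xt σ z.1 ∈ p ∧ (xt σ z.1, z.2, z'.2) ∈ E
  have pL : ∀ E, Fib p E → Per (L E) := fun E f => ⟨fun a => ⟨a.1.symm, a.1 ▸ a.2.1,
    a.1 ▸ (f _ a.2.1).symm a.2.2⟩, fun a b => ⟨a.1.trans b.1, a.2.1,
      (f _ a.2.1).trans a.2.2 (a.1 ▸ b.2.2)⟩, fun z => by
    by_cases a : xt σ z.1 ∈ p
    · refine Countable.mono (fun z' b => ?_) (((f _ a).cnt z.2).image fun y => (z.1, y))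
      exact ⟨z'.2, b.2.2, Prod.ext b.1 rfl⟩
    · exact countable_empty.mono fun y b => a b.2.1⟩
  have mL : ∀ E, MeasurableSet E → Measurable fun z : ((ℕ → W) × Ca) × (ℕ → W) × Ca =>
      L E z.1 z.2 := fun E hE => (Measurable.eq (by fun_prop) (by fun_prop)).and
    ((hp.mem.comp (by fun_prop)).and (hE.mem.comp (by fun_prop)))
  have rL : ∀ E F (h : (I → W) × Ca → Ca), (∀ ω ∈ p, ∀ x x', (ω, x, x) ∈ E → (ω, x', x') ∈ E →
      ((ω, x, x') ∈ E ↔ (ω, h (ω, x), h (ω, x')) ∈ F)) → ∀ z z', L E z z → L E z' z' →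
      (L E z z' ↔ L F (z.1, h (xt σ z.1, z.2)) (z'.1, h (xt σ z'.1, z'.2))) := by
    rintro E F h r ⟨ξ, x⟩ ⟨ξ', x'⟩ a b
    refine and_congr_right fun e => ?_
    obtain rfl : ξ = ξ' := e
    exact and_congr_right fun c => r _ c x x' a.2.2 b.2.2
  obtain ⟨k, k', k1, k2, k3, k4, k5, k6⟩ := sb (pL E fE) (pL F fF) (mL E hE) (mL F hF)
    (h := fun z => (z.1, h (xt σ z.1, z.2))) (h' := fun z => (z.1, h' (xt σ z.1, z.2)))
    (by fun_prop) (by fun_prop) (rL E F h r) (rL F E h' r')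
  refine ⟨fun z => (k (z.1 ∘ σ, z.2)).2, fun z => (k' (z.1 ∘ σ, z.2)).2, by fun_prop, by fun_prop,
    fun ω hω => ?_⟩
  have e1 : ∀ x x', L E (ω ∘ σ, x) (ω ∘ σ, x') ↔ (ω, x, x') ∈ E := fun x x' => by
    have := s1' _ ω (fun c hc => xt_comp σ ω (hσ (Or.inl hc))) (x, x')
    exact ⟨fun a => (this.1 ⟨a.2.2, a.2.1⟩).1, fun a => ⟨rfl, (this.2 ⟨a, hω⟩).symm⟩⟩
  have e2 : ∀ x x', L F (ω ∘ σ, x) (ω ∘ σ, x') ↔ (ω, x, x') ∈ F := fun x x' => by
    have := s2' _ ω (fun c hc => xt_comp σ ω (hσ (Or.inr hc))) (x, x')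
    exact ⟨fun a => (this.1 ⟨a.2.2, a.2.1⟩).1, fun a => ⟨rfl, (this.2 ⟨a, hω⟩).symm⟩⟩
  have e3 : ∀ x, (ω, x, x) ∈ E → k (ω ∘ σ, x) = (ω ∘ σ, (k (ω ∘ σ, x)).2) := fun x a =>
    Prod.ext ((k5 _ ((e1 x x).2 a)).2.elim (fun b => by rw [b]) fun b => b.1) rfl
  have e4 : ∀ y, (ω, y, y) ∈ F → k' (ω ∘ σ, y) = (ω ∘ σ, (k' (ω ∘ σ, y)).2) := fun y a =>
    Prod.ext ((k6 _ ((e2 y y).2 a)).2.elim (fun b => by rw [b]) fun b => b.1) rfl
  have e5 : ∀ x x', (ω, x, x') ∈ E → (ω, (k (ω ∘ σ, x)).2, (k (ω ∘ σ, x')).2) ∈ F := fun x x' a => by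
    rw [← e2, ← e3 x ((fE ω hω).left a), ← e3 x' ((fE ω hω).right a)]
    exact k3 _ _ ((e1 x x').2 a)
  have e6 : ∀ y y', (ω, y, y') ∈ F → (ω, (k' (ω ∘ σ, y)).2, (k' (ω ∘ σ, y')).2) ∈ E :=
    fun y y' a => by
      rw [← e1, ← e4 y ((fF ω hω).left a), ← e4 y' ((fF ω hω).right a)]
      exact k4 _ _ ((e2 y y').2 a)
  refine ⟨e5, e6, fun x a => ?_, fun y a => ?_⟩
  · rw [← e1, ← e4 _ (e5 x x a), ← e3 x a]
    exact (k5 _ ((e1 x x).2 a)).1
  · rw [← e2, ← e3 _ (e6 y y a), ← e4 y a]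
    exact (k6 _ ((e2 y y).2 a)).1

/-- The set of uncountable sections of a Borel set is analytic. -/
theorem maz_sier {X Y : Type} [MeasurableSpace X] [StandardBorelSpace X] [MeasurableSpace Y]
    [StandardBorelSpace Y] {A : Set (X × Y)} (hA : MeasurableSet A) :
    ∃ R : Set (X × (ℕ → Y)), MeasurableSet R ∧
      ∀ x, (∃ z, (x, z) ∈ R) ↔ ¬ {y | (x, y) ∈ A}.Countable := by
  have := hA.standardBorel
  have hf : Measurable fun a : A => a.1.1 := by fun_prop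
  obtain ⟨τX, hbX, hpX⟩ := StandardBorelSpace.polish (α := X)
  obtain ⟨τ₀, hb₀, hp₀⟩ := StandardBorelSpace.polish (α := A)
  obtain ⟨τ, hle, hcont, hp⟩ := hf.exists_continuous
  have hb := borel_of_le hp₀ hb₀ hp hle
  clear hb₀ hp₀ hle τ₀
  let := TopologicalSpace.upgradeIsCompletelyMetrizable A
  have := (TopologicalSpace.countable_countableBasis A).to_subtype
  have hB := TopologicalSpace.isBasis_countableBasis A
  have hm : ∀ n, Measurable fun w : X × (ℕ → Y) => (w.1, w.2 n) := fun n => by fun_prop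
  have hU : ∀ U : TopologicalSpace.countableBasis A, MeasurableSet (Subtype.val '' U.1) :=
    fun U => hA.subtype_image (hB.isOpen U.2).measurableSet
  have hcl : ∀ x, IsClosed {a : A | a.1.1 = x} := fun x => isClosed_eq hcont continuous_const
  refine ⟨{w | ∀ n, (w.1, w.2 n) ∈ A ∧ ∀ U : TopologicalSpace.countableBasis A,
    (w.1, w.2 n) ∈ Subtype.val '' U.1 → ∃ k, w.2 k ≠ w.2 n ∧ (w.1, w.2 k) ∈ Subtype.val '' U.1},
    Measurable.setOf (Measurable.forall fun n => (hA.mem.comp (hm n)).and (Measurable.forall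
      fun U => ((hU U).mem.comp (hm n)).imp (Measurable.exists fun k =>
        (Measurable.eq (by fun_prop) (by fun_prop)).not.and ((hU U).mem.comp (hm k))))),
    fun x => ⟨?_, fun h => ?_⟩⟩
  · rintro ⟨z, hz⟩ hc
    let u : ℕ → A := fun n => ⟨(x, z n), (hz n).1⟩
    have h1 : Preperfect (range u) := by
      rw [preperfect_iff_nhds]
      rintro _ ⟨n, rfl⟩ V hV
      obtain ⟨U, u1, u2, u3⟩ := hB.mem_nhds_iff.1 hV
      obtain ⟨k, k1, b, k2, k3⟩ := (hz n).2 ⟨U, u1⟩ ⟨u n, u2, rfl⟩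
      obtain rfl : b = u k := Subtype.ext k3
      exact ⟨u k, ⟨u3 k2, k, rfl⟩, fun e => k1 (congrArg (fun a : A => a.1.2) e)⟩
    obtain ⟨g, g1, -, g2⟩ := h1.perfect_closure.exists_nat_bool_injection
      ⟨u 0, subset_closure ⟨0, rfl⟩⟩
    have h2 : ∀ b, (g b).1.1 = x := fun b =>
      closure_minimal (t := {a : A | a.1.1 = x}) (range_subset_iff.2 fun n => rfl) (hcl x)
        (g1 ⟨b, rfl⟩)
    have : Uncountable (ℕ → Bool) := by
      rw [← Cardinal.aleph0_lt_mk_iff]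
      simpa using Cardinal.aleph0_lt_continuum
    refine not_countable_univ (α := ℕ → Bool) (MapsTo.countable_of_injOn
      (f := fun b => (g b).1.2) (fun b _ => ?_)
      (fun b _ b' _ e => g2 (Subtype.ext (Prod.ext ((h2 b).trans (h2 b').symm) e))) hc)
    rw [mem_ofPred, ← h2 b]
    exact (g b).2
  · obtain ⟨D, d1, d2, d3⟩ := exists_perfect_nonempty_of_isClosed_of_not_countable (hcl x)
      fun e => h (by
        refine Countable.mono (fun y hy => ?_) (e.image fun a => a.1.2)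
        exact ⟨⟨(x, y), hy⟩, rfl, rfl⟩)
    obtain ⟨s, s1, s2, s3⟩ :=
      (TopologicalSpace.IsSeparable.of_separableSpace D).exists_countable_dense_subset
    obtain ⟨u, rfl⟩ := s2.exists_eq_range (closure_nonempty_iff.1 (d2.mono s3))
    have e : ∀ n, (x, (u n).1.2) = (u n).1 := fun n => Prod.ext (d3 (s1 ⟨n, rfl⟩)).symm rfl
    refine ⟨fun n => (u n).1.2, fun n => ⟨(e n).symm ▸ (u n).2, ?_⟩⟩
    rintro U ⟨b, b1, b2⟩
    obtain rfl : b = u n := Subtype.ext (b2.trans (e n))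
    obtain ⟨y, y1, y2⟩ := preperfect_iff_nhds.1 d1.acc _ (s1 ⟨n, rfl⟩) U
      ((hB.isOpen U.2).mem_nhds b1)
    obtain ⟨_, ⟨c1, c2⟩, k, rfl⟩ := mem_closure_iff.1 (s3 y1.2) (U.1 \ {u n})
      ((hB.isOpen U.2).sdiff isClosed_singleton) ⟨y1.1, y2⟩
    exact ⟨k, fun e' => c2 (Subtype.ext ((e k).symm.trans ((congrArg _ e').trans (e n)))),
      u k, c1, (e k).symm⟩

end Pool.Agent.Lib.MP_00fb6a_lc.Pos
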