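import Mathlib
import Pool.Agent.Lib.MP_00fb6a_lc.Pos.Defs
import Pool.Agent.Lib.MP_f7d510_lc.Definable

/-!
Quotient Borel isomorphisms and matchings of points inside a transitive model.
-/

set_option autoImplicit false

namespace Pool.Agent.Lib.MP_00fb6a_lc.Pos

open ZFSet Pool.Agent.Lib.MP_053343_lc Pool.Agent.Lib.MP_f7d510_lc

/-- A symmetric and transitive relation on Cantor space. -/
structure PerZ (M E : ZFSet.{0}) : Prop where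
  symm : ∀ x y, pair x y ∈ E → pair y x ∈ E
  trans : ∀ x y z, pair x y ∈ E → pair y z ∈ E → pair x z ∈ E
  sub : ∀ x y, pair x y ∈ E → x ∈ cantor M

/-- A matching of points that induces a Borel preserving bijection of the quotients. -/
structure MatchZ (M F E Γ : ZFSet.{0}) : Prop where
  tot : ∀ x, pair x x ∈ F → ∃ y ∈ cantor M, pair x y ∈ Γ
  sur : ∀ y, pair y y ∈ E → ∃ x ∈ cantor M, pair x y ∈ Γ
  coh : ∀ x y x' y', pair x y ∈ Γ → pair x' y' ∈ Γ → (pair x x' ∈ F ↔ pair y y' ∈ E)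
  dm : ∀ x y, pair x y ∈ Γ → pair x x ∈ F
  bor : ∀ A ∈ M, BorelIn M A → (∀ x ∈ A, pair x x ∈ F) → (∀ x x', pair x x' ∈ F → x ∈ A → x' ∈ A) →
    ∃ B, BorelIn M B ∧ ∀ x y, pair x y ∈ Γ → (x ∈ A ↔ y ∈ B)

variable {M E F : ZFSet.{0}}

namespace PerZ

variable (h : PerZ M E)

include h

theorem left {x y : ZFSet} (a : pair x y ∈ E) : pair x x ∈ E := h.trans _ _ _ a (h.symm _ _ a)

theorem mem_cls {x y : ZFSet} : y ∈ cls M E x ↔ pair x y ∈ E := by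
  rw [cls, mem_sep]
  exact ⟨And.right, fun a => ⟨h.sub _ _ (h.symm _ _ a), a⟩⟩

theorem mem_dom {x : ZFSet} : x ∈ dom M E ↔ pair x x ∈ E := by
  rw [dom, mem_sep]
  exact ⟨And.right, fun a => ⟨h.sub _ _ a, a⟩⟩

theorem mem_quo {c : ZFSet} : c ∈ quo M E ↔ ∃ x, pair x x ∈ E ∧ c = cls M E x := by
  rw [quo, mem_sep, mem_powerset]
  simp only [h.mem_dom]
  refine ⟨And.right, fun a => ⟨?_, a⟩⟩
  obtain ⟨x, -, rfl⟩ := a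
  exact fun y hy => (mem_sep.1 hy).1

theorem cls_eq {x y : ZFSet} (a : pair x y ∈ E) : cls M E x = cls M E y := by
  ext z
  rw [h.mem_cls, h.mem_cls]
  exact ⟨h.trans _ _ _ (h.symm _ _ a), h.trans _ _ _ a⟩

theorem of_mem {c x : ZFSet} (a : c ∈ quo M E) (b : x ∈ c) : pair x x ∈ E ∧ c = cls M E x := by
  obtain ⟨z, -, rfl⟩ := h.mem_quo.1 a
  exact ⟨h.left (h.symm _ _ (h.mem_cls.1 b)), h.cls_eq (h.mem_cls.1 b)⟩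

theorem rel_iff {c c' x x' : ZFSet} (a : c ∈ quo M E) (a' : c' ∈ quo M E) (b : x ∈ c)
    (b' : x' ∈ c') : pair x x' ∈ E ↔ c = c' := by
  rw [← h.mem_cls, ← (h.of_mem a b).2]
  exact ⟨fun e => (h.of_mem a e).2.trans (h.of_mem a' b').2.symm, fun e => e ▸ b'⟩

theorem ex {x : ZFSet} (a : pair x x ∈ E) : ∃ c ∈ quo M E, x ∈ c :=
  ⟨_, h.mem_quo.2 ⟨x, a, rfl⟩, h.mem_cls.2 a⟩

theorem ne {c : ZFSet} (a : c ∈ quo M E) : ∃ x, x ∈ c := by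
  obtain ⟨z, b, rfl⟩ := h.mem_quo.1 a
  exact ⟨z, h.mem_cls.2 b⟩

theorem sub_iff {A c x : ZFSet} (hi : ∀ x x', pair x x' ∈ E → x ∈ A → x' ∈ A) (a : c ∈ quo M E)
    (b : x ∈ c) : c ⊆ A ↔ x ∈ A :=
  ⟨fun e => e b, fun e _ hy => hi _ _ ((h.rel_iff a a b hy).2 rfl) e⟩

theorem mem_union {A c x : ZFSet} (hA : A ⊆ quo M E) (a : c ∈ quo M E) (b : x ∈ c) :
    x ∈ sUnion A ↔ c ∈ A := by
  rw [mem_sUnion]
  exact ⟨fun ⟨c', a1, a2⟩ => (h.rel_iff (hA a1) a a2 b).1 (h.of_mem a b).1 ▸ a1, fun e => ⟨c, e, b⟩⟩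

theorem union_eq {A S : ZFSet} (hS : S ⊆ quo M E) (h1 : ∀ x ∈ A, pair x x ∈ E)
    (h2 : ∀ c ∈ quo M E, ∀ x ∈ c, c ∈ S ↔ x ∈ A) : sUnion S = A := by
  ext x
  constructor
  · intro a
    obtain ⟨c, a1, a2⟩ := mem_sUnion.1 a
    exact (h2 c (hS a1) x a2).1 a1
  · intro a
    obtain ⟨c, a1, a2⟩ := h.ex (h1 x a)
    exact mem_sUnion.2 ⟨c, (h2 c a1 x a2).2 a, a2⟩

end PerZ

theorem cantor_mem (hM : ModelZF M) : cantor M ∈ M := by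
  obtain ⟨b, b1, b2⟩ := hM.power _ hM.inf
  convert b1 using 1
  ext x
  rw [cantor, mem_sep]
  exact ⟨fun a => (b2 x a.1).2 a.2, fun a => ⟨mem_of_mem hM a b1, (b2 x (mem_of_mem hM a b1)).1 a⟩⟩

theorem quo_mem (hM : ModelZF M) (hE : E ∈ M) (h : PerZ M E) : quo M E ∈ M := by
  have hc := cantor_mem hM
  obtain ⟨P, p1, p2⟩ := hM.power _ hc
  obtain ⟨b, b1, b2⟩ := (((df_pmem hM 0 0 3).and ((((Df.mem 0 2).iff hM
    (df_pmem hM 1 0 4))).ball hM 2)).bex hM 1).sep hM (l := [cantor M, E]) (by simp [hc, hE]) p1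
  have b3 : ∀ c, c ∈ b ↔ c ∈ P ∧ ∃ x ∈ cantor M, pair x x ∈ E ∧
    ∀ z ∈ cantor M, z ∈ c ↔ pair x z ∈ E := b2
  convert b1 using 1
  ext c
  rw [h.mem_quo, b3]
  constructor
  · rintro ⟨x, a, rfl⟩
    have hx := h.sub _ _ a
    obtain ⟨d, d1, d2⟩ := (df_pmem hM 1 0 2).sep hM (l := [x, E])
      (by simp [hE, mem_of_mem hM hx hc]) hc
    have e : cls M E x = d := ZFSet.ext fun z => mem_sep.trans (d2 z).symm
    exact ⟨(p2 _ (e ▸ d1)).2 fun z hz => (mem_sep.1 hz).1, x, hx, a, fun z _ => h.mem_cls⟩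
  · rintro ⟨a1, x, -, a2, a3⟩
    refine ⟨x, a2, ZFSet.ext fun z => ?_⟩
    rw [h.mem_cls]
    exact ⟨fun e => (a3 z ((p2 c (mem_of_mem hM a1 p1)).1 a1 e)).1 e,
      fun e => (a3 z (h.sub _ _ (h.symm _ _ e))).2 e⟩

theorem matchZ_of (hE : PerZ M E) (hF : PerZ M F) {Φ : ZFSet → ZFSet → Prop} {Γ : ZFSet}
    (h1 : ∀ c d, Φ c d → c ∈ quo M E ∧ d ∈ quo M F) (h2 : ∀ c ∈ quo M E, ∃! d, Φ c d)
    (h3 : ∀ d ∈ quo M F, ∃! c, Φ c d) (hΓ : ∀ x y, pair x y ∈ Γ ↔ ∃ c d, Φ c d ∧ x ∈ c ∧ y ∈ d)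
    (hb : ∀ A ∈ M, BorelIn M A → (∀ x ∈ A, pair x x ∈ E) →
      (∀ x x', pair x x' ∈ E → x ∈ A → x' ∈ A) → ∃ S ⊆ quo M F, BorelIn M (sUnion S) ∧
        ∀ c d, Φ c d → (c ⊆ A ↔ d ∈ S)) : MatchZ M E F Γ where
  tot x a := by
    obtain ⟨c, c1, c2⟩ := hE.ex a
    obtain ⟨d, d1, -⟩ := h2 c c1
    obtain ⟨y, hy⟩ := hF.ne (h1 c d d1).2
    exact ⟨y, hF.sub _ _ (hF.of_mem (h1 c d d1).2 hy).1, (hΓ x y).2 ⟨c, d, d1, c2, hy⟩⟩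
  sur y a := by
    obtain ⟨d, c1, c2⟩ := hF.ex a
    obtain ⟨c, d1, -⟩ := h3 d c1
    obtain ⟨x, hx⟩ := hE.ne (h1 c d d1).1
    exact ⟨x, hE.sub _ _ (hE.of_mem (h1 c d d1).1 hx).1, (hΓ x y).2 ⟨c, d, d1, hx, c2⟩⟩
  coh x y x' y' a a' := by
    obtain ⟨c, d, b1, b2, b3⟩ := (hΓ x y).1 a
    obtain ⟨c', d', b1', b2', b3'⟩ := (hΓ x' y').1 a'
    rw [hE.rel_iff (h1 _ _ b1).1 (h1 _ _ b1').1 b2 b2', hF.rel_iff (h1 _ _ b1).2 (h1 _ _ b1').2 b3 b3']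
    exact ⟨fun e => (h2 c (h1 _ _ b1).1).unique b1 (e ▸ b1'),
      fun e => (h3 d (h1 _ _ b1).2).unique b1 (e ▸ b1')⟩
  dm x y a := by
    obtain ⟨c, d, b1, b2, -⟩ := (hΓ x y).1 a
    exact (hE.of_mem (h1 _ _ b1).1 b2).1
  bor A a1 a2 a3 a4 := by
    obtain ⟨S, s1, s2, s3⟩ := hb A a1 a2 a3 a4
    refine ⟨_, s2, fun x y a => ?_⟩
    obtain ⟨c, d, b1, b2, b3⟩ := (hΓ x y).1 a
    rw [hF.mem_union s1 (h1 _ _ b1).2 b3, ← s3 c d b1, hE.sub_iff a4 (h1 _ _ b1).1 b2]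

theorem match_of_qiso (hM : ModelZF M) (mE : E ∈ M) (mF : F ∈ M) (hE : PerZ M E) (hF : PerZ M F)
    (h : QIso M E F) : (∃ Γ ∈ M, MatchZ M E F Γ) ∧ ∃ Γ ∈ M, MatchZ M F E Γ := by
  obtain ⟨φ, f0, f1, f2, f3⟩ := h
  have hc := cantor_mem hM
  have qE := quo_mem hM mE hE
  have qF := quo_mem hM mF hF
  have h1 : ∀ c d, pair c d ∈ φ → c ∈ quo M E ∧ d ∈ quo M F := fun c d a => pair_mem_prod.1 (f1.1 a)
  obtain ⟨Z, z1, z2⟩ := exists_pairs hM hc hc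
  have hl : ∀ x ∈ [quo M E, quo M F, φ], x ∈ M := by simp [qE, qF, f0]
  have hs : ∀ {E c x}, PerZ M E → c ∈ quo M E → x ∈ c → x ∈ cantor M := fun h a b =>
    h.sub _ _ (h.of_mem a b).1
  constructor
  · obtain ⟨Γ, g1, g2⟩ := (((((df_pmem hM 3 2 7).and (df_pair hM 4 1 0)).bex hM 1).bex hM 1).bex
      hM 3 |>.bex hM 1).sep hM hl z1
    have g3 : ∀ z, z ∈ Γ ↔ z ∈ Z ∧ ∃ c ∈ quo M E, ∃ d ∈ quo M F, ∃ x ∈ c, ∃ y ∈ d,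
      pair c d ∈ φ ∧ z = pair x y := g2
    refine ⟨Γ, g1, matchZ_of hE hF h1 f1.2 f2 (fun x y => ?_) fun A a1 a2 a3 a4 => ?_⟩
    · rw [g3]
      constructor
      · rintro ⟨-, c, -, d, -, x', a, y', b, e, e'⟩
        obtain ⟨rfl, rfl⟩ := pair_inj.1 e'
        exact ⟨c, d, e, a, b⟩
      · rintro ⟨c, d, e, a, b⟩
        exact ⟨z2 _ (hs hE (h1 _ _ e).1 a) _ (hs hF (h1 _ _ e).2 b), c, (h1 _ _ e).1, d,
          (h1 _ _ e).2, x, a, y, b, e, rfl⟩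
    · obtain ⟨S, s1, s2⟩ := (df_sub hM 0 1).sep hM (l := [A]) (by simp [a1]) qE
      have s3 : ∀ c, c ∈ S ↔ c ∈ quo M E ∧ c ⊆ A := s2
      have s4 : S ⊆ quo M E := fun c a => ((s3 c).1 a).1
      refine ⟨_, fun d a => (mem_sep.1 a).1, (f3 S s1 s4).1 ?_, fun c d a => ?_⟩
      · rwa [hE.union_eq s4 a3 fun c b x b' => by rw [s3, and_iff_right b, hE.sub_iff a4 b b']]
      · rw [mem_sep, and_iff_right (h1 _ _ a).2]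
        exact ⟨fun e => ⟨c, (s3 c).2 ⟨(h1 _ _ a).1, e⟩, a⟩, fun ⟨c', b, e⟩ =>
          (f2 d (h1 _ _ a).2).unique e a ▸ ((s3 c').1 b).2⟩
  · obtain ⟨Γ, g1, g2⟩ := (((((df_pmem hM 3 2 7).and (df_pair hM 4 0 1)).bex hM 1).bex hM 1).bex
      hM 3 |>.bex hM 1).sep hM hl z1
    have g3 : ∀ z, z ∈ Γ ↔ z ∈ Z ∧ ∃ c ∈ quo M E, ∃ d ∈ quo M F, ∃ x ∈ c, ∃ y ∈ d,
      pair c d ∈ φ ∧ z = pair y x := g2
    refine ⟨Γ, g1, matchZ_of (Φ := fun d c => pair c d ∈ φ) hF hE (fun d c a => (h1 c d a).symm) f2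
      f1.2 (fun y x => ?_) fun B a1 a2 a3 a4 => ?_⟩
    · rw [g3]
      constructor
      · rintro ⟨-, c, -, d, -, x', a, y', b, e, e'⟩
        obtain ⟨rfl, rfl⟩ := pair_inj.1 e'
        exact ⟨d, c, e, b, a⟩
      · rintro ⟨d, c, e, b, a⟩
        exact ⟨z2 _ (hs hF (h1 _ _ e).2 b) _ (hs hE (h1 _ _ e).1 a), c, (h1 _ _ e).1, d,
          (h1 _ _ e).2, x, a, y, b, e, rfl⟩
    · obtain ⟨S, s1, s2⟩ := (((df_pmem hM 1 0 4).and (df_sub hM 0 2)).bex hM 2).sep hM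
        (l := [B, quo M F, φ]) (by simp [a1, qF, f0]) qE
      have s3 : ∀ c, c ∈ S ↔ c ∈ quo M E ∧ ∃ d ∈ quo M F, pair c d ∈ φ ∧ d ⊆ B := s2
      have s4 : S ⊆ quo M E := fun c a => ((s3 c).1 a).1
      have s5 : ∀ d c, pair c d ∈ φ → (d ⊆ B ↔ c ∈ S) := fun d c a => by
        rw [s3, and_iff_right (h1 _ _ a).1]
        exact ⟨fun e => ⟨d, (h1 _ _ a).2, a, e⟩, fun ⟨d', _, e, b⟩ =>
          (f1.2 c (h1 _ _ a).1).unique e a ▸ b⟩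
      refine ⟨S, s4, (f3 S s1 s4).2 ?_, s5⟩
      rwa [hF.union_eq (fun d a => (mem_sep.1 a).1) a3 fun d b y b' => ?_]
      rw [mem_sep, and_iff_right b, ← hF.sub_iff a4 b b']
      obtain ⟨c, c1, -⟩ := f2 d b
      exact ⟨fun ⟨c', e, e'⟩ => (s5 d c' e').2 e, fun e => ⟨c, (s5 d c c1).1 e, c1⟩⟩

theorem qiso_of_inv (hM : ModelZF M) (mE : E ∈ M) (mF : F ∈ M) (hE : PerZ M E) (hF : PerZ M F)
    {g g' : ZFSet} (hg : BorelMap M (dom M E) (dom M F) g) (hg' : BorelMap M (dom M F) (dom M E) g')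
    (hom : ∀ x y x' y', pair x y ∈ g → pair x' y' ∈ g → pair x x' ∈ E → pair y y' ∈ F)
    (hom' : ∀ y x y' x', pair y x ∈ g' → pair y' x' ∈ g' → pair y y' ∈ F → pair x x' ∈ E)
    (inv : ∀ x y z, pair x y ∈ g → pair y z ∈ g' → pair z x ∈ E)
    (inv' : ∀ y x z, pair y x ∈ g' → pair x z ∈ g → pair z y ∈ F) : QIso M E F := by
  have qE := quo_mem hM mE hE
  have qF := quo_mem hM mF hF
  obtain ⟨Z, z1, z2⟩ := exists_pairs hM qE qF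
  obtain ⟨φ, f1, f2⟩ := (((((df_pmem hM 1 0 7).and (df_pair hM 4 3 2)).bex hM 1).bex hM 1).bex
    hM 3 |>.bex hM 1).sep hM (l := [quo M E, quo M F, g]) (by simp [qE, qF, hg.1]) z1
  have f3 : ∀ z, z ∈ φ ↔ z ∈ Z ∧ ∃ c ∈ quo M E, ∃ d ∈ quo M F, ∃ x ∈ c, ∃ y ∈ d,
    pair x y ∈ g ∧ z = pair c d := f2
  have f4 : ∀ c d, pair c d ∈ φ ↔ c ∈ quo M E ∧ d ∈ quo M F ∧ ∃ x ∈ c, ∃ y ∈ d, pair x y ∈ g := by
    intro c d
    rw [f3]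
    constructor
    · rintro ⟨-, c', a, d', b, x, a', y, b', e, e'⟩
      obtain ⟨rfl, rfl⟩ := pair_inj.1 e'
      exact ⟨a, b, x, a', y, b', e⟩
    · rintro ⟨a, b, x, a', y, b', e⟩
      exact ⟨z2 _ a _ b, c, a, d, b, x, a', y, b', e, rfl⟩
  have t : ∀ x, pair x x ∈ E → ∃ y, pair x y ∈ g ∧ pair y y ∈ F := fun x a =>
    (hg.2.1.2 x (hE.mem_dom.2 a)).imp fun y b => ⟨b.1, hom _ _ _ _ b.1 b.1 a⟩
  have t' : ∀ y, pair y y ∈ F → ∃ x, pair y x ∈ g' ∧ pair x x ∈ E := fun y a =>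
    (hg'.2.1.2 y (hF.mem_dom.2 a)).imp fun x b => ⟨b.1, hom' _ _ _ _ b.1 b.1 a⟩
  have k1 : ∀ c d, pair c d ∈ φ → ∀ x ∈ c, ∀ y, pair x y ∈ g → y ∈ d := by
    intro c d a x b y e
    obtain ⟨a1, a2, x', a3, y', a4, a5⟩ := (f4 c d).1 a
    rw [(hF.of_mem a2 a4).2, hF.mem_cls]
    exact hom _ _ _ _ a5 e ((hE.rel_iff a1 a1 a3 b).2 rfl)
  have k2 : ∀ c d, pair c d ∈ φ → ∀ y ∈ d, ∀ x, pair y x ∈ g' → x ∈ c := by
    intro c d a y b x e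
    obtain ⟨a1, a2, x', a3, y', a4, a5⟩ := (f4 c d).1 a
    obtain ⟨z, z1, -⟩ := t' y' (hF.of_mem a2 a4).1
    rw [(hE.of_mem a1 a3).2, hE.mem_cls]
    exact hE.trans _ _ _ (hE.symm _ _ (inv _ _ _ a5 z1))
      (hom' _ _ _ _ z1 e ((hF.rel_iff a2 a2 a4 b).2 rfl))
  have k3 : ∀ c ∈ quo M E, ∃! d, pair c d ∈ φ := by
    intro c a
    obtain ⟨x, hx⟩ := hE.ne a
    obtain ⟨y, y1, y2⟩ := t x (hE.of_mem a hx).1
    obtain ⟨d, d1, d2⟩ := hF.ex y2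
    exact ⟨d, (f4 c d).2 ⟨a, d1, x, hx, y, d2, y1⟩, fun d' b =>
      (hF.rel_iff ((f4 _ _).1 b).2.1 d1 (k1 c d' b x hx y y1) d2).1 y2⟩
  have k4 : ∀ d ∈ quo M F, ∃! c, pair c d ∈ φ := by
    intro d a
    obtain ⟨y, hy⟩ := hF.ne a
    obtain ⟨x, x1, x2⟩ := t' y (hF.of_mem a hy).1
    obtain ⟨c, c1, c2⟩ := hE.ex x2
    obtain ⟨z, z1, -⟩ := t x x2
    refine ⟨c, (f4 c d).2 ⟨c1, a, x, c2, z, ?_, z1⟩, fun c' b =>
      (hE.rel_iff ((f4 _ _).1 b).1 c1 (k2 c' d b y hy x x1) c2).1 x2⟩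
    rw [(hF.of_mem a hy).2, hF.mem_cls]
    exact hF.symm _ _ (inv' _ _ _ x1 z1)
  refine ⟨φ, f1, ⟨fun z hz => ?_, k3⟩, k4, fun A _ hA => ?_⟩
  · obtain ⟨-, c, a, d, b, -, -, -, -, -, rfl⟩ := (f3 z).1 hz
    exact pair_mem_prod.2 ⟨a, b⟩
  have s1 : ZFSet.sep (fun d => ∃ c ∈ A, pair c d ∈ φ) (quo M F) ⊆ quo M F :=
    fun d a => (mem_sep.1 a).1
  have s2 : ∀ c d, pair c d ∈ φ →
      (c ∈ A ↔ d ∈ ZFSet.sep (fun d => ∃ c ∈ A, pair c d ∈ φ) (quo M F)) := fun c d a => by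
    rw [mem_sep, and_iff_right ((f4 _ _).1 a).2.1]
    exact ⟨fun e => ⟨c, e, a⟩, fun ⟨c', e, e'⟩ => (k4 d ((f4 _ _).1 a).2.1).unique e' a ▸ e⟩
  constructor
  · intro h
    rw [hF.union_eq s1 (fun y a => hF.mem_dom.1 (mem_sep.1 a).1) fun d a y b => ?_]
    · exact hg'.2.2 _ h
    obtain ⟨c, c1, -⟩ := k4 d a
    obtain ⟨x, x1, -⟩ := t' y (hF.of_mem a b).1
    have c2 := ((f4 _ _).1 c1).1
    rw [← s2 c d c1, mem_sep, and_iff_right (hF.mem_dom.2 (hF.of_mem a b).1)]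
    exact ⟨fun e => ⟨x, (hE.mem_union hA c2 (k2 c d c1 y b x x1)).2 e, x1⟩,
      fun ⟨z, e, e'⟩ => (hE.mem_union hA c2 (k2 c d c1 y b z e')).1 e⟩
  · intro h
    rw [hE.union_eq hA (fun y a => hE.mem_dom.1 (mem_sep.1 a).1) fun c a x b => ?_]
    · exact hg.2.2 _ h
    obtain ⟨d, c1, -⟩ := k3 c a
    obtain ⟨y, y1, -⟩ := t x (hE.of_mem a b).1
    have c2 := ((f4 _ _).1 c1).2.1
    rw [s2 c d c1, mem_sep (y := x), and_iff_right (hE.mem_dom.2 (hE.of_mem a b).1)]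
    exact ⟨fun e => ⟨y, (hF.mem_union s1 c2 (k1 c d c1 x b y y1)).2 e, y1⟩,
      fun ⟨z, e, e'⟩ => (hF.mem_union s1 c2 (k1 c d c1 x b z e')).1 e⟩

end Pool.Agent.Lib.MP_00fb6a_lc.Pos
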