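import Mathlib
import Pool.Agent.Lib.MP_00fb6a_lc.Pos.Names
import Pool.Agent.Lib.MP_00fb6a_lc.Pos.ZF
import Pool.Agent.Lib.MP_00fb6a_lc.Pos.SB
import Pool.Agent.Lib.MP_00fb6a_lc.Pos.CoreMain

/-!
The model in which quotient Borel isomorphism and Borel bireducibility coincide.
-/

set_option autoImplicit false
set_option linter.unusedSectionVars false

namespace Pool.Agent.Lib.MP_00fb6a_lc.Pos

open Set Filter MeasureTheory Classical Pool.Agent.Lib.MP_053343_lc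
  Pool.Agent.Lib.MP_053343_lc.Name Pool.Agent.Shared.Forcing Amb

variable {Ω : Type} [MeasurableSpace Ω] [Amb Ω]

/-- Basic facts about points and Borel sets of the model. -/
structure CC.Good (X : CC Ω) : Prop where
  prod : ∀ z : Ca × Ca, z ∈ X.Pt (Ca × Ca) ↔ z.1 ∈ X.Pt Ca ∧ z.2 ∈ X.Pt Ca
  can : cantor X.C.M = X.tr (univ : Set (Ω × Ca))
  s1 : ∀ A : Set (Ω × Ca), X.K A → MeasurableSet A → secN A ∈ X.C.N ∧ X.C.val (secN A) = X.tr A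
  s2 : ∀ A : Set (Ω × Ca × Ca), X.K A → MeasurableSet A →
    secN A ∈ X.C.N ∧ X.C.val (secN A) = X.tr A
  rn : ∀ f : Ω → Ca, X.K f → Measurable f → rN f ∈ X.C.N ∧ X.C.val (rN f) = enc (f X.ω)
  bor : ∀ a, BorelIn X.C.M a ↔ X.Cod Ca a
  bor2 : ∀ a, BorelIn2 X.C.M a → X.Cod (Ca × Ca) a
  app : ∀ h : Ω × Ca → Ca, X.K h → Measurable h → ∀ y ∈ X.Pt Ca, h (X.ω, y) ∈ X.Pt Ca

theorem ev_good : ∀ᶠ X in club Ω, X.Good := by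
  filter_upwards [pt_prod (Y := Ca) (Y' := Ca), ev_cantor, ev_secN (Y := Ca),
    ev_secN (Y := Ca × Ca), ev_rN, ev_borel, ev_borel2, pt_app (Y := Ca) (Y' := Ca)]
    with X a1 a2 a3 a4 a5 a6 a7 a8 using ⟨a1, a2, a3, a4, a5, a6, a7, a8⟩

theorem enc_mem_tr {X : CC Ω} {A : Set (Ω × Ca)} {y : Ca} :
    enc y ∈ X.tr A ↔ y ∈ X.Pt Ca ∧ (X.ω, y) ∈ A := en_mem_tr

namespace CC.Good

variable {X : CC Ω} (g : X.Good) {E F : Set (Ω × Ca × Ca)}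

include g

theorem mem_can {a : ZFSet} : a ∈ cantor X.C.M ↔ ∃ x ∈ X.Pt Ca, a = enc x := by
  rw [g.can, mem_tr]
  exact exists_congr fun x => and_congr_right fun _ => and_iff_right trivial

theorem enc_mem {x y : Ca} : ZFSet.pair (enc x) (enc y) ∈ X.tr E ↔
    x ∈ X.Pt Ca ∧ y ∈ X.Pt Ca ∧ (X.ω, x, y) ∈ E :=
  (en_mem_tr (y := (x, y))).trans (by rw [g.prod, and_assoc])

theorem pair_mem {a b : ZFSet} (h : ZFSet.pair a b ∈ X.tr E) : ∃ x ∈ X.Pt Ca, ∃ y ∈ X.Pt Ca,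
    (X.ω, x, y) ∈ E ∧ a = enc x ∧ b = enc y := by
  obtain ⟨z, a1, a2, a3⟩ := mem_tr.1 h
  exact ⟨z.1, ((g.prod z).1 a1).1, z.2, ((g.prod z).1 a1).2, a2, ZFSet.pair_inj.1 a3⟩

theorem fm {f f' : Ω → Ca} (h : X.K f) (m : Measurable f) (h' : X.K f') (m' : Measurable f')
    {γ : Nm Ω} (hγ : γ ∈ X.C.N) : ZFSet.pair (enc (f X.ω)) (enc (f' X.ω)) ∈ X.C.val γ ↔
      ∃ p ∈ X.C.G, FMem (pairN (rN f) (rN f')) γ p := by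
  rw [← (g.rn f h m).2, ← (g.rn f' h' m').2]
  exact pair_mem_iff X (g.rn f h m).1 (g.rn f' h' m').1 hγ

theorem perZ (h : CBER X.C.M (X.tr E)) : PerZ X.C.M (X.tr E) :=
  ⟨h.2.1, h.2.2.1, fun _ _ a => by
    obtain ⟨x, a1, -, -, -, rfl, -⟩ := g.pair_mem a
    exact g.mem_can.2 ⟨x, a1, rfl⟩⟩

theorem mem_dom {a : ZFSet} : a ∈ dom X.C.M (X.tr E) ↔
    ∃ x ∈ X.Pt Ca, (X.ω, x, x) ∈ E ∧ a = enc x := by
  rw [dom, ZFSet.mem_sep, g.mem_can]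
  exact ⟨fun ⟨⟨x, a1, a2⟩, a3⟩ => ⟨x, a1, (g.enc_mem.1 (a2 ▸ a3 :)).2.2, a2⟩,
    fun ⟨x, a1, a2, a3⟩ => ⟨⟨x, a1, a3⟩, a3 ▸ g.enc_mem.2 ⟨a1, a1, a2⟩⟩⟩

end CC.Good

theorem ev_ctbl : ∀ᶠ X in club Ω, ∀ S, CtblIn X.C.M S → ∃ s : ℕ → Ω → Ca, X.K s ∧
    (∀ n, Measurable (s n)) ∧ ∀ x ∈ X.Pt Ca, enc x ∈ S → ∃ n, s n X.ω = x := by
  have : Nonempty {f : Ω → Ca // Measurable f} := ⟨⟨fun _ => default, measurable_const⟩⟩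
  choose s q _ _ h3 using fun n => seq fun (σ : Nm Ω) (f : {f : Ω → Ca // Measurable f}) p =>
    FMem (pairN (natN n) (rN f.1)) σ p
  filter_upwards [ev_good, eventually_countable_forall.2 h3,
    fn fun (σ : Nm Ω) (m : ℕ) => (s m.unpair.1 σ m.unpair.2).1,
    fn (Subtype.val : {f : Ω → Ca // Measurable f} → _)] with X g a1 a2 a3 S hS
  rcases hS with rfl | ⟨f, hf, f1, f2⟩
  · exact ⟨_, a2 _ X.C.emp, fun _ => Subtype.property _, fun _ _ h => (ZFSet.notMem_empty _ h).elim⟩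
  obtain ⟨σ, hσ, rfl⟩ := X.C.mem_M.1 hf
  refine ⟨_, a2 σ hσ, fun _ => Subtype.property _, ?_⟩
  rintro _ ⟨u, u1, u2, rfl⟩ h
  obtain ⟨m, hm⟩ := f2 _ h
  have b1 := (ZFSet.pair_mem_prod.1 (f1.1 hm)).1
  obtain ⟨n, rfl⟩ := mem_omega.1 b1
  have key : ∀ u : Ω → Ca, X.K u → Measurable u →
      (ZFSet.pair (nat n) (enc (u X.ω)) ∈ X.C.val σ ↔
        ∃ p ∈ X.C.G, FMem (pairN (natN n) (rN u)) σ p) := fun u u1 u2 => by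
    rw [← X.C.val_natN, ← (g.rn u u1 u2).2, pair_mem_iff X (X.C.natN_mem n) (g.rn u u1 u2).1 hσ]
  obtain ⟨p, p1, p2⟩ := (key u u1 u2).1 hm
  obtain ⟨k, hk⟩ := (a1 n σ hσ).2 p p1 ⟨u, u2⟩ p2
  obtain ⟨c1, c2⟩ := (a1 n σ hσ).1 k hk
  refine ⟨Nat.pair n k, enc_inj ((f1.2 _ b1).unique ?_ hm)⟩
  simp only [Nat.unpair_pair]
  exact (key _ (a3 _ c1) (Subtype.property _)).2 c2

theorem maz_om {E : Set (Ω × Ca × Ca)} (hE : MeasurableSet E) : ∃ R : Set (Ω × Ca × (ℕ → Ca)),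
    MeasurableSet R ∧ ∀ ω x, (∃ z, (ω, x, z) ∈ R) ↔ ¬ {y | (ω, x, y) ∈ E}.Countable := by
  obtain ⟨f, E', h1, h2, rfl⟩ := exists_std hE
  obtain ⟨R, r1, r2⟩ := maz_sier (A := {z : (Ca × Ca) × Ca | (z.1.1, z.1.2, z.2) ∈ E'})
    (Measurable.setOf (h2.mem.comp (by fun_prop)))
  exact ⟨{z | ((f z.1, z.2.1), z.2.2) ∈ R}, Measurable.setOf (r1.mem.comp (by fun_prop)),
    fun ω x => r2 (f ω, x)⟩

theorem ev_fib : ∀ᶠ X in club Ω, ∀ E : Set (Ω × Ca × Ca), X.K E → MeasurableSet E →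
    CBER X.C.M (X.tr E) → ∃ p ∈ X.C.G, Fib p.s E := by
  choose! R r1 r2 using fun E => maz_om (Ω := Ω) (E := E)
  filter_upwards [ev_good, ev_ctbl, pt_prod (Y := Ca) (Y' := Ca × Ca),
    pt_prod (Y := Ca) (Y' := ℕ → Ca),
    abs fun E : Set (Ω × Ca × Ca) => {z : Ω × Ca × Ca | z ∈ E ∧ (z.1, z.2.2, z.2.1) ∉ E},
    abs fun E : Set (Ω × Ca × Ca) => {z : Ω × Ca × Ca × Ca | (z.1, z.2.1, z.2.2.1) ∈ E ∧
      (z.1, z.2.2) ∈ E ∧ (z.1, z.2.1, z.2.2.2) ∉ E}, abs R,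
    abs fun t : Set (Ω × Ca × Ca) × (Ω → Ca) × (ℕ → Ω → Ca) =>
      {z : Ω × Ca | (z.1, t.2.1 z.1, z.2) ∈ t.1 ∧ ∀ n, t.2.2 n z.1 ≠ z.2}]
    with X g a1 a2 a3 a4 a5 a6 a7 E hE m h
  obtain ⟨p, p1, p2⟩ := a4 E hE (m.inter (Measurable.setOf (m.mem.comp (by fun_prop)).not))
    fun y hy b => b.2 (g.enc_mem.1 (h.2.1 _ _ (g.enc_mem.2
      ⟨((g.prod y).1 hy).1, ((g.prod y).1 hy).2, b.1⟩))).2.2
  obtain ⟨q, q1, q2⟩ := a5 E hE (Measurable.setOf ((m.mem.comp (by fun_prop)).and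
    ((m.mem.comp (by fun_prop)).and (m.mem.comp (by fun_prop)).not))) fun y hy b => by
      obtain ⟨c1, c2⟩ := (a2 y).1 hy
      obtain ⟨c2, c3⟩ := (g.prod _).1 c2
      exact b.2.2 (g.enc_mem.1 (h.2.2.1 _ _ _ (g.enc_mem.2 ⟨c1, c2, b.1⟩)
        (g.enc_mem.2 ⟨c2, c3, b.2.1⟩))).2.2
  obtain ⟨r, s1, s2⟩ := a6 E hE (r1 E m) fun y hy b => by
    obtain ⟨f, f1, f2, f3⟩ := ((a3 y).1 hy).1
    obtain ⟨s, c1, c2, c3⟩ := a1 _ (h.2.2.2 _ (g.mem_can.2 ⟨y.1, ⟨f, f1, f2, f3⟩, rfl⟩))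
    obtain ⟨u, u1, u2⟩ := a7 (E, f, s) (hE.pair (f1.pair c1)) (Measurable.setOf
      ((m.mem.comp (by fun_prop)).and (Measurable.forall fun n =>
        (((c2 n).comp measurable_fst).eq measurable_snd).not))) fun x hx d => by
      obtain ⟨n, hn⟩ := c3 x hx ((g.perZ h).mem_cls.2
        (g.enc_mem.2 ⟨⟨f, f1, f2, f3⟩, hx, f3 ▸ d.1⟩))
      exact d.2 n hn
    refine (r2 E m X.ω y.1).1 ⟨y.2, b⟩ ((countable_range fun n => s n X.ω).mono fun x hx => ?_)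
    by_contra e
    exact u2 _ (X.h1 u u1) x ⟨show (X.ω, f X.ω, x) ∈ E by rw [f3]; exact hx,
      fun n e' => e ⟨n, e'⟩⟩
  obtain ⟨t, t1, t2, t3, t4⟩ := X.C.dir3 p1 q1 s1
  exact ⟨t, t1, fun ω hω => ⟨fun {x y} b => not_not.1 fun e => p2 ω (t2 hω) (x, y) ⟨b, e⟩,
    fun {x y z} b c => not_not.1 fun e => q2 ω (t3 hω) (x, y, z) ⟨b, c, e⟩,
    fun x => not_not.1 fun e => ((r2 E m ω x).2 e).elim fun z b => s2 ω (t4 hω) (x, z) b⟩⟩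

/-- The pair of the two reals is forced into `γ`. -/
def RR (γ : Nm Ω) (f g : Ω → Ca) (q : Set Ω) : Prop :=
  Measurable f ∧ Measurable g ∧ ∃ p : PP Ω, p.s = q ∧ FMem (pairN (rN f) (rN g)) γ p

/-- `A` and `B` are forced to correspond under `γ`. -/
def Agr (γ : Nm Ω) (A B : Set (Ω × Ca)) (p : PP Ω) : Prop :=
  ∀ f g q, RR γ f g q → J {ω | ω ∈ p.s ∧ ω ∈ q ∧ ¬ ((ω, f ω) ∈ A ↔ (ω, g ω) ∈ B)}

theorem ev_agr : ∀ᶠ X in club Ω, ∀ γ ∈ X.C.N, ∀ A B : Set (Ω × Ca), X.K A → X.K B →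
    MeasurableSet A → MeasurableSet B → ((∃ p ∈ X.C.G, Agr γ A B p) ↔
      ∀ x ∈ X.Pt Ca, ∀ y ∈ X.Pt Ca, ZFSet.pair (enc x) (enc y) ∈ X.C.val γ →
        ((X.ω, x) ∈ A ↔ (X.ω, y) ∈ B)) := by
  filter_upwards [ev_good, dich fun (t : Nm Ω × Set (Ω × Ca) × Set (Ω × Ca))
    (s : (Ω → Ca) × (Ω → Ca)) r => RR t.1 s.1 s.2 r.s ∧
      ∀ ω ∈ r.s, ¬ ((ω, s.1 ω) ∈ t.2.1 ↔ (ω, s.2 ω) ∈ t.2.2),
    nulG fun t : (Set (Ω × Ca) × Set (Ω × Ca)) × (Ω → Ca) × (Ω → Ca) =>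
      {ω | ¬ ((ω, t.2.1 ω) ∈ t.1.1 ↔ (ω, t.2.2 ω) ∈ t.1.2)}] with X g a1 a2 γ hγ A B hA hB mA mB
  constructor
  · rintro ⟨p, p1, p2⟩ _ ⟨f, f1, f2, rfl⟩ _ ⟨f', f1', f2', rfl⟩ h
    obtain ⟨r, r1, r2⟩ := (g.fm f1 f2 f1' f2' hγ).1 h
    obtain ⟨s, s1, s2, s3⟩ := X.C.dir p p1 r r1
    exact not_not.1 (a2 ((A, B), f, f') ((hA.pair hB).pair (f1.pair f1')) s s1
      (ccc.mono (p2 f f' _ ⟨f2, f2', r, rfl, r2⟩) fun ω b => ⟨s2 b.1, s3 b.1, b.2⟩))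
  · intro h
    rcases a1 (γ, A, B) (CC.K.pair hγ (hA.pair hB)) with
      ⟨r, r1, s, s1, ⟨b1, b2, p, b3, b4⟩, b5⟩ | ⟨p, p1, p2⟩
    · exact (b5 _ (X.h1 r r1) (h _ ⟨_, s1.fst, b1, rfl⟩ _ ⟨_, s1.snd, b2, rfl⟩
        ((g.fm s1.fst b1 s1.snd b2 hγ).2 ⟨p, X.C.up r r1 p b3.ge, b4⟩))).elim
    · refine ⟨p, p1, ?_⟩
      rintro f f' _ ⟨b1, b2, q, rfl, b3⟩
      by_contra hc
      let r : PP Ω := ⟨_, Measurable.setOf (p.m.mem.and (q.m.mem.and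
        ((mA.mem.comp (by fun_prop)).iff (mB.mem.comp (by fun_prop))).not)), hc⟩
      exact p2 r (fun _ a => a.1) (f, f')
        ⟨⟨b1, b2, r, rfl, b3.mono fun _ a => a.2.1⟩, fun _ a => a.2.2⟩

theorem ev_match : ∀ᶠ X in club Ω, ∀ γ ∈ X.C.N, ∀ F E : Set (Ω × Ca × Ca), X.K F → X.K E →
    MeasurableSet F → MeasurableSet E → Per (fun x y => (X.ω, x, y) ∈ F) →
    MatchZ X.C.M (X.tr F) (X.tr E) (X.C.val γ) →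
    ∃ p ∈ X.C.G, ∀ p' ≤ p, Match J p'.s F E (RR γ) := by
  filter_upwards [ev_good, ev_agr,
    dich fun (t : Nm Ω × Set (Ω × Ca × Ca)) (f : Ω → Ca) q => Measurable f ∧
      (∀ ω ∈ q.s, (ω, f ω, f ω) ∈ t.2) ∧ ∀ f', ∀ r ≤ q, ¬ RR t.1 f f' r.s,
    dich fun (t : Nm Ω × Set (Ω × Ca × Ca)) (f' : Ω → Ca) q => Measurable f' ∧
      (∀ ω ∈ q.s, (ω, f' ω, f' ω) ∈ t.2) ∧ ∀ f, ∀ r ≤ q, ¬ RR t.1 f f' r.s,
    dich fun (t : Nm Ω × Set (Ω × Ca × Ca) × Set (Ω × Ca × Ca))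
      (s : ((Ω → Ca) × (Ω → Ca)) × (Ω → Ca) × (Ω → Ca)) q => RR t.1 s.1.1 s.1.2 q.s ∧
        RR t.1 s.2.1 s.2.2 q.s ∧ ∀ ω ∈ q.s,
          ¬ ((ω, s.1.1 ω, s.2.1 ω) ∈ t.2.1 ↔ (ω, s.1.2 ω, s.2.2 ω) ∈ t.2.2),
    dich fun (t : Nm Ω × Set (Ω × Ca × Ca)) (A : Set (Ω × Ca)) q => MeasurableSet A ∧
      (∀ ω ∈ q.s, ∀ y y', (ω, y, y') ∈ t.2 → (ω, y) ∈ A → (ω, y') ∈ A) ∧
      ∀ r ≤ q, ∀ B, MeasurableSet B → ¬ Agr t.1 A B r,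
    fn fun t : Set (Ω × Ca) × Set (Ω × Ca × Ca) => t.1 ∩ {z | (z.1, z.2, z.2) ∈ t.2}]
    with X g a0 a1 a2 a3 a4 a5 γ hγ F E hF hE mF mE pF h
  have key : ∀ f f' : Ω → Ca, X.K f → X.K f' → ∀ r ∈ X.C.G, RR γ f f' r.s →
      ZFSet.pair (enc (f X.ω)) (enc (f' X.ω)) ∈ X.C.val γ := fun f f' b b' r r1 ⟨c1, c2, p, c3, c4⟩ =>
    (g.fm b c1 b' c2 hγ).2 ⟨p, X.C.up r r1 p c3.ge, c4⟩
  have key' : ∀ f f' : Ω → Ca, X.K f → X.K f' → Measurable f → Measurable f' →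
      ZFSet.pair (enc (f X.ω)) (enc (f' X.ω)) ∈ X.C.val γ → ∀ q ∈ X.C.G, ∃ r ≤ q, RR γ f f' r.s := by
    intro f f' b b' c c' d q hq
    obtain ⟨p, p1, p2⟩ := (g.fm b c b' c' hγ).1 d
    obtain ⟨r, -, r1, r2⟩ := X.C.dir q hq p p1
    exact ⟨r, r1, c, c', r, rfl, p2.mono r2⟩
  obtain ⟨p1, b1, c1⟩ := (a1 (γ, F) (CC.K.pair hγ hF)).resolve_left (by
    rintro ⟨q, q1, f, f1, f2, f3, f4⟩
    obtain ⟨y, y1, y2⟩ := h.tot _ (g.enc_mem.2 ⟨⟨f, f1, f2, rfl⟩, ⟨f, f1, f2, rfl⟩,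
      f3 _ (X.h1 q q1)⟩)
    obtain ⟨_, ⟨f', d1, d2, rfl⟩, rfl⟩ := g.mem_can.1 y1
    obtain ⟨r, r1, r2⟩ := key' f f' f1 d1 f2 d2 y2 q q1
    exact f4 f' r r1 r2)
  obtain ⟨p2, b2, c2⟩ := (a2 (γ, E) (CC.K.pair hγ hE)).resolve_left (by
    rintro ⟨q, q1, f, f1, f2, f3, f4⟩
    obtain ⟨y, y1, y2⟩ := h.sur _ (g.enc_mem.2 ⟨⟨f, f1, f2, rfl⟩, ⟨f, f1, f2, rfl⟩,
      f3 _ (X.h1 q q1)⟩)
    obtain ⟨_, ⟨f', d1, d2, rfl⟩, rfl⟩ := g.mem_can.1 y1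
    obtain ⟨r, r1, r2⟩ := key' f' f d1 f1 d2 f2 y2 q q1
    exact f4 f' r r1 r2)
  obtain ⟨p3, b3, c3⟩ := (a3 (γ, F, E) (CC.K.pair hγ (hF.pair hE))).resolve_left (by
    rintro ⟨q, q1, s, s1, s2, s3, s4⟩
    have e := h.coh _ _ _ _ (key _ _ s1.fst.fst s1.fst.snd q q1 s2)
      (key _ _ s1.snd.fst s1.snd.snd q q1 s3)
    rw [g.enc_mem, g.enc_mem] at e
    exact s4 _ (X.h1 q q1) ⟨fun d => (e.1 ⟨⟨_, s1.fst.fst, s2.1, rfl⟩, ⟨_, s1.snd.fst, s3.1, rfl⟩,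
      d⟩).2.2, fun d => (e.2 ⟨⟨_, s1.fst.snd, s2.2.1, rfl⟩, ⟨_, s1.snd.snd, s3.2.1, rfl⟩, d⟩).2.2⟩)
  obtain ⟨p4, b4, c4⟩ := (a4 (γ, F) (CC.K.pair hγ hF)).resolve_left (by
    rintro ⟨q, q1, A, d1, d2, d3, d4⟩
    have d5 := a5 (A, F) (d1.pair hF)
    have d6 : MeasurableSet (A ∩ {z | (z.1, z.2, z.2) ∈ F}) :=
      d2.inter (Measurable.setOf (mF.mem.comp (by fun_prop)))
    obtain ⟨_, e1, e2⟩ := h.bor _ ((g.s1 _ d5 d6).2 ▸ X.C.val_mem_M (g.s1 _ d5 d6).1)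
      ((g.bor _).2 ⟨_, d5, d6, rfl⟩) (fun a ha => by
        obtain ⟨x, x1, x2, rfl⟩ := mem_tr.1 ha
        exact g.enc_mem.2 ⟨x1, x1, x2.2⟩) fun a a' e ha => by
        obtain ⟨x, -, x', x1, x2, rfl, rfl⟩ := g.pair_mem e
        exact enc_mem_tr.2 ⟨x1, d3 _ (X.h1 q q1) x x' x2 (enc_mem_tr.1 ha).2.1, pF.right x2⟩
    obtain ⟨B, e3, e4, rfl⟩ := (g.bor _).1 e1
    obtain ⟨r, r1, r2⟩ := (a0 γ hγ A B d1 e3 d2 e4).2 fun x hx y hy e => by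
      have := e2 _ _ e
      rw [enc_mem_tr, enc_mem_tr, and_iff_right hx, and_iff_right hy] at this
      exact (and_iff_left (g.enc_mem.1 (h.dm _ _ e)).2.2).symm.trans this
    obtain ⟨s, -, s1, s2⟩ := X.C.dir q q1 r r1
    exact d4 s s1 B e4 fun f f' u e => ccc.mono (r2 f f' u e) fun ω a => ⟨s2 a.1, a.2⟩)
  obtain ⟨p5, b5, e1, e2, e3⟩ := X.C.dir3 b1 b2 b3
  obtain ⟨p, b6, e4, e5⟩ := X.C.dir p5 b5 p4 b4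
  refine ⟨p, b6, fun p' hp => ⟨fun f m q q1 q2 q3 q4 => ?_, fun f m q q1 q2 q3 q4 => ?_, ?_,
    fun A m i q q1 q2 q3 => ?_⟩⟩
  · by_contra hc
    exact c1 ⟨q, q1, q3⟩ (q2.trans (hp.trans (e4.trans e1))) f
      ⟨m, q4, fun f' r r1 r2 => hc ⟨f', r.s, r2.2.1, r.m, r1, r.p, r2⟩⟩
  · by_contra hc
    exact c2 ⟨q, q1, q3⟩ (q2.trans (hp.trans (e4.trans e2))) f
      ⟨m, q4, fun f' r r1 r2 => hc ⟨f', r.s, r2.1, r.m, r1, r.p, r2⟩⟩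
  · rintro f u _ f' u' _ ⟨d1, d2, q, rfl, d3⟩ ⟨d1', d2', q', rfl, d3'⟩
    by_contra hc
    let r : PP Ω := ⟨_, Measurable.setOf (p'.m.mem.and (q.m.mem.and (q'.m.mem.and
      ((mF.mem.comp (by fun_prop)).iff (mE.mem.comp (by fun_prop))).not))), hc⟩
    exact c3 r (fun _ a => hp.trans (e4.trans e3) a.1) ((f, u), f', u')
      ⟨⟨d1, d2, r, rfl, d3.mono fun _ a => a.2.1⟩, ⟨d1', d2', r, rfl, d3'.mono fun _ a => a.2.2.1⟩,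
        fun _ a => a.2.2.2⟩
  · by_contra hc
    exact c4 ⟨q, q1, q3⟩ (q2.trans (hp.trans e5)) A
      ⟨m, fun ω a => i ω (q2 a), fun r r1 B r2 r3 => hc ⟨r.s, r.m, r1, r.p, B, r2, r3⟩⟩

theorem ev_graph : ∀ᶠ X in club Ω, ∀ (F E : Set (Ω × Ca × Ca)) (h : Ω × Ca → Ca), X.K F → X.K h →
    MeasurableSet F → Measurable h →
    (∀ y, (X.ω, y, y) ∈ F → (X.ω, h (X.ω, y), h (X.ω, y)) ∈ E) →
    ∃ u, BorelMap X.C.M (dom X.C.M (X.tr F)) (dom X.C.M (X.tr E)) u ∧ ∀ a b, ZFSet.pair a b ∈ u →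
      ∃ y ∈ X.Pt Ca, h (X.ω, y) ∈ X.Pt Ca ∧ (X.ω, y, y) ∈ F ∧ a = enc y ∧ b = enc (h (X.ω, y)) := by
  filter_upwards [ev_good, fn fun t : Set (Ω × Ca × Ca) × (Ω × Ca → Ca) =>
    {z : Ω × Ca × Ca | (z.1, z.2.1, z.2.1) ∈ t.1 ∧ t.2 (z.1, z.2.1) = z.2.2},
    fn fun t : (Set (Ω × Ca × Ca) × (Ω × Ca → Ca)) × Set (Ω × Ca) =>
      {z : Ω × Ca | (z.1, z.2, z.2) ∈ t.1.1 ∧ (z.1, t.1.2 z) ∈ t.2}]
    with X g a1 a2 F E h hF hh mF mh hd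
  obtain ⟨b1, b2⟩ := g.s2 _ (a1 (F, h) (hF.pair hh)) (Measurable.setOf
    ((mF.mem.comp (by fun_prop)).and (Measurable.eq (by fun_prop) (by fun_prop))))
  have k1 : ∀ a b, ZFSet.pair a b ∈ X.tr {z : Ω × Ca × Ca | (z.1, z.2.1, z.2.1) ∈ F ∧
      h (z.1, z.2.1) = z.2.2} → ∃ y ∈ X.Pt Ca, h (X.ω, y) ∈ X.Pt Ca ∧ (X.ω, y, y) ∈ F ∧
        a = enc y ∧ b = enc (h (X.ω, y)) := fun a b e => by
    obtain ⟨y, c1, w, c2, ⟨c3, c5⟩, c4⟩ := g.pair_mem e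
    obtain rfl : h (X.ω, y) = w := c5
    exact ⟨y, c1, c2, c3, c4⟩
  have k2 : ∀ y ∈ X.Pt Ca, (X.ω, y, y) ∈ F → ZFSet.pair (enc y) (enc (h (X.ω, y))) ∈
      X.tr {z : Ω × Ca × Ca | (z.1, z.2.1, z.2.1) ∈ F ∧ h (z.1, z.2.1) = z.2.2} :=
    fun y c1 c2 => g.enc_mem.2 ⟨c1, g.app h hh mh y c1, c2, rfl⟩
  refine ⟨_, ⟨b2 ▸ X.C.val_mem_M b1, ⟨fun z hz => ?_, fun a ha => ?_⟩, fun B hB => ?_⟩, k1⟩
  · obtain ⟨w, -, -, rfl⟩ := mem_tr.1 hz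
    obtain ⟨y, c1, c2, c3, c4, c5⟩ := k1 _ _ hz
    exact ZFSet.pair_mem_prod.2 ⟨g.mem_dom.2 ⟨y, c1, c3, c4⟩, g.mem_dom.2 ⟨_, c2, hd y c3, c5⟩⟩
  · obtain ⟨y, c1, c2, rfl⟩ := g.mem_dom.1 ha
    refine ⟨_, k2 y c1 c2, fun b e => ?_⟩
    obtain ⟨y', -, -, -, c4, rfl⟩ := k1 _ _ e
    rw [enc_inj c4]
  · obtain ⟨A, c1, c2, rfl⟩ := (g.bor B).1 hB
    refine (g.bor _).2 ⟨_, a2 ((F, h), A) ((hF.pair hh).pair c1), Measurable.setOf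
      ((mF.mem.comp (by fun_prop)).and (c2.mem.comp (by fun_prop))), ZFSet.ext fun a => ?_⟩
    rw [ZFSet.mem_sep, mem_tr]
    constructor
    · rintro ⟨-, b, d1, d2⟩
      obtain ⟨y, d3, -, d4, rfl, rfl⟩ := k1 _ _ d2
      exact ⟨y, d3, ⟨d4, (enc_mem_tr.1 d1).2⟩, rfl⟩
    · rintro ⟨y, d1, ⟨d2, d3⟩, rfl⟩
      exact ⟨g.mem_dom.2 ⟨y, d1, d2, rfl⟩, _, enc_mem_tr.2 ⟨g.app h hh mh y d1, d3⟩, k2 y d1 d2⟩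

theorem ev_red (hc : Core (J (Ω := Ω))) : ∀ᶠ X in club Ω, ∀ F E : Set (Ω × Ca × Ca), X.K F →
    X.K E → MeasurableSet F → MeasurableSet E → CBER X.C.M (X.tr F) → CBER X.C.M (X.tr E) →
    (∃ Γ ∈ X.C.M, MatchZ X.C.M (X.tr F) (X.tr E) Γ) → Red X.C.M (X.tr F) (X.tr E) := by
  let N : PP Ω × Set (Ω × Ca × Ca) × Set (Ω × Ca × Ca) → (Ω × Ca → Ca) → Set Ω := fun t h =>
    {ω | ω ∈ t.1.s ∧ ∃ y y', (ω, y, y) ∈ t.2.1 ∧ (ω, y', y') ∈ t.2.1 ∧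
      ¬ ((ω, y, y') ∈ t.2.1 ↔ (ω, h (ω, y), h (ω, y')) ∈ t.2.2)}
  filter_upwards [ev_good, ev_fib, ev_match, ev_graph, wit fun t h => Measurable h ∧ J (N t h),
    nul fun t : _ × _ => N t.1 t.2] with X g a1 a2 a3 a4 a5 F E hF hE mF mE cF cE ⟨Γ, b1, b2⟩
  obtain ⟨γ, hγ, rfl⟩ := X.C.mem_M.1 b1
  obtain ⟨p1, c1, d1⟩ := a1 F hF mF cF
  obtain ⟨p2, c2, d2⟩ := a1 E hE mE cE
  obtain ⟨p3, c3, d3⟩ := a2 γ hγ F E hF hE mF mE (d1 _ (X.h1 _ c1)) b2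
  obtain ⟨p4, c4, e1, e2, e3⟩ := X.C.dir3 c1 c2 c3
  obtain ⟨p, c5, e4, e5⟩ := X.C.cof p4 c4
  have hK : X.K (p, F, E) := CC.K.pair e5 (hF.pair hE)
  obtain ⟨h, h1, h2, h3⟩ := a4 _ hK (hc p.s F E (RR γ) p.m mF mE
    (fun ω a => d1 ω (e4.trans e1 a)) (fun ω a => d2 ω (e4.trans e2 a)) (d3 p (e4.trans e3)))
  have h4 : ∀ y y', (X.ω, y, y) ∈ F → (X.ω, y', y') ∈ F →
      ((X.ω, y, y') ∈ F ↔ (X.ω, h (X.ω, y), h (X.ω, y')) ∈ E) := fun y y' a b =>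
    not_not.1 fun e => a5 (_, h) (hK.pair h1) h3 ⟨X.h1 p c5, y, y', a, b, e⟩
  obtain ⟨u, u1, u2⟩ := a3 F E h hF h1 mF h2 fun y a => (h4 y y a a).1 a
  refine ⟨u, u1, fun x y x' y' a a' => ?_⟩
  obtain ⟨z, f1, f2, f3, rfl, rfl⟩ := u2 _ _ a
  obtain ⟨z', f1', f2', f3', rfl, rfl⟩ := u2 _ _ a'
  simp only [g.enc_mem, f1, f2, f1', f2', true_and, h4 z z' f3 f3']

theorem ev_ungraph : ∀ᶠ X in club Ω, ∀ E F : Set (Ω × Ca × Ca), X.K E → X.K F → MeasurableSet E →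
    MeasurableSet F → Red X.C.M (X.tr E) (X.tr F) → ∃ h : Ω × Ca → Ca, X.K h ∧ Measurable h ∧
      ∃ p ∈ X.C.G, ∀ ω ∈ p.s, ∀ x x', (ω, x, x) ∈ E → (ω, x', x') ∈ E →
        ((ω, x, x') ∈ E ↔ (ω, h (ω, x), h (ω, x')) ∈ F) := by
  choose s q h1 h2 h3 using fun n => seq fun (γ : Nm Ω) (A : Set (Ω × Ca)) p =>
    MeasurableSet A ∧ Agr γ A (Prod.snd ⁻¹' gen1 n) p
  filter_upwards [ev_good, ev_agr, eventually_countable_forall.2 h3,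
    fn fun (γ : Nm Ω) (z : Ω × Ca) n => decide (∃ k, z ∈ Prod.fst ⁻¹' q n γ k ∩ s n γ k),
    eventually_countable_forall.2 fun n => cst (Prod.snd ⁻¹' gen1 n : Set (Ω × Ca)),
    abs fun t : (Set (Ω × Ca × Ca) × Set (Ω × Ca × Ca)) × (Ω × Ca → Ca) =>
      {z : Ω × Ca × Ca | (z.1, z.2.1, z.2.1) ∈ t.1.1 ∧ (z.1, z.2.2, z.2.2) ∈ t.1.1 ∧
        ¬ (z ∈ t.1.1 ↔ (z.1, t.2 (z.1, z.2.1), t.2 (z.1, z.2.2)) ∈ t.1.2)}]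
    with X g a1 a2 a3 a4 a5 E F hE hF mE mF ⟨u, ⟨u1, u2, u3⟩, u4⟩
  obtain ⟨γ, hγ, rfl⟩ := X.C.mem_M.1 u1
  have hK := a3 γ hγ
  set h : Ω × Ca → Ca := fun z n => decide (∃ k, z ∈ Prod.fst ⁻¹' q n γ k ∩ s n γ k)
  have mh : Measurable h := measurable_pi_lambda _ fun n => meas_decide (Measurable.exists
    fun k => MeasurableSet.mem (by
      rcases (q n γ k).eq_empty_or_nonempty with b | b
      · simp [b]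
      · exact (measurable_fst (h1 n γ k)).inter (h2 n γ k b).choose_spec.1))
  have mg : ∀ n, MeasurableSet (Prod.snd ⁻¹' gen1 n : Set (Ω × Ca)) :=
    fun n => measurable_snd (meas_bit n)
  have key : ∀ x ∈ X.Pt Ca, (X.ω, x, x) ∈ E → ZFSet.pair (enc x) (enc (h (X.ω, x))) ∈ X.C.val γ := by
    intro x b1 b2
    obtain ⟨b, b3, -⟩ := u2.2 _ (g.mem_dom.2 ⟨x, b1, b2, rfl⟩)
    obtain ⟨y, b4, -, rfl⟩ := g.mem_dom.1 (ZFSet.pair_mem_prod.1 (u2.1 b3)).2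
    convert b3 using 3
    funext n
    have c1 : ∀ k, X.ω ∈ q n γ k → ((X.ω, x) ∈ s n γ k ↔ y n = true) := fun k c => by
      obtain ⟨d1, p, d2, d3, d4⟩ := (a2 n γ hγ).1 k c
      exact (a1 γ hγ _ _ d1 (a4 n) d3 (mg n)).1 ⟨p, d2, d4⟩ x b1 y b4 b3
    obtain ⟨A, c2, c3, c4⟩ := (g.bor _).1 (u3 (cyl X.C.M (nat n))
      fun T _ _ e => e _ (mem_omega.2 ⟨n, rfl⟩))
    obtain ⟨p, d1, d2⟩ := (a1 γ hγ A _ c2 (a4 n) c3 (mg n)).2 fun x' e1 y' e2 e3 => by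
      have e4 := (ZFSet.pair_mem_prod.1 (u2.1 e3)).1
      rw [← and_iff_right e1 (b := _ ∈ A), ← enc_mem_tr, ← c4, ZFSet.mem_sep, and_iff_right e4,
        cyl_eq g.can]
      exact ⟨fun ⟨b, e5, e6⟩ => (enc_mem_tr.1 ((u2.2 _ e4).unique e6 e3 ▸ e5 :)).2,
        fun e5 => ⟨_, enc_mem_tr.2 ⟨e2, e5⟩, e3⟩⟩
    obtain ⟨k, hk⟩ := (a2 n γ hγ).2 p d1 A ⟨c3, d2⟩
    rw [Bool.eq_iff_iff, decide_eq_true_eq]
    exact ⟨fun ⟨l, e⟩ => (c1 l e.1).1 e.2, fun e => ⟨k, hk, (c1 k hk).2 e⟩⟩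
  obtain ⟨p, p1, p2⟩ := a5 ((E, F), h) ((hE.pair hF).pair hK) (Measurable.setOf
    ((mE.mem.comp (by fun_prop)).and ((mE.mem.comp (by fun_prop)).and
      (mE.mem.iff (mF.mem.comp (by fun_prop))).not))) fun y hy b => by
    obtain ⟨c1, c2⟩ := (g.prod y).1 hy
    have := u4 _ _ _ _ (key _ c1 b.1) (key _ c2 b.2.1)
    simp only [g.enc_mem, c1, c2, g.app h hK mh _ c1, g.app h hK mh _ c2, true_and] at this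
    exact b.2.2 this
  exact ⟨h, hK, mh, p, p1, fun ω a x x' b b' => not_not.1 fun e => p2 ω a (x, x') ⟨b, b', e⟩⟩

theorem ev_qiso (hc : Core2 Ω) : ∀ᶠ X in club Ω, ∀ E F : Set (Ω × Ca × Ca), X.K E →
    X.K F → MeasurableSet E → MeasurableSet F → CBER X.C.M (X.tr E) → CBER X.C.M (X.tr F) →
    Red X.C.M (X.tr E) (X.tr F) → Red X.C.M (X.tr F) (X.tr E) → QIso X.C.M (X.tr E) (X.tr F) := by
  filter_upwards [ev_good, ev_fib, ev_ungraph, ev_graph,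
    wit fun (t : PP Ω × Set (Ω × Ca × Ca) × Set (Ω × Ca × Ca))
      (k : (Ω × Ca → Ca) × (Ω × Ca → Ca)) => Measurable k.1 ∧ Measurable k.2 ∧ ∀ ω ∈ t.1.s,
      (∀ x x', (ω, x, x') ∈ t.2.1 → (ω, k.1 (ω, x), k.1 (ω, x')) ∈ t.2.2) ∧
      (∀ y y', (ω, y, y') ∈ t.2.2 → (ω, k.2 (ω, y), k.2 (ω, y')) ∈ t.2.1) ∧
      (∀ x, (ω, x, x) ∈ t.2.1 → (ω, k.2 (ω, k.1 (ω, x)), x) ∈ t.2.1) ∧
      ∀ y, (ω, y, y) ∈ t.2.2 → (ω, k.1 (ω, k.2 (ω, y)), y) ∈ t.2.2]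
    with X g a1 a2 a3 a4 E F hE hF mE mF cE cF r r'
  obtain ⟨p1, c1, d1⟩ := a1 E hE mE cE
  obtain ⟨p2, c2, d2⟩ := a1 F hF mF cF
  obtain ⟨h, -, mh, p3, c3, d3⟩ := a2 E F hE hF mE mF r
  obtain ⟨h', -, mh', p4, c4, d4⟩ := a2 F E hF hE mF mE r'
  obtain ⟨p5, c5, e1, e2, e3⟩ := X.C.dir3 c1 c2 c3
  obtain ⟨p6, c6, e4, e5⟩ := X.C.dir p5 c5 p4 c4
  obtain ⟨p, c7, e6, e7⟩ := X.C.cof p6 c6
  obtain ⟨⟨k, k'⟩, k1, k2, k3, k4⟩ := a4 (p, E, F) (CC.K.pair e7 (hE.pair hF)) (by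
    obtain ⟨k, k', b⟩ := hc p.s E F h h' p.m mE mF (fun ω a => d1 ω (e6.trans (e4.trans e1) a))
      (fun ω a => d2 ω (e6.trans (e4.trans e2) a)) mh mh'
      (fun ω a => d3 ω (e6.trans (e4.trans e3) a)) fun ω a => d4 ω (e6.trans e5 a)
    exact ⟨(k, k'), b⟩)
  obtain ⟨k4, k5, k6, k7⟩ := k4 _ (X.h1 p c7)
  obtain ⟨u, u1, u2⟩ := a3 E F k hE k1.fst mE k2 fun y => k4 y y
  obtain ⟨v, v1, v2⟩ := a3 F E k' hF k1.snd mF k3 fun y => k5 y y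
  refine qiso_of_inv X.C.modelZF ((g.s2 E hE mE).2 ▸ X.C.val_mem_M (g.s2 E hE mE).1)
    ((g.s2 F hF mF).2 ▸ X.C.val_mem_M (g.s2 F hF mF).1) (g.perZ cE) (g.perZ cF) u1 v1
    (fun x y x' y' a a' b => ?_) (fun x y x' y' a a' b => ?_) (fun x y z a a' => ?_)
    fun x y z a a' => ?_
  · obtain ⟨z, -, f2, -, rfl, rfl⟩ := u2 _ _ a
    obtain ⟨z', -, f2', -, rfl, rfl⟩ := u2 _ _ a'
    exact g.enc_mem.2 ⟨f2, f2', k4 _ _ (g.enc_mem.1 b).2.2⟩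
  · obtain ⟨z, -, f2, -, rfl, rfl⟩ := v2 _ _ a
    obtain ⟨z', -, f2', -, rfl, rfl⟩ := v2 _ _ a'
    exact g.enc_mem.2 ⟨f2, f2', k5 _ _ (g.enc_mem.1 b).2.2⟩
  · obtain ⟨w, f1, -, f3, rfl, rfl⟩ := u2 _ _ a
    obtain ⟨w', -, f2', -, e, rfl⟩ := v2 _ _ a'
    obtain rfl := enc_inj e
    exact g.enc_mem.2 ⟨f2', f1, k6 w f3⟩
  · obtain ⟨w, f1, -, f3, rfl, rfl⟩ := v2 _ _ a
    obtain ⟨w', -, f2', -, e, rfl⟩ := u2 _ _ a'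
    obtain rfl := enc_inj e
    exact g.enc_mem.2 ⟨f2', f1, k7 w f3⟩

theorem ev_q1 (hc : Core (J (Ω := Ω))) (hc' : Core2 Ω) : ∀ᶠ X in club Ω, Q1In X.C.M := by
  filter_upwards [ev_good, ev_red hc, ev_qiso hc'] with X g a1 a2 E mE F mF cE cF
  obtain ⟨E, e1, e2, rfl⟩ := g.bor2 E cE.1
  obtain ⟨F, f1, f2, rfl⟩ := g.bor2 F cF.1
  refine ⟨fun h => a2 E F e1 f1 e2 f2 cE cF h.1 h.2, fun h => ?_⟩
  obtain ⟨h1, h2⟩ := match_of_qiso X.C.modelZF mE mF (g.perZ cE) (g.perZ cF) h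
  exact ⟨a1 E F e1 f1 e2 f2 cE cF h1, a1 F E f1 e1 f2 e2 cF cE h2⟩

theorem exists_pos_model : ∃ M : ZFSet.{0}, ModelZF M ∧ ChoiceIn M ∧ Q1In M := by
  let _ : Amb (II → W) := ⟨Nul ZZ univ, nul_ccc', not_nul_univ isLowerSet_univ⟩
  obtain ⟨X, hX⟩ := (ev_q1 (Ω := II → W) core (core2 II)).exists
  exact ⟨X.C.M, X.C.modelZF, X.C.choice, hX⟩

end Pool.Agent.Lib.MP_00fb6a_lc.Pos
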